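import Pool.Agent.N748.MJ.Stm

set_option autoImplicit false

/-!
# Exact joint large deviations of zeta at several points near the critical line: statements (over Mathlib only)
-/

namespace Pool.Agent.N748.JX

open Finset Filter MeasureTheory Topology Complex
open Pool.Agent.N748.MG Pool.Agent.N748.MJ

/-- the matrix `log |ζ(1 + 2 δ + i (h j - h l))|` -/
noncomputable def QM {m : ℕ} (δ : ℝ) (h : Fin m → ℝ) : Matrix (Fin m) (Fin m) ℝ :=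
  fun j l => Real.log ‖riemannZeta (((1 + 2 * δ : ℝ) : ℂ) + ((h j - h l : ℝ) : ℂ) * I)‖

/-- the quadratic form -/
noncomputable def qf {m : ℕ} (Q : Matrix (Fin m) (Fin m) ℝ) (x : Fin m → ℝ) : ℝ := ∑ j, ∑ l, x j * x l * Q j l

/-- (GDET) the Gauss integral -/
def S_GDET : Prop := ∀ (m : ℕ) (Q : Matrix (Fin m) (Fin m) ℝ), (∀ j l, Q j l = Q l j) →
  (∃ c : ℝ, 0 < c ∧ ∀ x : Fin m → ℝ, c * ∑ j, x j ^ 2 ≤ qf Q x) →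
  0 < Q.det ∧ Integrable (fun ξ : Fin m → ℝ => Real.exp (-(qf Q ξ / 4))) ∧
    ∫ ξ : Fin m → ℝ, Real.exp (-(qf Q ξ / 4)) = Real.sqrt ((4 * Real.pi) ^ m / Q.det)

/-- (LLTG) the local limit lemma in several dimensions -/
def S_LLTG : Prop := ∀ (m : ℕ) (ν : ℝ → Measure (Fin m → ℝ)) (Q : ℝ → Matrix (Fin m) (Fin m) ℝ) (c : ℝ → ℝ)
  (g : ℝ → (Fin m → ℝ) → ℂ), (∀ᶠ T : ℝ in atTop, IsFiniteMeasure (ν T)) → Tendsto c atTop atTop →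
  (∀ᶠ T : ℝ in atTop, (∀ j l, Q T j l = Q T l j) ∧ ∀ x : Fin m → ℝ, c T * ∑ j, x j ^ 2 ≤ qf (Q T) x) →
  (∀ᶠ T : ℝ in atTop, Continuous (g T)) →
  (∀ R : ℝ, 0 < R → ∃ C : ℝ, ∀ᶠ T : ℝ in atTop, ∀ ξ : Fin m → ℝ, (∀ j, |ξ j| ≤ R) → ‖g T ξ‖ ≤ C) →
  (∀ ε : ℝ, 0 < ε → ∃ ρ : ℝ, 0 < ρ ∧ ∀ᶠ T : ℝ in atTop, ∀ ξ : Fin m → ℝ, (∀ j, |ξ j| ≤ ρ) → ‖g T ξ - 1‖ ≤ ε) →
  (∀ R ε : ℝ, 0 < R → 0 < ε → ∀ᶠ T : ℝ in atTop, ∀ ξ : Fin m → ℝ, (∀ j, |ξ j| ≤ R) →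
    ‖(∫ x, Complex.exp (((∑ j, ξ j * x j : ℝ) : ℂ) * I) ∂(ν T)) - g T ξ * ((Real.exp (-(qf (Q T) ξ / 4)) : ℝ) : ℂ)‖ ≤
      ε * Real.exp (-(qf (Q T) ξ / 4))) →
  ∀ h : (Fin m → ℝ) → ℝ, Measurable h → (∃ S : Set (Fin m → ℝ), volume S = 0 ∧ ∀ x, x ∉ S → ContinuousAt h x) →
    (∃ C : ℝ, ∀ x, |h x| * ∏ j, (1 + x j ^ 2) ≤ C) →
    Tendsto (fun T => Real.sqrt (Real.pi ^ m * (Q T).det) * ∫ x, h x ∂(ν T)) atTop (𝓝 (∫ x, h x))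

/-- admissible shifts: the quadratic form is comparable with the largest possible one -/
def Sh {m : ℕ} (d : ℝ → ℝ) (a : ℝ → Fin m → ℝ) : Prop :=
  (∀ᶠ T : ℝ in atTop, ∀ j, |a T j| ≤ T ^ ((1:ℝ) / 2)) ∧
  ∃ ε : ℝ, 0 < ε ∧ ∀ᶠ T : ℝ in atTop, ∀ x : Fin m → ℝ, ε * Real.log (1 / d T) * ∑ j, x j ^ 2 ≤ qf (QM (d T) (a T)) x

/-- (JXL) the joint law at the large deviation scales -/
def S_JXL : Prop := ∀ d : ℝ → ℝ, Ad d → ∀ (m : ℕ) (a : ℝ → Fin m → ℝ), Sh d a → ∀ (U : Fin m → ℝ)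
  (h : (Fin m → ℝ) → ℝ), Measurable h → (∃ S : Set (Fin m → ℝ), volume S = 0 ∧ ∀ x, x ∉ S → ContinuousAt h x) →
  (∃ C : ℝ, ∀ x, |h x| ≤ C) → (∃ C : ℝ, ∀ x, |h x| * ∏ j, (1 + x j ^ 2) ≤ C * Real.exp (2 * ∑ j, U j * x j)) →
  Tendsto (fun T : ℝ => Real.sqrt (Real.pi ^ m * (QM (d T) (a T)).det) * Real.exp (qf (QM (d T) (a T)) U) /
    (aV (fun j => (U j : ℂ)) (fun j => (U j : ℂ)) (a T)).re *
    ((1 / T) * ∫ t in (0:ℝ)..T, h (fun j => Real.log (mz (d T) (t + a T j)) - ∑ l, QM (d T) (a T) j l * U l)))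
    atTop (𝓝 (∫ x, Real.exp (-(2 * ∑ j, U j * x j)) * h x))

/-- (JXT) joint large values -/
def S_JXT : Prop := ∀ d : ℝ → ℝ, Ad d → ∀ (m : ℕ) (a : ℝ → Fin m → ℝ), Sh d a → ∀ U : Fin m → ℝ, (∀ j, 0 < U j) →
  Tendsto (fun T : ℝ => Real.sqrt (Real.pi ^ m * (QM (d T) (a T)).det) * Real.exp (qf (QM (d T) (a T)) U) /
    (aV (fun j => (U j : ℂ)) (fun j => (U j : ℂ)) (a T)).re *
    ((1 / T) * (volume {t : ℝ | 0 ≤ t ∧ t ≤ T ∧ ∀ j, Real.exp (∑ l, QM (d T) (a T) j l * U l) < mz (d T) (t + a T j)}).toReal))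
    atTop (𝓝 (∏ j, 1 / (2 * U j)))

/-- (JXF) joint large values at fixed distinct points -/
def S_JXF : Prop := ∀ d : ℝ → ℝ, Ad d → ∀ (m : ℕ) (a V : Fin m → ℝ), Function.Injective a → (∀ j, 0 < V j) →
  Tendsto (fun T : ℝ => Real.sqrt (Real.pi * Real.log (1 / (2 * d T))) ^ m * (2 * d T) ^ (-(∑ j, V j ^ 2)) *
    ((1 / T) * (volume {t : ℝ | 0 ≤ t ∧ t ≤ T ∧ ∀ j, (2 * d T) ^ (-(V j)) < mz (d T) (t + a j)}).toReal))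
    atTop (𝓝 ((aV (fun j => (V j : ℂ)) (fun j => (V j : ℂ)) a).re *
      (∏ j, ∏ l, if j = l then 1 else ‖riemannZeta (1 + ((a j - a l : ℝ) : ℂ) * I)‖ ^ (V j * V l)) *
      ∏ j, 1 / (2 * V j)))

end Pool.Agent.N748.JX
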