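import Mathlib
import Pool.Agent.N748.JX.Stm

set_option autoImplicit false

/-!
# JX/GDET (helper271): the Gauss integral with a matrix
-/

namespace Pool.Agent.N748.JX.GDET

open Finset MeasureTheory Matrix
open Pool.Agent.N748.JX

lemma qf_eq {m : ℕ} (Q : Matrix (Fin m) (Fin m) ℝ) (x : Fin m → ℝ) : qf Q x = x ⬝ᵥ (Q *ᵥ x) := by
  unfold qf
  simp only [dotProduct, mulVec, Finset.mul_sum]
  refine sum_congr rfl fun j _ => sum_congr rfl fun l _ => ?_
  ring

lemma posDef {m : ℕ} {Q : Matrix (Fin m) (Fin m) ℝ} (hs : ∀ j l, Q j l = Q l j) {c : ℝ}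
    (hc : 0 < c) (h : ∀ x : Fin m → ℝ, c * ∑ j, x j ^ 2 ≤ qf Q x) : Q.PosDef := by
  refine Matrix.PosDef.of_dotProduct_mulVec_pos ?_ ?_
  · ext i j
    rw [conjTranspose_apply, star_trivial, hs]
  · intro x hx
    rw [star_trivial, ← qf_eq]
    refine lt_of_lt_of_le (mul_pos hc ?_) (h x)
    obtain ⟨i, hi⟩ : ∃ i, x i ≠ 0 := by
      by_contra hcon
      push Not at hcon
      exact hx (funext hcon)
    exact sum_pos' (fun j _ => sq_nonneg _) ⟨i, mem_univ i, by positivity⟩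

open scoped MatrixOrder in
lemma exists_root {m : ℕ} {Q : Matrix (Fin m) (Fin m) ℝ} (hQ : Q.PosDef) :
    ∃ B : Matrix (Fin m) (Fin m) ℝ, Bᵀ = B ∧ B * B = Q := by
  refine ⟨CFC.sqrt Q, ?_, ?_⟩
  · have h1 : (CFC.sqrt Q).PosSemidef := nonneg_iff_posSemidef.1 (CFC.sqrt_nonneg Q)
    have h2 := h1.isHermitian
    rw [IsHermitian, conjTranspose_eq_transpose_of_trivial] at h2
    exact h2
  · exact CFC.sqrt_mul_sqrt_self Q hQ.posSemidef.nonneg

lemma gauss1 : ∫ x : ℝ, Real.exp (-(x ^ 2 / 4)) = Real.sqrt (4 * Real.pi) := by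
  have h := integral_gaussian (1 / 4)
  have h1 : ∀ x : ℝ, -(1 / 4) * x ^ 2 = -(x ^ 2 / 4) := fun x => by ring
  simp only [h1] at h
  rw [h]
  congr 1
  ring

lemma gauss1_int : Integrable (fun x : ℝ => Real.exp (-(x ^ 2 / 4))) := by
  have h := integrable_exp_neg_mul_sq (b := 1 / 4) (by norm_num)
  have h1 : ∀ x : ℝ, -(1 / 4) * x ^ 2 = -(x ^ 2 / 4) := fun x => by ring
  simp only [h1] at h
  exact h

/-- the standard Gauss function -/
noncomputable def gs {m : ℕ} (y : Fin m → ℝ) : ℝ := ∏ i, Real.exp (-(y i ^ 2 / 4))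

lemma gs_int (m : ℕ) : Integrable (gs : (Fin m → ℝ) → ℝ) := by
  unfold gs
  rw [volume_pi]
  exact Integrable.fintype_prod (f := fun _ : Fin m => fun x : ℝ => Real.exp (-(x ^ 2 / 4)))
    (fun _ => gauss1_int)

lemma gs_eq (m : ℕ) : ∫ y : Fin m → ℝ, gs y = Real.sqrt (4 * Real.pi) ^ m := by
  unfold gs
  rw [integral_fintype_prod_volume_eq_pow (fun x : ℝ => Real.exp (-(x ^ 2 / 4))), gauss1,
    Fintype.card_fin]

lemma gs_cont (m : ℕ) : Continuous (gs : (Fin m → ℝ) → ℝ) := by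
  unfold gs
  fun_prop

theorem main : S_GDET := by
  intro m Q hs hc
  obtain ⟨c, hc, h⟩ := hc
  have hP := posDef hs hc h
  obtain ⟨B, hBt, hB⟩ := exists_root hP
  have hdet : 0 < Q.det := hP.det_pos
  have hdB : B.det * B.det = Q.det := by rw [← det_mul, hB]
  have hB0 : B.det ≠ 0 := by
    intro h0
    rw [h0, mul_zero] at hdB
    exact hdet.ne hdB
  have hqf : ∀ x : Fin m → ℝ, Real.exp (-(qf Q x / 4)) = gs (toLin' B x) := by
    intro x
    unfold gs
    rw [← Real.exp_sum]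
    congr 1
    rw [sum_neg_distrib, ← sum_div]
    congr 2
    rw [qf_eq, ← hB, ← mulVec_mulVec, dotProduct_mulVec, ← mulVec_transpose, hBt, toLin'_apply,
      dotProduct]
    refine sum_congr rfl fun i _ => ?_
    ring
  have hmap := Real.map_matrix_volume_pi_eq_smul_volume_pi hB0
  have hmeas : AEMeasurable (toLin' B : (Fin m → ℝ) → (Fin m → ℝ)) volume :=
    (LinearMap.continuous_on_pi _).aemeasurable
  have hsm : AEStronglyMeasurable (gs : (Fin m → ℝ) → ℝ)
      (Measure.map (toLin' B : (Fin m → ℝ) → (Fin m → ℝ)) volume) :=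
    (gs_cont m).aestronglyMeasurable
  refine ⟨hdet, ?_, ?_⟩
  · simp only [hqf]
    have h1 : Integrable (gs : (Fin m → ℝ) → ℝ)
        (Measure.map (toLin' B : (Fin m → ℝ) → (Fin m → ℝ)) volume) := by
      rw [hmap]
      exact (gs_int m).smul_measure ENNReal.ofReal_ne_top
    exact (integrable_map_measure hsm hmeas).1 h1
  · simp only [hqf]
    rw [← integral_map hmeas hsm, hmap, integral_smul_measure, gs_eq,
      ENNReal.toReal_ofReal (abs_nonneg _), smul_eq_mul, Real.sqrt_div (by positivity), ← hdB,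
      Real.sqrt_mul_self_eq_abs, abs_inv, div_eq_inv_mul]
    congr 1
    have h1 : Real.sqrt (4 * Real.pi) ^ m = Real.sqrt ((Real.sqrt (4 * Real.pi) ^ m) ^ 2) :=
      (Real.sqrt_sq (by positivity)).symm
    rw [h1, ← pow_mul, Nat.mul_comm, pow_mul, Real.sq_sqrt (by positivity)]

end Pool.Agent.N748.JX.GDET
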