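import Pool.Agent.N748.JX.Stm
import Pool.Agent.N748.MG.TMC

set_option autoImplicit false

/-!
# Joint large values at fixed distinct points (helper97, for project JX of helper748)
-/

namespace Pool.Agent.N748.JX.JXF

open Finset Filter MeasureTheory Topology Complex
open Pool.Agent.N748.MG Pool.Agent.N748.MJ Pool.Agent.N748.JX

/-- the limits of the entries -/
noncomputable def CM {m : ℕ} (a : Fin m → ℝ) (j l : Fin m) : ℝ :=
  if j = l then 0 else Real.log ‖riemannZeta (1 + ((a j - a l : ℝ) : ℂ) * I)‖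

/-- the entries without the main term -/
noncomputable def EM {m : ℕ} (δ : ℝ) (a : Fin m → ℝ) (j l : Fin m) : ℝ :=
  QM δ a j l - (if j = l then Real.log (1 / (2 * δ)) else 0)

theorem em_lim {d : ℝ → ℝ} (hd : Ad d) {m : ℕ} {a : Fin m → ℝ} (ha : Function.Injective a) (j l : Fin m) :
    Tendsto (fun T => EM (d T) a j l) atTop (𝓝 (CM a j l)) := by
  have h0 : Tendsto (fun T => ((1 + 2 * d T : ℝ) : ℂ)) atTop (𝓝 1) := by
    have h1 : Tendsto (fun T => (1 + 2 * d T : ℝ)) atTop (𝓝 (1 + 2 * 0)) :=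
      (hd.t0.const_mul 2).const_add 1
    rw [mul_zero, add_zero] at h1
    have h2 := (Complex.continuous_ofReal.tendsto 1).comp h1
    rw [Complex.ofReal_one] at h2
    exact h2
  by_cases hjl : j = l
  · subst hjl
    unfold CM EM QM
    simp only [if_true, sub_self, Complex.ofReal_zero, zero_mul, add_zero]
    have h1 : Tendsto (fun T => ((1 + 2 * d T : ℝ) : ℂ)) atTop (𝓝[≠] 1) := by
      refine tendsto_nhdsWithin_iff.2 ⟨h0, ?_⟩
      filter_upwards [hd.pos] with T hT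
      intro h2
      have h3 : (1 + 2 * d T : ℝ) = 1 := by
        have : ((1 + 2 * d T : ℝ) : ℂ) = ((1 : ℝ) : ℂ) := by rw [Complex.ofReal_one]; exact h2
        exact_mod_cast this
      linarith
    have h2 := (riemannZeta_residue_one.comp h1).norm
    rw [norm_one] at h2
    have h3 := (Real.continuousAt_log one_ne_zero).tendsto.comp h2
    rw [Real.log_one] at h3
    refine h3.congr' ?_
    filter_upwards [hd.pos] with T hT
    show Real.log ‖(((1 + 2 * d T : ℝ) : ℂ) - 1) * riemannZeta ((1 + 2 * d T : ℝ) : ℂ)‖ = _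
    have h4 : ‖(((1 + 2 * d T : ℝ) : ℂ) - 1)‖ = 2 * d T := by
      have : (((1 + 2 * d T : ℝ) : ℂ) - 1) = ((2 * d T : ℝ) : ℂ) := by push_cast; ring
      rw [this, Complex.norm_real, Real.norm_of_nonneg (by linarith)]
    have h5 : riemannZeta ((1 + 2 * d T : ℝ) : ℂ) ≠ 0 := by
      apply riemannZeta_ne_zero_of_one_le_re
      rw [Complex.ofReal_re]
      linarith
    rw [norm_mul, h4, Real.log_mul (by linarith) (norm_ne_zero_iff.2 h5), one_div, Real.log_inv]
    ring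
  · unfold CM EM QM
    simp only [if_neg hjl, sub_zero]
    have hu : a j - a l ≠ 0 := sub_ne_zero.2 fun h => hjl (ha h)
    have h1 : Tendsto (fun T => ((1 + 2 * d T : ℝ) : ℂ) + ((a j - a l : ℝ) : ℂ) * I) atTop
        (𝓝 (1 + ((a j - a l : ℝ) : ℂ) * I)) := h0.add_const _
    have hne : (1 + ((a j - a l : ℝ) : ℂ) * I) ≠ 1 := by
      intro h2
      have h3 := congrArg Complex.im h2
      simp at h3
      exact hu (by linarith)
    have h2 : ContinuousAt riemannZeta (1 + ((a j - a l : ℝ) : ℂ) * I) :=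
      (differentiableAt_riemannZeta hne).continuousAt
    have h3 := (h2.tendsto.comp h1).norm
    have h4 : riemannZeta (1 + ((a j - a l : ℝ) : ℂ) * I) ≠ 0 := by
      apply riemannZeta_ne_zero_of_one_le_re
      simp
    exact (Real.continuousAt_log (norm_ne_zero_iff.2 h4)).tendsto.comp h3

theorem L_lim {d : ℝ → ℝ} (hd : Ad d) : Tendsto (fun T => Real.log (1 / (2 * d T))) atTop atTop := by
  refine Real.tendsto_log_atTop.comp ?_
  have h1 : Tendsto (fun T => 2 * d T) atTop (𝓝[>] 0) := by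
    refine tendsto_nhdsWithin_iff.2 ⟨?_, ?_⟩
    · have := hd.t0.const_mul 2
      rwa [mul_zero] at this
    · filter_upwards [hd.pos] with T hT
      show 0 < 2 * d T
      linarith
  have h2 := tendsto_inv_nhdsGT_zero.comp h1
  refine h2.congr fun T => ?_
  rw [one_div]
  rfl

theorem qf_eq {m : ℕ} (δ : ℝ) (a x : Fin m → ℝ) :
    qf (QM δ a) x = Real.log (1 / (2 * δ)) * ∑ j, x j ^ 2 + ∑ j, ∑ l, x j * x l * EM δ a j l := by
  have h1 : ∀ j l, x j * x l * QM δ a j l = (if j = l then Real.log (1 / (2 * δ)) * (x j * x l) else 0) +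
      x j * x l * EM δ a j l := by
    intro j l
    unfold EM
    split_ifs <;> ring
  unfold qf
  simp only [h1, sum_add_distrib]
  congr 1
  rw [mul_sum]
  refine sum_congr rfl fun j _ => ?_
  rw [Finset.sum_ite_eq]
  simp [pow_two]

theorem abs_sum {m : ℕ} (x : Fin m → ℝ) (E B : Fin m → Fin m → ℝ) (h : ∀ j l, |E j l| ≤ B j l) :
    |∑ j, ∑ l, x j * x l * E j l| ≤ (∑ j, ∑ l, B j l) * ∑ j, x j ^ 2 := by
  have hx : ∀ i, x i ^ 2 ≤ ∑ j, x j ^ 2 := fun i =>
    Finset.single_le_sum (f := fun j => x j ^ 2) (fun j _ => sq_nonneg _) (mem_univ i)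
  refine (Finset.abs_sum_le_sum_abs _ _).trans ?_
  rw [sum_mul]
  refine sum_le_sum fun j _ => (Finset.abs_sum_le_sum_abs _ _).trans ?_
  rw [sum_mul]
  refine sum_le_sum fun l _ => ?_
  have h1 : |x j * x l| ≤ ∑ i, x i ^ 2 := by
    rw [abs_le]
    have h2 := hx j
    have h3 := hx l
    constructor <;> nlinarith [sq_nonneg (x j + x l), sq_nonneg (x j - x l)]
  rw [abs_mul, mul_comm (B j l)]
  exact mul_le_mul h1 (h j l) (abs_nonneg _) ((abs_nonneg _).trans h1)

theorem sh {d : ℝ → ℝ} (hd : Ad d) {m : ℕ} {a : Fin m → ℝ} (ha : Function.Injective a) :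
    Sh d (fun _ => a) := by
  refine ⟨?_, 1 / 2, by norm_num, ?_⟩
  · have h1 : Tendsto (fun T : ℝ => T ^ ((1 : ℝ) / 2)) atTop atTop := tendsto_rpow_atTop (by norm_num)
    have h2 : ∀ j, ∀ᶠ T : ℝ in atTop, |a j| ≤ T ^ ((1 : ℝ) / 2) := fun j => h1.eventually_ge_atTop _
    exact Filter.eventually_all.2 h2
  · have h1 : ∀ᶠ T in atTop, ∀ j l, |EM (d T) a j l| ≤ |CM a j l| + 1 := by
      refine Filter.eventually_all.2 fun j => Filter.eventually_all.2 fun l => ?_
      exact ((em_lim hd ha j l).abs.eventually_le_const (lt_add_one _))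
    have h2 : ∀ᶠ T in atTop, 2 * (∑ j, ∑ l, (|CM a j l| + 1)) + Real.log 2 ≤ Real.log (1 / (2 * d T)) :=
      (L_lim hd).eventually_ge_atTop _
    filter_upwards [h1, h2, hd.pos] with T h3 h4 h5
    intro x
    have h6 := abs_sum x (EM (d T) a) (fun j l => |CM a j l| + 1) h3
    rw [qf_eq]
    have h7 : Real.log (1 / d T) = Real.log (1 / (2 * d T)) + Real.log 2 := by
      rw [← Real.log_mul (by positivity) (by norm_num)]
      congr 1
      field_simp
    rw [h7]
    have h8 := (abs_le.1 h6).1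
    have h9 : 0 ≤ ∑ j, x j ^ 2 := sum_nonneg fun j _ => sq_nonneg _
    have h10 := mul_le_mul_of_nonneg_right h4 h9
    nlinarith

theorem sqrt_pow' {x : ℝ} (hx : 0 ≤ x) (m : ℕ) : Real.sqrt (x ^ m) = Real.sqrt x ^ m := by
  rw [Real.sqrt_eq_iff_mul_self_eq (pow_nonneg hx m) (pow_nonneg (Real.sqrt_nonneg x) m), ← mul_pow,
    Real.mul_self_sqrt hx]

theorem det_lim {d : ℝ → ℝ} (hd : Ad d) {m : ℕ} {a : Fin m → ℝ} (ha : Function.Injective a) :
    Tendsto (fun T => Real.sqrt (Real.pi ^ m * (QM (d T) a).det) /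
      Real.sqrt (Real.pi * Real.log (1 / (2 * d T))) ^ m) atTop (𝓝 1) := by
  have h1 : Tendsto (fun T => ((Real.log (1 / (2 * d T)))⁻¹ • (QM (d T) a) : Matrix (Fin m) (Fin m) ℝ)) atTop
      (𝓝 (1 : Matrix (Fin m) (Fin m) ℝ)) := by
    refine tendsto_pi_nhds.2 fun j => tendsto_pi_nhds.2 fun l => ?_
    have h2 : Tendsto (fun T => (Real.log (1 / (2 * d T)))⁻¹ * EM (d T) a j l + (if j = l then 1 else 0)) atTop
        (𝓝 (0 * CM a j l + (if j = l then 1 else 0))) :=
      ((tendsto_inv_atTop_zero.comp (L_lim hd)).mul (em_lim hd ha j l)).add_const _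
    rw [zero_mul, zero_add] at h2
    have h3 : (1 : Matrix (Fin m) (Fin m) ℝ) j l = if j = l then 1 else 0 := Matrix.one_apply
    rw [h3]
    refine h2.congr' ?_
    filter_upwards [(L_lim hd).eventually_gt_atTop 0] with T hT
    rw [Matrix.smul_apply, smul_eq_mul]
    unfold EM
    split_ifs
    · field_simp
      ring
    · ring
  have h2 : Tendsto (fun T => ((Real.log (1 / (2 * d T)))⁻¹ • (QM (d T) a) : Matrix (Fin m) (Fin m) ℝ).det) atTop
      (𝓝 1) := by
    have h3 := ((continuous_id (X := Matrix (Fin m) (Fin m) ℝ)).matrix_det.tendsto 1).comp h1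
    simp only [id, Matrix.det_one] at h3
    exact h3
  have h3 := (Real.continuous_sqrt.tendsto 1).comp h2
  rw [Real.sqrt_one] at h3
  refine h3.congr' ?_
  filter_upwards [(L_lim hd).eventually_gt_atTop 0] with T hT
  show Real.sqrt ((Real.log (1 / (2 * d T)))⁻¹ • (QM (d T) a) : Matrix (Fin m) (Fin m) ℝ).det = _
  have hpi := Real.pi_pos
  have h4 : Real.pi ^ m * (QM (d T) a).det = (Real.pi * Real.log (1 / (2 * d T))) ^ m *
      ((Real.log (1 / (2 * d T)))⁻¹ • (QM (d T) a) : Matrix (Fin m) (Fin m) ℝ).det := by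
    rw [Matrix.det_smul, Fintype.card_fin, mul_pow, inv_pow]
    field_simp
  have h5 : 0 < Real.pi * Real.log (1 / (2 * d T)) := by positivity
  rw [h4, Real.sqrt_mul (by positivity), sqrt_pow' h5.le, mul_div_cancel_left₀]
  exact pow_ne_zero _ (Real.sqrt_pos.2 h5).ne'

/-- the exponential factors -/
theorem exp_lim {d : ℝ → ℝ} (hd : Ad d) {m : ℕ} {a : Fin m → ℝ} (ha : Function.Injective a) (V : Fin m → ℝ) :
    Tendsto (fun T => (2 * d T) ^ (-(∑ j, V j ^ 2)) / Real.exp (qf (QM (d T) a) V)) atTop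
      (𝓝 (Real.exp (-(∑ j, ∑ l, V j * V l * CM a j l)))) := by
  have h1 : Tendsto (fun T => ∑ j, ∑ l, V j * V l * EM (d T) a j l) atTop (𝓝 (∑ j, ∑ l, V j * V l * CM a j l)) :=
    tendsto_finsetSum _ fun j _ => tendsto_finsetSum _ fun l _ => (em_lim hd ha j l).const_mul _
  have h2 := (Real.continuous_exp.tendsto _).comp h1.neg
  refine h2.congr' ?_
  filter_upwards [hd.pos] with T hT
  show Real.exp (-(∑ j, ∑ l, V j * V l * EM (d T) a j l)) = _
  rw [qf_eq, Real.rpow_def_of_pos (by linarith), ← Real.exp_sub]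
  congr 1
  rw [one_div, Real.log_inv]
  ring

/-! ### the test functions -/

/-- the indicator of an orthant -/
noncomputable def hI {m : ℕ} (r x : Fin m → ℝ) : ℝ := ∏ j, (Set.Ioi (r j)).indicator (fun _ => (1 : ℝ)) (x j)

theorem ind_nn (r x : ℝ) : 0 ≤ (Set.Ioi r).indicator (fun _ => (1 : ℝ)) x :=
  Set.indicator_nonneg (fun _ _ => zero_le_one) _

theorem ind_le (r x : ℝ) : (Set.Ioi r).indicator (fun _ => (1 : ℝ)) x ≤ 1 := by
  by_cases h : x ∈ Set.Ioi r
  · rw [Set.indicator_of_mem h]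
  · rw [Set.indicator_of_notMem h]
    exact zero_le_one

theorem ind_anti {r r' : ℝ} (h : r' ≤ r) (x : ℝ) : (Set.Ioi r).indicator (fun _ => (1 : ℝ)) x ≤
    (Set.Ioi r').indicator (fun _ => (1 : ℝ)) x := by
  by_cases hx : x ∈ Set.Ioi r
  · rw [Set.indicator_of_mem hx, Set.indicator_of_mem (Set.Ioi_subset_Ioi h hx)]
  · rw [Set.indicator_of_notMem hx]
    exact ind_nn _ _

theorem hI_nn {m : ℕ} (r x : Fin m → ℝ) : 0 ≤ hI r x := prod_nonneg fun _ _ => ind_nn _ _

theorem hI_le {m : ℕ} (r x : Fin m → ℝ) : hI r x ≤ 1 := prod_le_one (fun _ _ => ind_nn _ _) fun _ _ => ind_le _ _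

theorem hI_anti {m : ℕ} {r r' : Fin m → ℝ} (h : ∀ j, r' j ≤ r j) (x : Fin m → ℝ) : hI r x ≤ hI r' x :=
  prod_le_prod (fun _ _ => ind_nn _ _) fun j _ => ind_anti (h j) _

theorem hI_meas {m : ℕ} (r : Fin m → ℝ) : Measurable (hI r) :=
  Finset.measurable_prod _ fun j _ => (measurable_const.indicator measurableSet_Ioi).comp (measurable_pi_apply j)

theorem ind_cont {r x : ℝ} (h : x ≠ r) : ContinuousAt ((Set.Ioi r).indicator (fun _ => (1 : ℝ))) x := by
  rcases lt_or_gt_of_ne h with h1 | h1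
  · have h5 : (Set.Ioi r).indicator (fun _ => (1 : ℝ)) =ᶠ[𝓝 x] fun _ => (0 : ℝ) := by
      filter_upwards [Iio_mem_nhds h1] with y hy
      exact Set.indicator_of_notMem (fun h2 => absurd h2 (not_lt.2 (le_of_lt hy))) _
    exact continuousAt_const.congr h5.symm
  · have h5 : (Set.Ioi r).indicator (fun _ => (1 : ℝ)) =ᶠ[𝓝 x] fun _ => (1 : ℝ) := by
      filter_upwards [Ioi_mem_nhds h1] with y hy
      exact Set.indicator_of_mem hy _
    exact continuousAt_const.congr h5.symm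

theorem hI_cont {m : ℕ} (r : Fin m → ℝ) : ∃ S : Set (Fin m → ℝ), volume S = 0 ∧ ∀ x, x ∉ S → ContinuousAt (hI r) x := by
  refine ⟨⋃ j, {x | x j = r j}, ?_, ?_⟩
  · refine measure_iUnion_null fun j => ?_
    rw [volume_pi]
    exact Measure.pi_hyperplane (fun _ : Fin m => (volume : Measure ℝ)) j (r j)
  · intro x hx
    have h1 : ∀ j, x j ≠ r j := fun j h2 => hx (Set.mem_iUnion.2 ⟨j, h2⟩)
    exact tendsto_finsetProd _ fun j _ =>
      ContinuousAt.comp (f := fun y : Fin m → ℝ => y j) (g := (Set.Ioi (r j)).indicator (fun _ => (1 : ℝ)))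
        (ind_cont (h1 j)) (continuous_apply j).continuousAt

theorem bd1 {V : ℝ} (hV : 0 < V) (r : ℝ) : ∃ C : ℝ, ∀ x : ℝ,
    (Set.Ioi r).indicator (fun _ => (1 : ℝ)) x * (1 + x ^ 2) ≤ C * Real.exp (2 * V * x) := by
  obtain ⟨C, hC, hC'⟩ := TMC.exp_bd (a := 2 * V) (by linarith)
  refine ⟨2 * (1 + r ^ 2) * C * Real.exp (-(2 * V * r)), fun x => ?_⟩
  by_cases hx : x ∈ Set.Ioi r
  · rw [Set.indicator_of_mem hx, one_mul]
    have h1 := hC' (x - r) (sub_nonneg.2 (le_of_lt hx))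
    have h2 : 1 + x ^ 2 ≤ 2 * (1 + r ^ 2) * (1 + (x - r) ^ 2) := by
      nlinarith [sq_nonneg (x - 2 * r), sq_nonneg (r * (x - r))]
    have h3 : Real.exp (-(2 * V * r)) * Real.exp (2 * V * x) = Real.exp (2 * V * (x - r)) := by
      rw [← Real.exp_add]
      congr 1
      ring
    calc 1 + x ^ 2 ≤ 2 * (1 + r ^ 2) * (1 + (x - r) ^ 2) := h2
      _ ≤ 2 * (1 + r ^ 2) * (C * Real.exp (2 * V * (x - r))) := mul_le_mul_of_nonneg_left h1 (by positivity)
      _ = _ := by rw [← h3]; ring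
  · rw [Set.indicator_of_notMem hx, zero_mul]
    positivity

theorem hI_bd {m : ℕ} {V : Fin m → ℝ} (hV : ∀ j, 0 < V j) (r : Fin m → ℝ) :
    ∃ C : ℝ, ∀ x : Fin m → ℝ, |hI r x| * ∏ j, (1 + x j ^ 2) ≤ C * Real.exp (2 * ∑ j, V j * x j) := by
  choose C hC using fun j => bd1 (hV j) (r j)
  refine ⟨∏ j, C j, fun x => ?_⟩
  rw [abs_of_nonneg (hI_nn r x), hI, ← prod_mul_distrib, mul_sum, Real.exp_sum, ← prod_mul_distrib]
  refine prod_le_prod (fun j _ => mul_nonneg (ind_nn _ _) (by positivity)) fun j _ => ?_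
  rw [← mul_assoc 2]
  exact hC j (x j)

theorem hI_int {m : ℕ} {V : Fin m → ℝ} (hV : ∀ j, 0 < V j) (r : Fin m → ℝ) :
    ∫ x : Fin m → ℝ, Real.exp (-(2 * ∑ j, V j * x j)) * hI r x = ∏ j, Real.exp (-(2 * V j * r j)) / (2 * V j) := by
  have h1 : ∀ x : Fin m → ℝ, Real.exp (-(2 * ∑ j, V j * x j)) * hI r x =
      ∏ j, (Set.Ioi (r j)).indicator (fun y => Real.exp (-(2 * V j) * y)) (x j) := by
    intro x
    rw [hI, mul_sum, ← sum_neg_distrib, Real.exp_sum, ← prod_mul_distrib]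
    refine prod_congr rfl fun j _ => ?_
    by_cases hx : x j ∈ Set.Ioi (r j)
    · rw [Set.indicator_of_mem hx, Set.indicator_of_mem hx, mul_one]
      congr 1
      ring
    · rw [Set.indicator_of_notMem hx, Set.indicator_of_notMem hx, mul_zero]
  simp only [h1]
  rw [integral_fintype_prod_volume_eq_prod (fun j y => (Set.Ioi (r j)).indicator (fun y => Real.exp (-(2 * V j) * y)) y)]
  refine prod_congr rfl fun j _ => ?_
  rw [integral_indicator measurableSet_Ioi, integral_exp_mul_Ioi (by linarith [hV j]), neg_div_neg_eq, neg_mul]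

/-! ### the event -/

/-- the centred logarithms -/
noncomputable def xT {m : ℕ} (δ : ℝ) (a V : Fin m → ℝ) (t : ℝ) : Fin m → ℝ :=
  fun j => Real.log (mz δ (t + a j)) - ∑ l, QM δ a j l * V l

/-- the thresholds -/
noncomputable def eT {m : ℕ} (δ : ℝ) (a V : Fin m → ℝ) : Fin m → ℝ := fun j => -∑ l, EM δ a j l * V l

/-- the limits of the thresholds -/
noncomputable def sT {m : ℕ} (a V : Fin m → ℝ) : Fin m → ℝ := fun j => -∑ l, CM a j l * V l

theorem Q_sum {m : ℕ} (δ : ℝ) (a V : Fin m → ℝ) (j : Fin m) :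
    ∑ l, QM δ a j l * V l = V j * Real.log (1 / (2 * δ)) - eT δ a V j := by
  have h1 : ∀ l, QM δ a j l * V l = (if j = l then V l * Real.log (1 / (2 * δ)) else 0) + EM δ a j l * V l := by
    intro l
    unfold EM
    split_ifs <;> ring
  simp only [h1, sum_add_distrib, Finset.sum_ite_eq, mem_univ, if_true, eT]
  ring

theorem e_lim {d : ℝ → ℝ} (hd : Ad d) {m : ℕ} {a : Fin m → ℝ} (ha : Function.Injective a) (V : Fin m → ℝ)
    (j : Fin m) : Tendsto (fun T => eT (d T) a V j) atTop (𝓝 (sT a V j)) :=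
  (tendsto_finsetSum _ fun l _ => (em_lim hd ha j l).mul_const _).neg

theorem xT_meas {m : ℕ} {δ : ℝ} (h : δ < 1 / 2) (a V : Fin m → ℝ) : Measurable (xT δ a V) := by
  refine measurable_pi_lambda _ fun j => ?_
  exact (Real.measurable_log.comp ((TMC.mz_meas h).comp (measurable_id.add_const (a j)))).sub_const _

theorem ae_ne' {m : ℕ} {δ : ℝ} (h : δ < 1 / 2) (a : Fin m → ℝ) : ∀ᵐ t : ℝ, ∀ j, mz δ (t + a j) ≠ 0 := by
  rw [ae_all_iff]
  intro j
  exact (measurePreserving_add_right volume (a j)).quasiMeasurePreserving.ae (TMC.ae_ne h)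

/-- the event -/
def Ev {m : ℕ} (δ : ℝ) (a V : Fin m → ℝ) : Set ℝ := {t | ∀ j, (2 * δ) ^ (-(V j)) < mz δ (t + a j)}

theorem Ev_meas {m : ℕ} {δ : ℝ} (h : δ < 1 / 2) (a V : Fin m → ℝ) : MeasurableSet (Ev δ a V) := by
  have : Ev δ a V = ⋂ j, {t | (2 * δ) ^ (-(V j)) < mz δ (t + a j)} := by
    ext t
    simp [Ev]
  rw [this]
  exact MeasurableSet.iInter fun j => measurableSet_lt measurable_const
    ((TMC.mz_meas h).comp (measurable_id.add_const (a j)))

theorem Ev_iff {m : ℕ} {δ : ℝ} (h0 : 0 < δ) (a V : Fin m → ℝ) {t : ℝ} (ht : ∀ j, mz δ (t + a j) ≠ 0) :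
    t ∈ Ev δ a V ↔ ∀ j, eT δ a V j < xT δ a V t j := by
  refine forall_congr' fun j => ?_
  have h1 : 0 < mz δ (t + a j) := lt_of_le_of_ne (norm_nonneg _) (Ne.symm (ht j))
  rw [TMC.level h0, ← Real.lt_log_iff_exp_lt h1]
  unfold xT
  rw [Q_sum]
  constructor <;> intro h <;> linarith

theorem hI_one {m : ℕ} {r x : Fin m → ℝ} (h : ∀ j, r j < x j) : hI r x = 1 := by
  unfold hI
  exact prod_eq_one fun j _ => Set.indicator_of_mem (show x j ∈ Set.Ioi (r j) from h j) _

theorem hI_zero {m : ℕ} {r x : Fin m → ℝ} (h : ¬ ∀ j, r j < x j) : hI r x = 0 := by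
  unfold hI
  push Not at h
  obtain ⟨j, hj⟩ := h
  exact prod_eq_zero (mem_univ j) (Set.indicator_of_notMem (fun h2 => absurd h2 (not_lt.2 hj)) _)

theorem vol_eq {m : ℕ} {δ T : ℝ} (h0 : 0 < δ) (h1 : δ < 1 / 2) (hT : 0 ≤ T) (a V : Fin m → ℝ) :
    (volume {t : ℝ | 0 ≤ t ∧ t ≤ T ∧ ∀ j, (2 * δ) ^ (-(V j)) < mz δ (t + a j)}).toReal =
      ∫ t in (0:ℝ)..T, hI (eT δ a V) (xT δ a V t) := by
  have e1 : {t : ℝ | 0 ≤ t ∧ t ≤ T ∧ ∀ j, (2 * δ) ^ (-(V j)) < mz δ (t + a j)} = Set.Icc 0 T ∩ Ev δ a V := by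
    ext t
    simp only [Set.mem_ofPred_eq, Set.mem_inter_iff, Set.mem_Icc, Ev, and_assoc]
  have e2 : (volume (Set.Icc 0 T ∩ Ev δ a V)).toReal = ∫ t in Set.Icc 0 T ∩ Ev δ a V, (1 : ℝ) := by
    simp [Measure.real]
  rw [e1, e2, ← setIntegral_indicator (Ev_meas h1 a V), intervalIntegral.integral_of_le hT,
    ← integral_Icc_eq_integral_Ioc]
  refine integral_congr_ae (ae_restrict_of_ae ?_)
  filter_upwards [ae_ne' h1 a] with t ht
  have h2 := Ev_iff h0 a V ht
  by_cases hq : t ∈ Ev δ a V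
  · rw [Set.indicator_of_mem hq, hI_one (h2.1 hq)]
  · rw [Set.indicator_of_notMem hq, hI_zero fun h => hq (h2.2 h)]

theorem int_able {m : ℕ} {δ T : ℝ} (h1 : δ < 1 / 2) (a V r : Fin m → ℝ) :
    IntervalIntegrable (fun t => hI r (xT δ a V t)) volume 0 T := by
  rw [intervalIntegrable_iff]
  refine Measure.integrableOn_of_bounded (M := 1) (by simp) ((hI_meas r).comp (xT_meas h1 a V)).aestronglyMeasurable
    (Eventually.of_forall fun t => ?_)
  rw [Real.norm_of_nonneg (hI_nn _ _)]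
  exact hI_le _ _

theorem int_mono {m : ℕ} {δ T : ℝ} (h1 : δ < 1 / 2) (hT : 0 ≤ T) (a V : Fin m → ℝ) {r r' : Fin m → ℝ}
    (h : ∀ j, r' j ≤ r j) :
    ∫ t in (0:ℝ)..T, hI r (xT δ a V t) ≤ ∫ t in (0:ℝ)..T, hI r' (xT δ a V t) :=
  intervalIntegral.integral_mono_on hT (int_able h1 a V r) (int_able h1 a V r') fun _ _ => hI_anti h _

/-- the value of the limit -/
noncomputable def F {m : ℕ} (V r : Fin m → ℝ) : ℝ := ∏ j, Real.exp (-(2 * V j * r j)) / (2 * V j)

theorem F_cont {m : ℕ} (V r : Fin m → ℝ) : Continuous fun η : ℝ => F V (fun j => r j + η) := by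
  unfold F
  fun_prop

theorem F_pos {m : ℕ} {V : Fin m → ℝ} (hV : ∀ j, 0 < V j) (r : Fin m → ℝ) : 0 < F V r :=
  prod_pos fun j _ => div_pos (Real.exp_pos _) (by linarith [hV j])

/-- the normalising factor -/
noncomputable def KT {m : ℕ} (δ : ℝ) (a V : Fin m → ℝ) : ℝ :=
  Real.sqrt (Real.pi ^ m * (QM δ a).det) * Real.exp (qf (QM δ a) V) /
    (aV (fun j => (V j : ℂ)) (fun j => (V j : ℂ)) a).re

theorem lim1 (g : S_JXL) {d : ℝ → ℝ} (hd : Ad d) {m : ℕ} {a V : Fin m → ℝ} (ha : Function.Injective a)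
    (hV : ∀ j, 0 < V j) (r : Fin m → ℝ) :
    Tendsto (fun T => KT (d T) a V * ((1 / T) * ∫ t in (0:ℝ)..T, hI r (xT (d T) a V t))) atTop (𝓝 (F V r)) := by
  have h1 := g d hd m (fun _ => a) (sh hd ha) V (hI r) (hI_meas r) (hI_cont r)
    ⟨1, fun x => by rw [abs_of_nonneg (hI_nn r x)]; exact hI_le r x⟩ (hI_bd hV r)
  rw [hI_int hV r] at h1
  exact h1

theorem a_pos (g : S_JXL) {d : ℝ → ℝ} (hd : Ad d) {m : ℕ} {a V : Fin m → ℝ} (ha : Function.Injective a)
    (hV : ∀ j, 0 < V j) : 0 < (aV (fun j => (V j : ℂ)) (fun j => (V j : ℂ)) a).re := by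
  have h1 := (lim1 g hd ha hV (fun _ => 0)).eventually_const_lt (F_pos hV _)
  obtain ⟨T, hT, hT0⟩ := (h1.and (eventually_ge_atTop 0)).exists
  by_contra hcon
  have h2 : KT (d T) a V ≤ 0 := div_nonpos_of_nonneg_of_nonpos (by positivity) (not_lt.1 hcon)
  have h3 : 0 ≤ (1 / T) * ∫ t in (0:ℝ)..T, hI (fun _ => 0) (xT (d T) a V t) :=
    mul_nonneg (by positivity) (intervalIntegral.integral_nonneg hT0 fun _ _ => hI_nn _ _)
  exact absurd hT (not_lt.2 (mul_nonpos_of_nonpos_of_nonneg h2 h3))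

/-- the sandwich -/
theorem lim2 (g : S_JXL) {d : ℝ → ℝ} (hd : Ad d) {m : ℕ} {a V : Fin m → ℝ} (ha : Function.Injective a)
    (hV : ∀ j, 0 < V j) :
    Tendsto (fun T => KT (d T) a V * ((1 / T) * ∫ t in (0:ℝ)..T, hI (eT (d T) a V) (xT (d T) a V t))) atTop
      (𝓝 (F V (sT a V))) := by
  have hlt : ∀ᶠ T in atTop, d T < 1 / 2 := hd.t0.eventually_lt_const (by norm_num)
  have hap := a_pos g hd ha hV
  have hK : ∀ T, 0 ≤ KT (d T) a V := fun T => by unfold KT; positivity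
  have h0 : F V (sT a V) = F V (fun j => sT a V j + 0) := by simp only [add_zero]
  have hc := (F_cont V (sT a V)).tendsto 0
  rw [← h0] at hc
  rw [tendsto_order]
  constructor
  · intro l hl
    obtain ⟨η, hη, hη0⟩ : ∃ η : ℝ, l < F V (fun j => sT a V j + η) ∧ 0 < η := by
      have h1 := (hc.mono_left nhdsWithin_le_nhds : Tendsto _ (𝓝[>] (0:ℝ)) _).eventually_const_lt hl
      exact (h1.and self_mem_nhdsWithin).exists
    have h2 : ∀ᶠ T in atTop, ∀ j, eT (d T) a V j < sT a V j + η :=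
      Filter.eventually_all.2 fun j => (e_lim hd ha V j).eventually_lt_const (by linarith)
    filter_upwards [h2, hlt, eventually_ge_atTop 0, (lim1 g hd ha hV (fun j => sT a V j + η)).eventually_const_lt hη]
      with T h3 h4 h5 h6
    refine h6.trans_le ?_
    refine mul_le_mul_of_nonneg_left (mul_le_mul_of_nonneg_left ?_ (by positivity)) (hK T)
    exact int_mono h4 h5 a V fun j => (h3 j).le
  · intro l hl
    obtain ⟨η, hη, hη0⟩ : ∃ η : ℝ, F V (fun j => sT a V j + η) < l ∧ η < 0 := by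
      have h1 := (hc.mono_left nhdsWithin_le_nhds : Tendsto _ (𝓝[<] (0:ℝ)) _).eventually_lt_const hl
      exact (h1.and self_mem_nhdsWithin).exists
    have h2 : ∀ᶠ T in atTop, ∀ j, sT a V j + η < eT (d T) a V j :=
      Filter.eventually_all.2 fun j => (e_lim hd ha V j).eventually_const_lt (by linarith)
    filter_upwards [h2, hlt, eventually_ge_atTop 0, (lim1 g hd ha hV (fun j => sT a V j + η)).eventually_lt_const hη]
      with T h3 h4 h5 h6
    refine lt_of_le_of_lt ?_ h6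
    refine mul_le_mul_of_nonneg_left (mul_le_mul_of_nonneg_left ?_ (by positivity)) (hK T)
    exact int_mono h4 h5 a V fun j => (h3 j).le

theorem F_eq {m : ℕ} (a V : Fin m → ℝ) :
    Real.exp (-(∑ j, ∑ l, V j * V l * CM a j l)) * F V (sT a V) =
      (∏ j, ∏ l, if j = l then 1 else ‖riemannZeta (1 + ((a j - a l : ℝ) : ℂ) * I)‖ ^ (V j * V l)) *
      ∏ j, 1 / (2 * V j) := by
  have h1 : F V (sT a V) = Real.exp (2 * ∑ j, ∑ l, V j * V l * CM a j l) * ∏ j, 1 / (2 * V j) := by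
    unfold F
    rw [mul_sum, Real.exp_sum, ← prod_mul_distrib]
    refine prod_congr rfl fun j _ => ?_
    rw [mul_one_div]
    congr 2
    unfold sT
    rw [mul_neg, neg_neg, mul_sum, mul_sum]
    refine sum_congr rfl fun l _ => ?_
    ring
  have h2 : Real.exp (∑ j, ∑ l, V j * V l * CM a j l) =
      ∏ j, ∏ l, if j = l then 1 else ‖riemannZeta (1 + ((a j - a l : ℝ) : ℂ) * I)‖ ^ (V j * V l) := by
    rw [Real.exp_sum]
    refine prod_congr rfl fun j _ => ?_
    rw [Real.exp_sum]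
    refine prod_congr rfl fun l _ => ?_
    unfold CM
    split_ifs
    · rw [mul_zero, Real.exp_zero]
    · rw [Real.rpow_def_of_pos, mul_comm]
      refine norm_pos_iff.2 (riemannZeta_ne_zero_of_one_le_re ?_)
      simp
  rw [h1, ← mul_assoc, ← Real.exp_add, ← h2]
  congr 2
  ring

theorem main (g : S_JXL) (_g5 : S_LZB) : S_JXF := by
  intro d hd m a V ha hV
  have hap := a_pos g hd ha hV
  have h1 := (((det_lim hd ha).inv₀ one_ne_zero).mul (exp_lim hd ha V)).mul ((lim2 g hd ha hV).const_mul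
    (aV (fun j => (V j : ℂ)) (fun j => (V j : ℂ)) a).re)
  have e1 : (1 : ℝ)⁻¹ * Real.exp (-(∑ j, ∑ l, V j * V l * CM a j l)) *
      ((aV (fun j => (V j : ℂ)) (fun j => (V j : ℂ)) a).re * F V (sT a V)) =
      (aV (fun j => (V j : ℂ)) (fun j => (V j : ℂ)) a).re *
      (∏ j, ∏ l, if j = l then 1 else ‖riemannZeta (1 + ((a j - a l : ℝ) : ℂ) * I)‖ ^ (V j * V l)) *
      ∏ j, 1 / (2 * V j) := by
    rw [mul_assoc _ _ (∏ j, 1 / (2 * V j)), ← F_eq, inv_one]
    ring
  rw [e1] at h1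
  refine h1.congr' ?_
  have hlt : ∀ᶠ T in atTop, d T < 1 / 2 := hd.t0.eventually_lt_const (by norm_num)
  have hdet : ∀ᶠ T in atTop, Real.sqrt (Real.pi ^ m * (QM (d T) a).det) /
      Real.sqrt (Real.pi * Real.log (1 / (2 * d T))) ^ m ≠ 0 :=
    (det_lim hd ha).eventually_ne one_ne_zero
  filter_upwards [hd.pos, hlt, eventually_ge_atTop 0, hdet] with T b1 b2 b3 b4
  rw [vol_eq b1 b2 b3 a V]
  unfold KT
  have h2 : Real.sqrt (Real.pi ^ m * (QM (d T) a).det) ≠ 0 := fun h => b4 (by rw [h, zero_div])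
  have h3 : Real.sqrt (Real.pi * Real.log (1 / (2 * d T))) ^ m ≠ 0 := fun h => b4 (by rw [h, div_zero])
  have h4 := (Real.exp_pos (qf (QM (d T) a) V)).ne'
  have h5 := hap.ne'
  field_simp

end Pool.Agent.N748.JX.JXF
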