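import Pool.Agent.N748.JX.Stm
import Pool.Agent.N748.MG.LD
import Pool.Agent.N748.MJ.BND
import Pool.Agent.N748.MJ.GVB
import Pool.Agent.N748.MJ.POSV

set_option autoImplicit false

/-!
# The joint law of zeta at several points at the large deviation scales (helper490, for project JX of helper748)
-/

namespace Pool.Agent.N748.JX.JXL

open Finset Filter MeasureTheory Topology Complex
open Pool.Agent.N748.MG Pool.Agent.N748.MJ Pool.Agent.N748.JX

/-! ### the arithmetic factor is holomorphic, so Lipschitz uniformly in the shifts -/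

theorem lC_diff (k : ℕ) : Differentiable ℂ fun s : ℂ => lC s k := by
  unfold lC
  refine Differentiable.fun_finsetProd fun i _ => ?_
  exact (differentiable_id.add_const _).div_const _

theorem lV_diff {m : ℕ} (u v : Fin m → ℂ) (h : Fin m → ℝ) (p k : ℕ) :
    Differentiable ℂ fun z : ℂ => lV (fun j => u j + z * v j) h p k := by
  unfold lV
  refine Differentiable.fun_sum fun μ _ => Differentiable.fun_finsetProd fun j _ => ?_
  refine Differentiable.mul_const ?_ _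
  refine (lC_diff (μ j)).comp ?_
  exact (differentiable_const _).add (differentiable_id.mul_const _)

theorem lV_conj {m : ℕ} (r : Fin m → ℂ) (h : Fin m → ℝ) (p k : ℕ) :
    (starRingEnd ℂ) (lV (cj r) h p k) = lV r (fun j => -h j) p k := by
  unfold lV
  rw [map_sum]
  refine Finset.sum_congr rfl fun μ _ => ?_
  rw [map_prod]
  refine Finset.prod_congr rfl fun j _ => ?_
  rw [map_mul, POSV.conj_lC]
  unfold cj
  rw [Complex.conj_conj]
  congr 1
  have h2 := Complex.cpow_conj (p : ℂ) (-((μ j * h j : ℝ) * I))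
    (by rw [Complex.natCast_arg]; exact Real.pi_ne_zero.symm)
  rw [Complex.conj_natCast] at h2
  have h3 : (-((((μ j : ℝ) * h j : ℝ) : ℂ) * I)) = -((((μ j : ℝ) * h j : ℝ) : ℂ) * I) := rfl
  push_cast at h2 ⊢
  rw [← h2]
  congr 1
  simp

/-- the line -/
noncomputable def ln {m : ℕ} (u v : Fin m → ℂ) (z : ℂ) : Fin m → ℂ := fun j => u j + z * v j

theorem gV_diff {m : ℕ} (u v : Fin m → ℂ) (h : Fin m → ℝ) {R : ℝ} {k0 : ℕ}
    (hk0 : ∀ (s : Fin m → ℂ) (h : Fin m → ℝ), (∀ j, ‖s j‖ ≤ R) →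
    ∀ q k : ℕ, 1 ≤ q → ‖lV s h q k‖ ≤ ‖lC (k0 : ℂ) k‖)
    (hR : ∀ z ∈ Metric.ball (0 : ℂ) 2, ∀ j, ‖ln u v z j‖ ≤ R) {p : ℕ} (hp : p.Prime) :
    DifferentiableOn ℂ (fun z : ℂ => gV (ln u v z) (ln u v z) h 0 p) (Metric.ball (0 : ℂ) 2) := by
  have e : (fun z : ℂ => gV (ln u v z) (ln u v z) h 0 p) = fun z : ℂ =>
      (∏ j, ∏ l, (POSV.bs p (h j - h l)) ^ (ln u v z j * ln u v z l)) * POSV.SV (ln u v z) (ln u v z) h p := by
    funext z
    exact POSV.gV_eq _ _ _ _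
  rw [e]
  have hl : ∀ j, Differentiable ℂ fun z : ℂ => ln u v z j := fun j => by
    unfold ln
    exact (differentiable_const _).add (differentiable_id.mul_const _)
  refine DifferentiableOn.mul (Differentiable.differentiableOn ?_) ?_
  · refine Differentiable.fun_finsetProd fun j _ => Differentiable.fun_finsetProd fun l _ => ?_
    exact Differentiable.const_cpow ((hl j).mul (hl l)) (Or.inl (POSV.bs_ne hp _))
  · unfold POSV.SV
    refine Complex.differentiableOn_tsum_of_summable_norm (u := Pool.Agent.N748.MG.CON.bb k0 1)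
      (Pool.Agent.N748.MG.CON.bb_sum k0 1) (fun k => Differentiable.differentiableOn ?_) Metric.isOpen_ball
      fun k z hz => POSV.term_bd hk0 h (hR z hz) (hR z hz) hp k
    have e2 : (fun z : ℂ => lV (ln u v z) h p k * (starRingEnd ℂ) (lV (cj (ln u v z)) h p k) *
        (((p : ℝ) ^ (-(1 + 2 * (0 : ℝ))) : ℝ) : ℂ) ^ k) = fun z : ℂ =>
        lV (ln u v z) h p k * lV (ln u v z) (fun j => -h j) p k *
        (((p : ℝ) ^ (-(1 + 2 * (0 : ℝ))) : ℝ) : ℂ) ^ k := by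
      funext z
      rw [lV_conj _ _ _ _]
    rw [e2]
    exact ((lV_diff u v h p k).mul (lV_diff u v _ p k)).mul_const _

theorem aV_diff (hB : S_BND) (hG : S_GVB) {m : ℕ} (u v : Fin m → ℂ) (h : Fin m → ℝ) {R : ℝ} (h0 : 0 ≤ R)
    (hR : ∀ z ∈ Metric.closedBall (0 : ℂ) 1, ∀ j, ‖ln u v z j‖ ≤ R)
    (hR2 : ∀ z ∈ Metric.ball (0 : ℂ) 2, ∀ j, ‖ln u v z j‖ ≤ R) :
    DifferentiableOn ℂ (fun z : ℂ => aV (ln u v z) (ln u v z) h) (Metric.ball (0 : ℂ) 1) := by
  obtain ⟨k0, hk0⟩ := hB m R h0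
  obtain ⟨C, hC0, hC⟩ := hG m R h0
  have hd : ∀ p : Nat.Primes, DifferentiableOn ℂ (fun z : ℂ => gV (ln u v z) (ln u v z) h 0 p - 1)
      (Metric.ball (0 : ℂ) 2) := fun p =>
    (gV_diff u v h (fun s h hs => (hk0 s h hs).1) hR2 p.2).sub_const _
  have hsub : Metric.closedBall (0 : ℂ) 1 ⊆ Metric.ball (0 : ℂ) 2 :=
    Metric.closedBall_subset_ball (by norm_num)
  have h1 := Summable.hasProdUniformlyOn_one_add (f := fun (p : Nat.Primes) (z : ℂ) =>
    gV (ln u v z) (ln u v z) h 0 p - 1) (isCompact_closedBall (0 : ℂ) 1) (POSV.sum_px C)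
    (Eventually.of_forall fun p z hz => (hC _ _ h (hR z hz) (hR z hz) p p.2 0 le_rfl zero_le_one).1)
    (fun p => (hd p).continuousOn.mono hsub)
  have h2 := h1.tendstoUniformlyOn
  have h3 : DifferentiableOn ℂ (fun z : ℂ => ∏' p : Nat.Primes, (1 + (gV (ln u v z) (ln u v z) h 0 p - 1)))
      (Metric.ball (0 : ℂ) 1) := by
    refine TendstoLocallyUniformlyOn.differentiableOn
      (h2.mono Metric.ball_subset_closedBall).tendstoLocallyUniformlyOn
      (Eventually.of_forall fun I => ?_) Metric.isOpen_ball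
    refine DifferentiableOn.fun_finsetProd fun p _ => ?_
    exact (differentiableOn_const _).add ((hd p).mono (Metric.ball_subset_closedBall.trans hsub))
  refine h3.congr fun z _ => ?_
  exact POSV.aV_eq _ _ _

/-- the shift of the exponents -/
noncomputable def bx {m : ℕ} (U ξ : Fin m → ℝ) : Fin m → ℂ := fun j => (U j : ℂ) + (ξ j : ℂ) / 2 * I

theorem bx_norm {m : ℕ} {U ξ : Fin m → ℝ} {A R : ℝ} (hU : ∀ j, |U j| ≤ A) (hξ : ∀ j, |ξ j| ≤ R) (j : Fin m) :
    ‖bx U ξ j‖ ≤ A + R / 2 := by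
  unfold bx
  refine (norm_add_le _ _).trans ?_
  rw [norm_mul, Complex.norm_I, mul_one, norm_div, Complex.norm_real, Complex.norm_real,
    Real.norm_eq_abs, Real.norm_eq_abs]
  have h1 := hU j
  have h2 := hξ j
  have h3 : ‖(2 : ℂ)‖ = 2 := by norm_num
  rw [h3]
  linarith

theorem lip (hB : S_BND) (hG : S_GVB) (hP : S_POSV) {m : ℕ} (U : Fin m → ℝ) :
    ∃ C : ℝ, 0 < C ∧ ∀ (h : Fin m → ℝ) (ρ : ℝ), 0 < ρ → ρ ≤ 1 / 2 → ∀ ξ : Fin m → ℝ, (∀ j, |ξ j| ≤ ρ) →
      ‖aV (bx U ξ) (bx U ξ) h - aV (fun j => (U j : ℂ)) (fun j => (U j : ℂ)) h‖ ≤ C * ρ := by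
  obtain ⟨A, hA0, hA⟩ : ∃ A : ℝ, 0 ≤ A ∧ ∀ j, |U j| ≤ A := by
    refine ⟨∑ j, |U j|, Finset.sum_nonneg fun j _ => abs_nonneg _, fun j => ?_⟩
    exact Finset.single_le_sum (f := fun j => |U j|) (fun j _ => abs_nonneg _) (Finset.mem_univ j)
  obtain ⟨c, C, hc, hC, hPh⟩ := hP m (A + 1) (by linarith)
  refine ⟨2 * C, by positivity, fun h ρ hρ hρ2 ξ hξ => ?_⟩
  set u : Fin m → ℂ := fun j => (U j : ℂ) with hu
  set v : Fin m → ℂ := fun j => (ξ j : ℂ) / (2 * ρ) * I with hv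
  have hvn : ∀ j, ‖v j‖ ≤ 1 / 2 := fun j => by
    rw [hv]
    simp only
    rw [norm_mul, Complex.norm_I, mul_one, norm_div, norm_mul, Complex.norm_real, Complex.norm_real,
      Real.norm_eq_abs, Real.norm_eq_abs, abs_of_pos hρ]
    have h3 : ‖(2 : ℂ)‖ = 2 := by norm_num
    rw [h3, div_le_iff₀ (by positivity)]
    linarith [hξ j]
  have hln : ∀ (t : ℝ) (z : ℂ), ‖z‖ ≤ t → ∀ j, ‖ln u v z j‖ ≤ A + t / 2 := by
    intro t z hz j
    unfold ln
    refine (norm_add_le _ _).trans ?_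
    rw [hu]
    simp only
    rw [Complex.norm_real, Real.norm_eq_abs, norm_mul]
    have h1 := hA j
    have h2 := mul_le_mul hz (hvn j) (norm_nonneg _) ((norm_nonneg _).trans hz)
    linarith
  have h1 := aV_diff hB hG u v h (R := A + 1) (by linarith) (fun z hz j => by
    rw [mem_closedBall_zero_iff] at hz
    have := hln 1 z hz j
    linarith) (fun z hz j => by
    rw [mem_ball_zero_iff] at hz
    have := hln 2 z hz.le j
    linarith)
  have hbd : ∀ z ∈ Metric.ball (0 : ℂ) 1, ‖aV (ln u v z) (ln u v z) h‖ ≤ C := fun z hz => by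
    rw [mem_ball_zero_iff] at hz
    have h2 : ∀ j, ‖ln u v z j‖ ≤ A + 1 := fun j => by
      have := hln 1 z hz.le j
      linarith
    exact (hPh h).1 _ _ h2 h2
  have h0 : (0 : ℂ) ∈ Metric.ball (0 : ℂ) 1 := Metric.mem_ball_self one_pos
  have h2 := Complex.dist_le_div_mul_dist_of_mapsTo_ball (R₂ := 2 * C) (z := (ρ : ℂ)) h1 (fun z hz => by
    rw [Metric.mem_closedBall, dist_eq_norm]
    refine (norm_sub_le _ _).trans ?_
    have := hbd z hz
    have := hbd 0 h0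
    linarith) (by
      rw [mem_ball_zero_iff, Complex.norm_real, Real.norm_of_nonneg hρ.le]
      linarith)
  rw [dist_eq_norm, dist_eq_norm, sub_zero, Complex.norm_real, Real.norm_of_nonneg hρ.le, div_one] at h2
  have e1 : ln u v (ρ : ℂ) = bx U ξ := by
    funext j
    unfold ln bx
    rw [hu, hv]
    have : (ρ : ℂ) ≠ 0 := by exact_mod_cast hρ.ne'
    simp only
    field_simp
  have e2 : ln u v 0 = u := by
    funext j
    unfold ln
    ring
  rw [e1, e2] at h2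
  exact h2

/-! ### the logarithm of zeta -/

theorem LZ_conj {δ : ℝ} (h0 : 0 < δ) (u : ℝ) :
    (starRingEnd ℂ) (LZ (1 + 2 * δ) u) = LZ (1 + 2 * δ) (-u) := by
  unfold LZ
  rw [Complex.conj_tsum]
  refine tsum_congr fun p => ?_
  rw [map_neg]
  congr 1
  have hp0 : 0 < (p : ℕ) := p.2.pos
  have h1 : ‖((p : ℕ) : ℂ) ^ (-(((1 + 2 * δ : ℝ) : ℂ) + (u : ℂ) * I))‖ < 1 := by
    rw [Complex.norm_natCast_cpow_of_pos hp0]
    have e : (-(((1 + 2 * δ : ℝ) : ℂ) + (u : ℂ) * I)).re = -(1 + 2 * δ) := by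
      simp
    rw [e]
    have : (1 : ℝ) < ((p : ℕ) : ℝ) := by exact_mod_cast p.2.one_lt
    exact Real.rpow_lt_one_of_one_lt_of_neg this (by linarith)
  have h2 : 0 < (1 - ((p : ℕ) : ℂ) ^ (-(((1 + 2 * δ : ℝ) : ℂ) + (u : ℂ) * I))).re := by
    rw [Complex.sub_re, Complex.one_re]
    have := Complex.re_le_norm (((p : ℕ) : ℂ) ^ (-(((1 + 2 * δ : ℝ) : ℂ) + (u : ℂ) * I)))
    linarith
  have h3 : (1 - ((p : ℕ) : ℂ) ^ (-(((1 + 2 * δ : ℝ) : ℂ) + (u : ℂ) * I))) ∈ slitPlane := Or.inl h2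
  rw [← Complex.log_conj _ (slitPlane_arg_ne_pi h3), map_sub, map_one]
  congr 2
  have h4 := Complex.cpow_conj ((p : ℕ) : ℂ) (-(((1 + 2 * δ : ℝ) : ℂ) + (u : ℂ) * I))
    (by rw [Complex.natCast_arg]; exact Real.pi_ne_zero.symm)
  rw [Complex.conj_natCast] at h4
  rw [← h4]
  congr 1
  rw [map_neg, map_add, map_mul, Complex.conj_ofReal, Complex.conj_ofReal, Complex.conj_I]
  push_cast
  ring

theorem QM_eq (hZ : S_LZB) {m : ℕ} {δ : ℝ} (h0 : 0 < δ) (h1 : δ ≤ 1 / 16) (h : Fin m → ℝ) (j l : Fin m) :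
    QM δ h j l = (LZ (1 + 2 * δ) (h j - h l)).re := by
  unfold QM
  rw [← (hZ δ h0 h1 (h j - h l)).2, Complex.norm_exp, Real.log_exp]

theorem QM_symm (hZ : S_LZB) {m : ℕ} {δ : ℝ} (h0 : 0 < δ) (h1 : δ ≤ 1 / 16) (h : Fin m → ℝ) (j l : Fin m) :
    QM δ h j l = QM δ h l j := by
  rw [QM_eq hZ h0 h1, QM_eq hZ h0 h1, ← neg_sub, ← LZ_conj h0, Complex.conj_re]

theorem QM_abs (hZ : S_LZB) {m : ℕ} {δ : ℝ} (h0 : 0 < δ) (h1 : δ ≤ 1 / 16) (h : Fin m → ℝ) (j l : Fin m) :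
    |QM δ h j l| ≤ Real.log (1 / δ) := by
  rw [QM_eq hZ h0 h1]
  exact (Complex.abs_re_le_norm _).trans (hZ δ h0 h1 (h j - h l)).1

theorem LM_eq (hZ : S_LZB) {m : ℕ} {δ : ℝ} (h0 : 0 < δ) (h1 : δ ≤ 1 / 16) (h : Fin m → ℝ) (b : Fin m → ℂ) :
    LM b b h δ = ∑ j, ∑ l, b j * b l * ((QM δ h j l : ℝ) : ℂ) := by
  have e1 : LM b b h δ = ∑ j, ∑ l, b j * b l * LZ (1 + 2 * δ) (h j - h l) := rfl
  have e2 : LM b b h δ = ∑ j, ∑ l, b j * b l * (starRingEnd ℂ) (LZ (1 + 2 * δ) (h j - h l)) := by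
    rw [e1, Finset.sum_comm]
    refine Finset.sum_congr rfl fun j _ => Finset.sum_congr rfl fun l _ => ?_
    rw [LZ_conj h0, neg_sub, mul_comm (b l)]
  have e3 : LM b b h δ + LM b b h δ = 2 * ∑ j, ∑ l, b j * b l * ((QM δ h j l : ℝ) : ℂ) := by
    nth_rw 1 [e1]
    rw [e2, ← Finset.sum_add_distrib, Finset.mul_sum]
    refine Finset.sum_congr rfl fun j _ => ?_
    rw [← Finset.sum_add_distrib, Finset.mul_sum]
    refine Finset.sum_congr rfl fun l _ => ?_
    rw [← mul_add, Complex.add_conj, QM_eq hZ h0 h1]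
    push_cast
    ring
  linear_combination e3 / 2

/-- the linear form -/
noncomputable def wv {m : ℕ} (Q : Matrix (Fin m) (Fin m) ℝ) (U : Fin m → ℝ) : Fin m → ℝ :=
  fun j => ∑ l, Q j l * U l

theorem quad {m : ℕ} (Q : Matrix (Fin m) (Fin m) ℝ) (hQ : ∀ j l, Q j l = Q l j) (U ξ : Fin m → ℝ) :
    ∑ j, ∑ l, bx U ξ j * bx U ξ l * ((Q j l : ℝ) : ℂ) =
      ((qf Q U - qf Q ξ / 4 : ℝ) : ℂ) + ((∑ j, ξ j * wv Q U j : ℝ) : ℂ) * I := by
  have e1 : ∀ j l : Fin m, bx U ξ j * bx U ξ l * ((Q j l : ℝ) : ℂ) =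
      ((U j * U l * Q j l : ℝ) : ℂ) - ((ξ j * ξ l * Q j l : ℝ) : ℂ) / 4 +
        (((ξ j * (Q j l * U l) : ℝ) : ℂ) / 2 * I + ((ξ l * (Q l j * U j) : ℝ) : ℂ) / 2 * I) := by
    intro j l
    rw [hQ l j]
    unfold bx
    push_cast
    linear_combination ((ξ j : ℂ) * ξ l * Q j l / 4) * Complex.I_sq
  simp only [e1, Finset.sum_add_distrib, Finset.sum_sub_distrib]
  have e2 : ∑ j, ∑ l, ((ξ l * (Q l j * U j) : ℝ) : ℂ) / 2 * I =
      ∑ j, ∑ l, ((ξ j * (Q j l * U l) : ℝ) : ℂ) / 2 * I := Finset.sum_comm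
  rw [e2]
  unfold qf wv
  push_cast
  simp only [Finset.mul_sum, Finset.sum_div, Finset.sum_mul, ← Finset.sum_add_distrib, ← Finset.sum_sub_distrib]
  refine Finset.sum_congr rfl fun j _ => Finset.sum_congr rfl fun l _ => ?_
  ring

theorem qf_self {m : ℕ} (Q : Matrix (Fin m) (Fin m) ℝ) (U : Fin m → ℝ) :
    ∑ j, U j * wv Q U j = qf Q U := by
  unfold qf wv
  refine Finset.sum_congr rfl fun j _ => ?_
  rw [Finset.mul_sum]
  refine Finset.sum_congr rfl fun l _ => ?_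
  ring

/-! ### the sets -/

/-- the properties of the sets -/
structure Gd {m : ℕ} (d : ℝ → ℝ) (a : ℝ → Fin m → ℝ) (D : ℝ) (n : ℕ) (T : ℝ) (N : Set ℝ) : Prop where
  T0 : 0 ≤ T
  meas : MeasurableSet N
  sub : N ⊆ Set.Icc 0 T
  vol : volume (Set.Icc 0 T \ N) ≤ ENNReal.ofReal (d T ^ D * T)
  nz : ∀ t ∈ N, ∀ j, riemannZeta (pw (d T) (t + a T j)) ≠ 0
  est : ∀ b : Fin m → ℂ, (∀ j, ‖b j‖ ≤ n + 1) →
    ‖cexp (-(LM b b (a T) (d T))) * (∫ t in N, ∏ j, ZZ (riemannZeta (pw (d T) (t + a T j))) (b j) 0) -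
      T * aV b b (a T)‖ ≤ 1 / ((n : ℝ) + 1) * T

theorem Gd.mono {m : ℕ} {d : ℝ → ℝ} {a : ℝ → Fin m → ℝ} {D : ℝ} (k n : ℕ) (T : ℝ) (N : Set ℝ) (hmn : k ≤ n)
    (h : Gd d a D n T N) : Gd d a D k T N := by
  have h1 : (k : ℝ) ≤ n := by exact_mod_cast hmn
  refine ⟨h.T0, h.meas, h.sub, h.vol, h.nz, fun b hb => (h.est b fun j => (hb j).trans (by linarith)).trans ?_⟩
  refine mul_le_mul_of_nonneg_right ?_ h.T0
  exact one_div_le_one_div_of_le (by positivity) (by linarith)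

theorem sp_zero {m : ℕ} (b : Fin m → ℂ) : sp b (fun _ => 0) = b := by
  funext j
  simp [sp]

theorem sm_zero {m : ℕ} (b : Fin m → ℂ) : sm b (fun _ => 0) = b := by
  funext j
  simp [sm]

theorem exists_sets (hM : S_JM) {m : ℕ} {d : ℝ → ℝ} {a : ℝ → Fin m → ℝ} (hd : Ad d)
    (ha : ∀ᶠ T : ℝ in atTop, ∀ j, |a T j| ≤ T ^ ((1:ℝ) / 2)) {D : ℝ} (hD : 0 < D) :
    ∃ N : ℝ → Set ℝ, ∀ n, ∀ᶠ T : ℝ in atTop, Gd d a D n T (N T) := by
  refine LD.diag (Gd d a D) (fun n => ?_) Gd.mono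
  have h1 := (hM m (n + 1) D (by positivity) hD (1 / ((n : ℝ) + 1)) (by positivity)).app hd
  filter_upwards [h1, ha, eventually_ge_atTop 0] with T h2 h3 hT
  obtain ⟨N, a1, a2, a3, a4, a5⟩ := h2 (a T) h3
  refine ⟨N, hT, a1, a2, a3, a4, fun b hb => ?_⟩
  have h4 := a5 b (fun _ => 0) hb (fun _ => by
    rw [Int.cast_zero, abs_zero]
    positivity)
  rw [sp_zero, sm_zero] at h4
  exact h4

/-! ### the measure -/

/-- the density -/
noncomputable def rho {m : ℕ} (K δ : ℝ) (h U : Fin m → ℝ) (t : ℝ) : ℝ := K * ∏ j, mz δ (t + h j) ^ (2 * U j)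

/-- the variable -/
noncomputable def X {m : ℕ} (δ : ℝ) (h w : Fin m → ℝ) (t : ℝ) : Fin m → ℝ :=
  fun j => Real.log (mz δ (t + h j)) - w j

/-- the measure -/
noncomputable def nu {m : ℕ} (K δ : ℝ) (h U w : Fin m → ℝ) (N : Set ℝ) : Measure (Fin m → ℝ) :=
  ((volume.restrict N).withDensity (fun t => ENNReal.ofReal (rho K δ h U t))).map (X δ h w)

theorem mzc {δ : ℝ} (h0 : 0 < δ) (h1 : δ ≤ 1 / 16) (c : ℝ) : Continuous fun t : ℝ => mz δ (t + c) := by
  unfold mz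
  exact ((LD.zc h0 h1).comp (continuous_id.add continuous_const)).norm

theorem X_meas {m : ℕ} {δ : ℝ} (h0 : 0 < δ) (h1 : δ ≤ 1 / 16) (h w : Fin m → ℝ) : Measurable (X δ h w) := by
  refine measurable_pi_lambda _ fun j => ?_
  exact (Real.measurable_log.comp (mzc h0 h1 _).measurable).sub_const _

theorem rho_meas {m : ℕ} {δ : ℝ} (h0 : 0 < δ) (h1 : δ ≤ 1 / 16) (K : ℝ) (h U : Fin m → ℝ) :
    Measurable (rho K δ h U) := by
  unfold rho
  refine Measurable.const_mul ?_ _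
  exact Finset.measurable_prod _ fun j _ => (mzc h0 h1 _).measurable.pow_const _

theorem rho_nn {m : ℕ} {K δ : ℝ} (hK : 0 ≤ K) (h U : Fin m → ℝ) (t : ℝ) : 0 ≤ rho K δ h U t := by
  unfold rho
  exact mul_nonneg hK (Finset.prod_nonneg fun j _ => Real.rpow_nonneg (norm_nonneg _) _)

theorem int_nu {E : Type*} [NormedAddCommGroup E] [NormedSpace ℝ E] {m : ℕ} {K δ : ℝ} (h0 : 0 < δ)
    (h1 : δ ≤ 1 / 16) (hK : 0 ≤ K) (h U w : Fin m → ℝ) (N : Set ℝ) {f : (Fin m → ℝ) → E}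
    (hf : StronglyMeasurable f) :
    ∫ x, f x ∂(nu K δ h U w N) = ∫ t in N, rho K δ h U t • f (X δ h w t) := by
  unfold nu
  rw [integral_map (X_meas h0 h1 h w).aemeasurable hf.aestronglyMeasurable]
  have h2 : (fun t => ENNReal.ofReal (rho K δ h U t)) =
      fun t => (((rho K δ h U t).toNNReal : NNReal) : ENNReal) := rfl
  rw [h2, integral_withDensity_eq_integral_smul (rho_meas h0 h1 K h U).real_toNNReal]
  refine integral_congr_ae (Eventually.of_forall fun t => ?_)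
  show (rho K δ h U t).toNNReal • f (X δ h w t) = rho K δ h U t • f (X δ h w t)
  rw [NNReal.smul_def, Real.coe_toNNReal _ (rho_nn hK h U t)]

theorem four {m : ℕ} {K δ : ℝ} (h0 : 0 < δ) (h1 : δ ≤ 1 / 16) (hK : 0 ≤ K) (h U w ξ : Fin m → ℝ)
    {N : Set ℝ} (hN : MeasurableSet N) (hnz : ∀ t ∈ N, ∀ j, riemannZeta (pw δ (t + h j)) ≠ 0) :
    ∫ x, cexp (((∑ j, ξ j * x j : ℝ) : ℂ) * I) ∂(nu K δ h U w N) =
      (K : ℂ) * cexp (-(((∑ j, ξ j * w j : ℝ) : ℂ) * I)) *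
          ∫ t in N, ∏ j, ZZ (riemannZeta (pw δ (t + h j))) (bx U ξ j) 0 := by
  rw [int_nu h0 h1 hK h U w N (by
    have : Continuous (fun x : Fin m → ℝ => cexp (((∑ j, ξ j * x j : ℝ) : ℂ) * I)) := by fun_prop
    exact this.stronglyMeasurable), ← integral_const_mul]
  refine setIntegral_congr_fun hN fun t ht => ?_
  have hz : ∀ j, 0 < mz δ (t + h j) := fun j => norm_pos_iff.2 (hnz t ht j)
  have e1 : ∀ j, ZZ (riemannZeta (pw δ (t + h j))) (bx U ξ j) 0 =
      cexp (((Real.log (mz δ (t + h j)) : ℝ) : ℂ) * (2 * bx U ξ j)) := fun j => by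
    unfold ZZ
    have hz' : ((‖riemannZeta (pw δ (t + h j))‖ : ℝ) : ℂ) ≠ 0 := by
      rw [Ne, Complex.ofReal_eq_zero]
      exact (hz j).ne'
    have hzn : 0 < ‖riemannZeta (pw δ (t + h j))‖ := hz j
    rw [zpow_zero, mul_one, Complex.cpow_def_of_ne_zero hz', ← Complex.ofReal_log hzn.le]
    rfl
  have e2 : ∀ j, mz δ (t + h j) ^ (2 * U j) = Real.exp (Real.log (mz δ (t + h j)) * (2 * U j)) :=
    fun j => Real.rpow_def_of_pos (hz j) _
  simp only [e1]
  rw [← Complex.exp_sum]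
  unfold rho X
  simp only [e2]
  rw [← Real.exp_sum, Complex.real_smul]
  push_cast
  rw [mul_assoc, mul_assoc, ← Complex.exp_add, ← Complex.exp_add]
  congr 2
  unfold bx
  simp only [Finset.sum_mul, ← Finset.sum_add_distrib, ← Finset.sum_neg_distrib]
  refine Finset.sum_congr rfl fun j _ => ?_
  ring

/-- the integral of `exp (-2 U x) h(x)` -/
theorem int_h {m : ℕ} {K δ : ℝ} (h0 : 0 < δ) (h1 : δ ≤ 1 / 16) (hK : 0 ≤ K) (h U w : Fin m → ℝ)
    {N : Set ℝ} (hN : MeasurableSet N) (hnz : ∀ t ∈ N, ∀ j, riemannZeta (pw δ (t + h j)) ≠ 0)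
    {f : (Fin m → ℝ) → ℝ} (hm : Measurable f) :
    ∫ x, Real.exp (-(2 * ∑ j, U j * x j)) * f x ∂(nu K δ h U w N) =
      K * Real.exp (2 * ∑ j, U j * w j) * ∫ t in N, f (X δ h w t) := by
  rw [int_nu h0 h1 hK h U w N (f := fun x => Real.exp (-(2 * ∑ j, U j * x j)) * f x) (by
    have h2 : Continuous (fun x : Fin m → ℝ => Real.exp (-(2 * ∑ j, U j * x j))) := by fun_prop
    exact (h2.measurable.mul hm).stronglyMeasurable), ← integral_const_mul]
  refine setIntegral_congr_fun hN fun t ht => ?_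
  have hz : ∀ j, 0 < mz δ (t + h j) := fun j => norm_pos_iff.2 (hnz t ht j)
  have e2 : ∀ j, mz δ (t + h j) ^ (2 * U j) = Real.exp (Real.log (mz δ (t + h j)) * (2 * U j)) :=
    fun j => Real.rpow_def_of_pos (hz j) _
  simp only [smul_eq_mul]
  unfold rho
  simp only [e2]
  rw [← Real.exp_sum, ← mul_assoc]
  congr 1
  rw [mul_assoc, ← Real.exp_add]
  congr 2
  unfold X
  simp only [Finset.mul_sum, ← Finset.sum_add_distrib, ← Finset.sum_neg_distrib]
  refine Finset.sum_congr rfl fun j _ => ?_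
  ring

theorem fin {m : ℕ} {d : ℝ → ℝ} {a : ℝ → Fin m → ℝ} {D K r T : ℝ} {U w : Fin m → ℝ} {n : ℕ} {N : Set ℝ}
    (h : Gd d a D n T N) (hr : 0 < r) (hT : 0 < T) (hU : ∀ j, |U j| ≤ n + 1)
    (hrV : aV (fun j => (U j : ℂ)) (fun j => (U j : ℂ)) (a T) = r)
    (hn : 1 / ((n : ℝ) + 1) < r) : IsFiniteMeasure (nu K (d T) (a T) U w N) := by
  have hc : IntegrableOn (fun t : ℝ => ∏ j, ZZ (riemannZeta (pw (d T) (t + a T j))) (U j : ℂ) 0) N volume := by
    by_contra hni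
    have h2 := h.est (fun j => (U j : ℂ)) (fun j => by
      rw [Complex.norm_real]
      exact hU j)
    rw [integral_undef hni, mul_zero, zero_sub, norm_neg, hrV, norm_mul, Complex.norm_real,
      Complex.norm_real, Real.norm_of_nonneg hT.le, Real.norm_of_nonneg hr.le] at h2
    nlinarith
  have hre : IntegrableOn (rho K (d T) (a T) U) N volume := by
    have h3 := hc.norm.const_mul K
    refine h3.congr ?_
    filter_upwards [ae_restrict_mem h.meas] with t ht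
    have hz : ∀ j, 0 < ‖riemannZeta (pw (d T) (t + a T j))‖ := fun j => norm_pos_iff.2 (h.nz t ht j)
    unfold rho
    rw [norm_prod]
    congr 1
    refine Finset.prod_congr rfl fun j _ => ?_
    unfold ZZ mz
    rw [zpow_zero, mul_one, Complex.norm_cpow_eq_rpow_re_of_pos (hz j)]
    congr 1
    simp
  have h4 : IsFiniteMeasure ((volume.restrict N).withDensity
      (fun t => ENNReal.ofReal (rho K (d T) (a T) U t))) :=
    isFiniteMeasure_withDensity_ofReal hre.2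
  unfold nu
  infer_instance

/-! ### sizes -/

theorem qf_abs {m : ℕ} {Q : Matrix (Fin m) (Fin m) ℝ} {L : ℝ} (hQ : ∀ j l, |Q j l| ≤ L) (U : Fin m → ℝ) :
    |qf Q U| ≤ (∑ j, |U j|) ^ 2 * L := by
  unfold qf
  calc |∑ j, ∑ l, U j * U l * Q j l|
      ≤ ∑ j, ∑ l, |U j| * |U l| * L := by
        refine (Finset.abs_sum_le_sum_abs _ _).trans (Finset.sum_le_sum fun j _ => ?_)
        refine (Finset.abs_sum_le_sum_abs _ _).trans (Finset.sum_le_sum fun l _ => ?_)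
        rw [abs_mul, abs_mul]
        exact mul_le_mul_of_nonneg_left (hQ j l) (by positivity)
    _ = (∑ j, |U j|) ^ 2 * L := by
        rw [sq, Finset.sum_mul_sum]
        simp only [Finset.sum_mul]

theorem det_abs {m : ℕ} {Q : Matrix (Fin m) (Fin m) ℝ} {L : ℝ} (hQ : ∀ j l, |Q j l| ≤ L) :
    |Q.det| ≤ (m.factorial : ℝ) * L ^ m := by
  have h := Matrix.det_le (A := Q) (abv := AbsoluteValue.abs) (x := L) hQ
  rw [Fintype.card_fin, nsmul_eq_mul] at h
  exact h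

theorem sq_bd {m : ℕ} {Q : Matrix (Fin m) (Fin m) ℝ} {δ : ℝ} (h0 : 0 < δ) (h1 : δ ≤ 1 / 16)
    (hQ : ∀ j l, |Q j l| ≤ Real.log (1 / δ)) (U : Fin m → ℝ) :
    Real.sqrt (Real.pi ^ m * Q.det) * Real.exp (qf Q U) ≤
      (1 + Real.pi ^ m * m.factorial) * δ ^ (-((m : ℝ) + (∑ j, |U j|) ^ 2)) := by
  have hL1 : 1 ≤ Real.log (1 / δ) := log_inv_ge h0 h1
  have hL2 : Real.log (1 / δ) ≤ 1 / δ := Real.log_le_self (by positivity)
  have hpi := Real.pi_pos
  have h2 : Real.sqrt (Real.pi ^ m * Q.det) ≤ (1 + Real.pi ^ m * m.factorial) * δ ^ (-(m : ℝ)) := by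
    have h3 : Real.pi ^ m * Q.det ≤ Real.pi ^ m * m.factorial * (1 / δ) ^ m := by
      calc Real.pi ^ m * Q.det ≤ Real.pi ^ m * ((m.factorial : ℝ) * Real.log (1 / δ) ^ m) :=
            mul_le_mul_of_nonneg_left ((le_abs_self _).trans (det_abs hQ)) (by positivity)
        _ ≤ Real.pi ^ m * ((m.factorial : ℝ) * (1 / δ) ^ m) := by gcongr
        _ = _ := by ring
    have h4 : (1 / δ) ^ m = δ ^ (-(m : ℝ)) := by
      rw [Real.rpow_neg h0.le, Real.rpow_natCast, one_div, inv_pow]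
    have h5 : 1 ≤ (1 / δ) ^ m := one_le_pow₀ (hL1.trans hL2)
    rw [← h4, Real.sqrt_le_left (by positivity)]
    refine h3.trans ?_
    have h6 : 0 ≤ Real.pi ^ m * m.factorial := by positivity
    have h7 : (0 : ℝ) ≤ (1 / δ) ^ m := by positivity
    nlinarith [mul_nonneg h6 h7, mul_nonneg h7 (sub_nonneg.2 h5), mul_nonneg (mul_nonneg h6 h7) (sub_nonneg.2 h5),
      mul_nonneg (mul_nonneg h6 h6) (mul_nonneg h7 h7), mul_nonneg h6 (mul_nonneg h7 h7)]
  have h3 : Real.exp (qf Q U) ≤ δ ^ (-((∑ j, |U j|) ^ 2)) := by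
    rw [Real.rpow_def_of_pos h0]
    apply Real.exp_le_exp.2
    have h4 := (le_abs_self _).trans (qf_abs hQ U)
    rw [one_div, Real.log_inv] at h4
    linarith
  calc Real.sqrt (Real.pi ^ m * Q.det) * Real.exp (qf Q U)
      ≤ ((1 + Real.pi ^ m * m.factorial) * δ ^ (-(m : ℝ))) * δ ^ (-((∑ j, |U j|) ^ 2)) :=
        mul_le_mul h2 h3 (Real.exp_pos _).le (by positivity)
    _ = (1 + Real.pi ^ m * m.factorial) * δ ^ (-((m : ℝ) + (∑ j, |U j|) ^ 2)) := by
        rw [mul_assoc, ← Real.rpow_add h0]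
        congr 2
        ring

theorem Ltop {d : ℝ → ℝ} (hd : Ad d) : Tendsto (fun T : ℝ => Real.log (1 / d T)) atTop atTop := by
  have h1 : Tendsto d atTop (𝓝[>] 0) := by
    rw [tendsto_nhdsWithin_iff]
    exact ⟨hd.t0, hd.pos⟩
  have h2 := Real.tendsto_log_nhdsGT_zero.comp h1
  have h3 := tendsto_neg_atBot_atTop.comp h2
  refine h3.congr fun T => ?_
  simp only [Function.comp_apply]
  rw [one_div, Real.log_inv]

theorem core (hB : S_BND) (hG : S_GVB) (g1 : S_JM) (g2 : S_LLTG) (g3 : S_POSV) (g4 : S_CONV) (g5 : S_LZB) :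
    S_JXL := by
  intro d hd m a ha U h hm hcont hb1 hb2
  obtain ⟨ha1, ε0, hε0, ha2⟩ := ha
  obtain ⟨C1, hC1⟩ := hb1
  obtain ⟨C2, hC2⟩ := hb2
  have hC1' : 0 ≤ C1 := (abs_nonneg _).trans (hC1 0)
  -- the bound of the exponents
  obtain ⟨A, hA0, hA⟩ : ∃ A : ℝ, 0 ≤ A ∧ ∀ j, |U j| ≤ A := by
    refine ⟨∑ j, |U j|, Finset.sum_nonneg fun j _ => abs_nonneg _, fun j => ?_⟩
    exact Finset.single_le_sum (f := fun j => |U j|) (fun j _ => abs_nonneg _) (Finset.mem_univ j)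
  -- the constant
  obtain ⟨c0, C0, hc0, hC0, hPh⟩ := g3 m A hA0
  set r : ℝ → ℝ := fun T => (aV (fun j => (U j : ℂ)) (fun j => (U j : ℂ)) (a T)).re with hr
  have hrc : ∀ T, c0 ≤ r T ∧ aV (fun j => (U j : ℂ)) (fun j => (U j : ℂ)) (a T) = (r T : ℝ) := by
    intro T
    obtain ⟨x, hx, hx2⟩ := (hPh (a T)).2 U hA
    rw [hr]
    simp only
    rw [hx2, Complex.ofReal_re]
    exact ⟨hx, rfl⟩
  have hr0 : ∀ T, 0 < r T := fun T => lt_of_lt_of_le hc0 (hrc T).1
  set D : ℝ := (m : ℝ) + (∑ j, |U j|) ^ 2 + 1 with hDd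
  have hD : 0 < D := by positivity
  obtain ⟨N, hN⟩ := exists_sets g1 hd ha1 hD
  have hsm : ∀ᶠ T : ℝ in atTop, 0 < d T ∧ d T ≤ 1 / 16 ∧ 1 ≤ T := by
    filter_upwards [hd.pos, hd.t0.eventually_le_const (show (0 : ℝ) < 1 / 16 by norm_num),
      eventually_ge_atTop 1] with T a b c
    exact ⟨a, b, c⟩
  set Q : ℝ → Matrix (Fin m) (Fin m) ℝ := fun T => QM (d T) (a T) with hQ
  set K : ℝ → ℝ := fun T => 1 / T * Real.exp (-(qf (Q T) U)) / r T with hK
  set w : ℝ → Fin m → ℝ := fun T => wv (Q T) U with hw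
  obtain ⟨CL, hCL, hlip⟩ := lip hB hG g3 U
  -- the local limit lemma
  have key := g2 m (fun T => nu (K T) (d T) (a T) U (w T) (N T)) Q (fun T => ε0 * Real.log (1 / d T))
    (fun T ξ => aV (bx U ξ) (bx U ξ) (a T) / r T) ?_ ?_ ?_ ?_ ?_ ?_ ?_
    (fun x => Real.exp (-(2 * ∑ j, U j * x j)) * h x) ?_ ?_ ?_
  rotate_left
  · obtain ⟨n, hn⟩ := exists_nat_gt (max A (1 / c0))
    filter_upwards [hN n, hsm] with T hT hT2
    refine fin hT (hr0 T) (by linarith [hT2.2.2]) (fun j => ?_) (hrc T).2 ?_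
    · have := hA j
      linarith [le_max_left A (1 / c0)]
    · have h2 : 1 / c0 < (n : ℝ) + 1 := by linarith [le_max_right A (1 / c0)]
      rw [div_lt_iff₀ hc0] at h2
      refine lt_of_lt_of_le ?_ (hrc T).1
      rw [div_lt_iff₀ (by positivity)]
      linarith
  · exact (Ltop hd).const_mul_atTop hε0
  · filter_upwards [hsm, ha2] with T hT hT2
    refine ⟨fun j l => QM_symm g5 hT.1 hT.2.1 (a T) j l, fun x => ?_⟩
    exact hT2 x
  · refine Eventually.of_forall fun T => ?_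
    have h1 : Continuous (fun ξ : Fin m → ℝ => ((bx U ξ, bx U ξ, a T) :
        (Fin m → ℂ) × (Fin m → ℂ) × (Fin m → ℝ))) := by
      unfold bx
      fun_prop
    exact ((g4 m).comp h1).div_const _
  · intro R hR
    obtain ⟨c3, C3, hc3, hC3, hPh3⟩ := g3 m (A + R / 2) (by positivity)
    refine ⟨C3 / c0, Eventually.of_forall fun T ξ hξ => ?_⟩
    rw [norm_div, Complex.norm_real, Real.norm_of_nonneg (hr0 T).le]
    exact div_le_div₀ hC3.le ((hPh3 (a T)).1 _ _ (bx_norm hA hξ) (bx_norm hA hξ)) hc0 (hrc T).1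
  · intro ε hε
    refine ⟨min (1 / 2) (ε * c0 / CL), lt_min (by norm_num) (by positivity),
      Eventually.of_forall fun T ξ hξ => ?_⟩
    have h1 := hlip (a T) (min (1 / 2) (ε * c0 / CL)) (lt_min (by norm_num) (by positivity))
      (min_le_left _ _) ξ hξ
    have hr' : ((r T : ℝ) : ℂ) ≠ 0 := by exact_mod_cast (hr0 T).ne'
    have e : aV (bx U ξ) (bx U ξ) (a T) / r T - 1 =
        (aV (bx U ξ) (bx U ξ) (a T) - aV (fun j => (U j : ℂ)) (fun j => (U j : ℂ)) (a T)) / r T := by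
      rw [(hrc T).2, sub_div, div_self hr']
    rw [e, norm_div, Complex.norm_real, Real.norm_of_nonneg (hr0 T).le, div_le_iff₀ (hr0 T)]
    refine h1.trans ?_
    calc CL * min (1 / 2) (ε * c0 / CL) ≤ CL * (ε * c0 / CL) :=
          mul_le_mul_of_nonneg_left (min_le_right _ _) hCL.le
      _ = ε * c0 := by field_simp
      _ ≤ ε * r T := mul_le_mul_of_nonneg_left (hrc T).1 hε.le
  · intro R ε hR hε
    obtain ⟨n, hn⟩ := exists_nat_gt (max (A + R / 2) (1 / (ε * c0)))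
    filter_upwards [hN n, hsm] with T hT hT2 ξ hξ
    obtain ⟨h0, h1, hT1⟩ := hT2
    have hT0 : 0 < T := by linarith
    have hK0 : 0 ≤ K T := by
      rw [hK]
      have := hr0 T
      simp only
      positivity
    rw [four h0 h1 hK0 (a T) U (w T) ξ hT.meas hT.nz]
    have h4 := hT.est (bx U ξ) (fun j => by
      have := bx_norm hA hξ j
      linarith [le_max_left (A + R / 2) (1 / (ε * c0))])
    have h5 : 1 / ((n : ℝ) + 1) ≤ ε * c0 := by
      have h6 := le_max_right (A + R / 2) (1 / (ε * c0))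
      have h7 : 1 / (ε * c0) < (n : ℝ) + 1 := by linarith
      rw [div_lt_iff₀ (by positivity)] at h7
      rw [div_le_iff₀ (by positivity)]
      linarith
    obtain ⟨J, hJd⟩ : ∃ J : ℂ, J = ∫ t in N T, ∏ j, ZZ (riemannZeta (pw (d T) (t + a T j))) (bx U ξ j) 0 :=
      ⟨_, rfl⟩
    rw [← hJd]
    rw [← hJd] at h4
    obtain ⟨α, ha⟩ : ∃ α : ℂ, α = aV (bx U ξ) (bx U ξ) (a T) := ⟨_, rfl⟩
    rw [← ha] at h4 ⊢
    obtain ⟨W, hW⟩ : ∃ W : ℂ, W = cexp (-(LM (bx U ξ) (bx U ξ) (a T) (d T))) * J := ⟨_, rfl⟩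
    rw [← hW] at h4
    obtain ⟨θ, hθ⟩ : ∃ θ : ℝ, θ = ∑ j, ξ j * w T j := ⟨_, rfl⟩
    have hLM : LM (bx U ξ) (bx U ξ) (a T) (d T) =
        ((qf (Q T) U - qf (Q T) ξ / 4 : ℝ) : ℂ) + ((θ : ℝ) : ℂ) * I := by
      rw [LM_eq g5 h0 h1, hθ]
      exact quad (Q T) (fun j l => QM_symm g5 h0 h1 (a T) j l) U ξ
    rw [← hθ]
    have hJW : J = cexp (((qf (Q T) U - qf (Q T) ξ / 4 : ℝ) : ℂ) + ((θ : ℝ) : ℂ) * I) * W := by
      rw [hW, hLM, ← mul_assoc, ← Complex.exp_add, add_neg_cancel, Complex.exp_zero, one_mul]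
    obtain ⟨ex, hex⟩ : ∃ ex : ℝ, ex = Real.exp (-(qf (Q T) ξ / 4)) := ⟨_, rfl⟩
    have hex0 : 0 < ex := by rw [hex]; exact Real.exp_pos _
    rw [← hex]
    have hr' : ((r T : ℝ) : ℂ) ≠ 0 := by exact_mod_cast (hr0 T).ne'
    have hT' : (T : ℂ) ≠ 0 := by exact_mod_cast hT0.ne'
    have hexp : cexp (-((qf (Q T) U : ℝ) : ℂ)) * cexp (-(((θ : ℝ) : ℂ) * I)) *
        cexp (((qf (Q T) U - qf (Q T) ξ / 4 : ℝ) : ℂ) + ((θ : ℝ) : ℂ) * I) = (ex : ℂ) := by
      rw [hex]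
      push_cast
      rw [← Complex.exp_add, ← Complex.exp_add]
      congr 1
      ring
    have hKe : ((K T : ℝ) : ℂ) = 1 / (T * r T) * cexp (-((qf (Q T) U : ℝ) : ℂ)) := by
      rw [hK]
      push_cast
      field_simp
    have e : ((K T : ℝ) : ℂ) * cexp (-(((θ : ℝ) : ℂ) * I)) * J - α / r T * (ex : ℂ) =
        (ex : ℂ) * ((W - T * α) / (T * r T)) := by
      rw [hJW, hKe]
      calc _ = (1 / (T * r T) : ℂ) * (cexp (-((qf (Q T) U : ℝ) : ℂ)) * cexp (-(((θ : ℝ) : ℂ) * I)) *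
            cexp (((qf (Q T) U - qf (Q T) ξ / 4 : ℝ) : ℂ) + ((θ : ℝ) : ℂ) * I)) * W -
            α / r T * (ex : ℂ) := by ring
        _ = _ := by
            rw [hexp]
            field_simp
    have e2 : ‖(T * r T : ℂ)‖ = T * r T := by
      rw [norm_mul, Complex.norm_real, Complex.norm_real,
        Real.norm_of_nonneg hT0.le, Real.norm_of_nonneg (hr0 T).le]
    rw [e, norm_mul, Complex.norm_real, Real.norm_of_nonneg hex0.le, mul_comm ε, norm_div, e2]
    refine mul_le_mul_of_nonneg_left ?_ hex0.le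
    rw [div_le_iff₀ (mul_pos hT0 (hr0 T))]
    refine h4.trans ?_
    calc 1 / ((n : ℝ) + 1) * T ≤ ε * c0 * T := mul_le_mul_of_nonneg_right h5 hT0.le
      _ ≤ ε * r T * T := by
          have := (hrc T).1
          gcongr
      _ = ε * (T * r T) := by ring
  · have h2 : Continuous (fun x : Fin m → ℝ => Real.exp (-(2 * ∑ j, U j * x j))) := by fun_prop
    exact h2.measurable.mul hm
  · obtain ⟨S, hS0, hS⟩ := hcont
    refine ⟨S, hS0, fun x hx => ?_⟩
    have h2 : Continuous (fun x : Fin m → ℝ => Real.exp (-(2 * ∑ j, U j * x j))) := by fun_prop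
    exact h2.continuousAt.mul (hS x hx)
  · refine ⟨C2, fun x => ?_⟩
    rw [abs_mul, Real.abs_exp, mul_assoc]
    calc Real.exp (-(2 * ∑ j, U j * x j)) * (|h x| * ∏ j, (1 + x j ^ 2)) ≤
          Real.exp (-(2 * ∑ j, U j * x j)) * (C2 * Real.exp (2 * ∑ j, U j * x j)) :=
          mul_le_mul_of_nonneg_left (hC2 x) (Real.exp_pos _).le
      _ = C2 * (Real.exp (-(2 * ∑ j, U j * x j)) * Real.exp (2 * ∑ j, U j * x j)) := by ring
      _ = C2 := by rw [← Real.exp_add, neg_add_cancel, Real.exp_zero, mul_one]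
  -- the rest
  set B : ℝ → ℝ := fun T => Real.sqrt (Real.pi ^ m * (Q T).det) * Real.exp (qf (Q T) U) / r T with hB
  set E : ℝ → ℝ := fun T => B T * ((1 / T) * ∫ t in Set.Icc 0 T \ N T, h (X (d T) (a T) (w T) t)) with hE
  have hE0 : Tendsto E atTop (𝓝 0) := by
    have hb : ∀ᶠ T : ℝ in atTop, ‖E T‖ ≤ (1 + Real.pi ^ m * m.factorial) / c0 * C1 * d T := by
      filter_upwards [hN 0, hsm] with T hT hT2
      obtain ⟨h0, h1, hT1⟩ := hT2
      have hT0 : 0 < T := by linarith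
      have h2 : ‖∫ t in Set.Icc 0 T \ N T, h (X (d T) (a T) (w T) t)‖ ≤ C1 * (d T ^ D * T) := by
        have hfin : volume (Set.Icc 0 T \ N T) < ⊤ := lt_of_le_of_lt hT.vol ENNReal.ofReal_lt_top
        refine (norm_setIntegral_le_of_norm_le_const (C := C1) hfin fun t _ => ?_).trans ?_
        · exact hC1 _
        · refine mul_le_mul_of_nonneg_left ?_ hC1'
          have h3 := ENNReal.toReal_mono ENNReal.ofReal_ne_top hT.vol
          rw [ENNReal.toReal_ofReal (by positivity)] at h3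
          exact h3
      have h3 := sq_bd h0 h1 (fun j l => QM_abs g5 h0 h1 (a T) j l) U
      have h4 : B T ≤ (1 + Real.pi ^ m * m.factorial) * d T ^ (-((m : ℝ) + (∑ j, |U j|) ^ 2)) / c0 :=
        div_le_div₀ (by positivity) h3 hc0 (hrc T).1
      have hB0 : 0 ≤ B T := by
        rw [hB]
        have := hr0 T
        simp only
        positivity
      have h5 : d T ^ (-((m : ℝ) + (∑ j, |U j|) ^ 2)) * d T ^ D = d T := by
        rw [← Real.rpow_add h0, hDd]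
        have : -((m : ℝ) + (∑ j, |U j|) ^ 2) + ((m : ℝ) + (∑ j, |U j|) ^ 2 + 1) = 1 := by ring
        rw [this, Real.rpow_one]
      rw [hE]
      simp only
      rw [norm_mul, norm_mul, Real.norm_of_nonneg hB0,
        Real.norm_of_nonneg (by positivity : (0 : ℝ) ≤ 1 / T)]
      calc B T * (1 / T * ‖∫ t in Set.Icc 0 T \ N T, h (X (d T) (a T) (w T) t)‖)
          ≤ ((1 + Real.pi ^ m * m.factorial) * d T ^ (-((m : ℝ) + (∑ j, |U j|) ^ 2)) / c0) *
            (1 / T * (C1 * (d T ^ D * T))) := by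
            have hpi := Real.pi_pos
            gcongr
        _ = (1 + Real.pi ^ m * m.factorial) / c0 * C1 *
            (d T ^ (-((m : ℝ) + (∑ j, |U j|) ^ 2)) * d T ^ D) := by
            field_simp
        _ = _ := by rw [h5]
    have h0 : Tendsto (fun T : ℝ => (1 + Real.pi ^ m * m.factorial) / c0 * C1 * d T) atTop (𝓝 0) := by
      have h1 := hd.t0.const_mul ((1 + Real.pi ^ m * m.factorial) / c0 * C1)
      rwa [mul_zero] at h1
    exact squeeze_zero_norm' hb h0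
  have hlim := key.add hE0
  rw [add_zero] at hlim
  refine hlim.congr' ?_
  filter_upwards [hN 0, hsm] with T hT hT2
  obtain ⟨h0, h1, hT1⟩ := hT2
  have hT0 : 0 < T := by linarith
  have hint : IntegrableOn (fun t => h (X (d T) (a T) (w T) t)) (Set.Icc 0 T) volume := by
    refine Measure.integrableOn_of_bounded (M := C1) ?_ ?_ ?_
    · rw [Real.volume_Icc]
      exact ENNReal.ofReal_ne_top
    · exact (hm.comp (X_meas h0 h1 (a T) (w T))).aestronglyMeasurable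
    · exact Eventually.of_forall fun t => hC1 _
  have hsplit : ∫ t in (0 : ℝ)..T, h (X (d T) (a T) (w T) t) =
      (∫ t in N T, h (X (d T) (a T) (w T) t)) + ∫ t in Set.Icc 0 T \ N T, h (X (d T) (a T) (w T) t) := by
    rw [intervalIntegral.integral_of_le hT0.le, ← integral_Icc_eq_integral_Ioc]
    have h2 := setIntegral_union (μ := volume) (f := fun t => h (X (d T) (a T) (w T) t))
      (Set.disjoint_sdiff_right (s := N T) (t := Set.Icc 0 T))
      (measurableSet_Icc.diff hT.meas) (hint.mono_set hT.sub) (hint.mono_set Set.sdiff_subset)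
    rw [Set.union_sdiff_cancel hT.sub] at h2
    exact h2
  have hX : (∫ t in (0 : ℝ)..T, h (fun j => Real.log (mz (d T) (t + a T j)) -
      ∑ l, QM (d T) (a T) j l * U l)) = ∫ t in (0 : ℝ)..T, h (X (d T) (a T) (w T) t) := rfl
  have hK0 : 0 ≤ K T := by
    rw [hK]
    have := hr0 T
    simp only
    positivity
  have h3 := int_h h0 h1 hK0 (a T) U (w T) hT.meas hT.nz hm
  have hKE : K T * Real.exp (2 * ∑ j, U j * w T j) = 1 / T * Real.exp (qf (Q T) U) / r T := by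
    have e1 : ∑ j, U j * w T j = qf (Q T) U := qf_self (Q T) U
    rw [e1, hK]
    simp only
    have e2 : Real.exp (qf (Q T) U) = Real.exp (-(qf (Q T) U)) * Real.exp (2 * qf (Q T) U) := by
      rw [← Real.exp_add]
      congr 1
      ring
    rw [e2]
    ring
  rw [hKE] at h3
  rw [hX, hsplit, h3, hE, hB]
  simp only
  ring

theorem main (g1 : S_JM) (g2 : S_LLTG) (g3 : S_POSV) (g4 : S_CONV) (g5 : S_LZB) : S_JXL :=
  core BND.main (GVB.main BND.main) g1 g2 g3 g4 g5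

end Pool.Agent.N748.JX.JXL
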