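import Pool.Agent.N748.JX.Stm
import Pool.Agent.N748.MG.TMC

set_option autoImplicit false

/-!
# Joint large values (helper933 for project JX of helper748)
-/

namespace Pool.Agent.N748.JX.JXT

open Finset Filter MeasureTheory Topology Complex
open Pool.Agent.N748.MG Pool.Agent.N748.MJ

/-- the orthant -/
def Bo (m : ℕ) : Set (Fin m → ℝ) := {x | ∀ j, 0 < x j}

theorem Bo_open (m : ℕ) : IsOpen (Bo m) := by
  have : Bo m = ⋂ j, {x : Fin m → ℝ | 0 < x j} := by
    ext x
    simp [Bo]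
  rw [this]
  exact isOpen_iInter_of_finite fun j => isOpen_lt continuous_const (continuous_apply j)

theorem Bo_lim (m : ℕ) (U : Fin m → ℝ) (hU : ∀ j, 0 < U j) :
    ∫ x : Fin m → ℝ, Real.exp (-(2 * ∑ j, U j * x j)) * (Bo m).indicator (fun _ => (1 : ℝ)) x =
      ∏ j, 1 / (2 * U j) := by
  have h1 : ∀ x : Fin m → ℝ, Real.exp (-(2 * ∑ j, U j * x j)) *
      (Bo m).indicator (fun _ => (1 : ℝ)) x =
      ∏ j, (Set.Ioi (0 : ℝ)).indicator (fun y => Real.exp (-(2 * U j) * y)) (x j) := by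
    intro x
    by_cases hx : x ∈ Bo m
    · rw [Set.indicator_of_mem hx, mul_one]
      have h2 : ∀ j, (Set.Ioi (0 : ℝ)).indicator (fun y => Real.exp (-(2 * U j) * y)) (x j) =
          Real.exp (-(2 * U j) * x j) := fun j => Set.indicator_of_mem (hx j) _
      simp only [h2]
      rw [← Real.exp_sum, Finset.mul_sum, ← Finset.sum_neg_distrib]
      congr 1
      exact Finset.sum_congr rfl fun j _ => by ring
    · rw [Set.indicator_of_notMem hx, mul_zero]
      have h2 : ∃ j, ¬ 0 < x j := by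
        by_contra hcon
        push Not at hcon
        exact hx hcon
      obtain ⟨j, hj⟩ := h2
      exact (Finset.prod_eq_zero (Finset.mem_univ j) (Set.indicator_of_notMem hj _)).symm
  simp_rw [h1]
  rw [integral_fintype_prod_volume_eq_prod
    (fun j y => (Set.Ioi (0 : ℝ)).indicator (fun y => Real.exp (-(2 * U j) * y)) y)]
  refine Finset.prod_congr rfl fun j _ => ?_
  rw [integral_indicator measurableSet_Ioi, integral_exp_mul_Ioi (by linarith [hU j])]
  have := (hU j).ne'
  simp only [mul_zero, Real.exp_zero]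
  field_simp

theorem Bo_cont (m : ℕ) (x : Fin m → ℝ) (hx : x ∉ {x : Fin m → ℝ | ∃ j, x j = 0}) :
    ContinuousAt ((Bo m).indicator (fun _ => (1 : ℝ))) x := by
  by_cases hB : x ∈ Bo m
  · have h1 : (Bo m).indicator (fun _ => (1 : ℝ)) =ᶠ[𝓝 x] fun _ => (1 : ℝ) := by
      filter_upwards [(Bo_open m).mem_nhds hB] with y hy
      exact Set.indicator_of_mem hy _
    exact continuousAt_const.congr h1.symm
  · have h2 : ∃ j, ¬ 0 < x j := by
      by_contra hcon
      push Not at hcon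
      exact hB hcon
    obtain ⟨j, hj⟩ := h2
    have h3 : x j < 0 := lt_of_le_of_ne (not_lt.1 hj) fun h => hx ⟨j, h⟩
    have h4 : ∀ᶠ y : Fin m → ℝ in 𝓝 x, y j < 0 :=
      (continuous_apply j).continuousAt.eventually_lt continuousAt_const h3
    have h1 : (Bo m).indicator (fun _ => (1 : ℝ)) =ᶠ[𝓝 x] fun _ => (0 : ℝ) := by
      filter_upwards [h4] with y hy
      exact Set.indicator_of_notMem (fun h : y ∈ Bo m => absurd (h j) (not_lt.2 hy.le)) _
    exact continuousAt_const.congr h1.symm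

theorem Bo_bd (m : ℕ) (U : Fin m → ℝ) (hU : ∀ j, 0 < U j) : ∃ C : ℝ, ∀ x : Fin m → ℝ,
    |(Bo m).indicator (fun _ => (1 : ℝ)) x| * ∏ j, (1 + x j ^ 2) ≤
      C * Real.exp (2 * ∑ j, U j * x j) := by
  have h1 : ∀ j, ∃ C : ℝ, 0 ≤ C ∧ ∀ x, 0 ≤ x → 1 + x ^ 2 ≤ C * Real.exp (2 * U j * x) := fun j =>
    TMC.exp_bd (a := 2 * U j) (by linarith [hU j])
  choose C hC0 hC using h1
  refine ⟨∏ j, C j, fun x => ?_⟩
  have hCp : 0 ≤ ∏ j, C j := Finset.prod_nonneg fun j _ => hC0 j
  by_cases hx : x ∈ Bo m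
  · rw [Set.indicator_of_mem hx, abs_one, one_mul, Finset.mul_sum, Real.exp_sum,
      ← Finset.prod_mul_distrib]
    refine Finset.prod_le_prod (fun j _ => by positivity) fun j _ => ?_
    rw [← mul_assoc]
    exact hC j (x j) (hx j).le
  · rw [Set.indicator_of_notMem hx, abs_zero, zero_mul]
    positivity

theorem ev {m : ℕ} {δ T : ℝ} (h1 : δ < 1 / 2) (hT : 0 ≤ T) (a q : Fin m → ℝ) :
    ∫ t in (0:ℝ)..T, (Bo m).indicator (fun _ => (1 : ℝ))
      (fun j => Real.log (mz δ (t + a j)) - q j) =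
    (volume {t : ℝ | 0 ≤ t ∧ t ≤ T ∧ ∀ j, Real.exp (q j) < mz δ (t + a j)}).toReal := by
  have hQ : MeasurableSet {t : ℝ | ∀ j, Real.exp (q j) < mz δ (t + a j)} := by
    have : {t : ℝ | ∀ j, Real.exp (q j) < mz δ (t + a j)} =
        ⋂ j, {t : ℝ | Real.exp (q j) < mz δ (t + a j)} := by
      ext t
      simp
    rw [this]
    exact MeasurableSet.iInter fun j => measurableSet_lt measurable_const
      ((TMC.mz_meas h1).comp (measurable_id.add_const (a j)))
  have e1 : {t : ℝ | 0 ≤ t ∧ t ≤ T ∧ ∀ j, Real.exp (q j) < mz δ (t + a j)} =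
      {t : ℝ | ∀ j, Real.exp (q j) < mz δ (t + a j)} ∩ Set.Icc 0 T := by
    ext t
    simp only [Set.mem_inter_iff, Set.mem_Icc]
    constructor
    · rintro ⟨a1, a2, a3⟩
      exact ⟨a3, a1, a2⟩
    · rintro ⟨a3, a1, a2⟩
      exact ⟨a1, a2, a3⟩
  have hne : ∀ᵐ t : ℝ, ∀ j, mz δ (t + a j) ≠ 0 := by
    rw [ae_all_iff]
    intro j
    exact (measurePreserving_add_right volume (a j)).quasiMeasurePreserving.ae (TMC.ae_ne h1)
  rw [intervalIntegral.integral_of_le hT, ← integral_Icc_eq_integral_Ioc]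
  have e2 : ∫ t in Set.Icc 0 T, (Bo m).indicator (fun _ => (1 : ℝ))
      (fun j => Real.log (mz δ (t + a j)) - q j) =
      ∫ t in Set.Icc 0 T, {t : ℝ | ∀ j, Real.exp (q j) < mz δ (t + a j)}.indicator
        (fun _ => (1 : ℝ)) t := by
    refine integral_congr_ae (ae_restrict_of_ae ?_)
    filter_upwards [hne] with t ht
    have h2 : ∀ j, (0 < Real.log (mz δ (t + a j)) - q j ↔ Real.exp (q j) < mz δ (t + a j)) := by
      intro j
      have h3 : 0 < mz δ (t + a j) := lt_of_le_of_ne (norm_nonneg _) (Ne.symm (ht j))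
      rw [sub_pos, Real.lt_log_iff_exp_lt h3]
    by_cases hx : ∀ j, Real.exp (q j) < mz δ (t + a j)
    · rw [Set.indicator_of_mem (show t ∈ {t : ℝ | ∀ j, Real.exp (q j) < mz δ (t + a j)} from hx),
        Set.indicator_of_mem (show (fun j => Real.log (mz δ (t + a j)) - q j) ∈ Bo m from
          fun j => (h2 j).2 (hx j))]
    · rw [Set.indicator_of_notMem
        (show t ∉ {t : ℝ | ∀ j, Real.exp (q j) < mz δ (t + a j)} from hx),
        Set.indicator_of_notMem (show (fun j => Real.log (mz δ (t + a j)) - q j) ∉ Bo m from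
          fun h => hx fun j => (h2 j).1 (h j))]
  rw [e2, integral_indicator hQ, Measure.restrict_restrict hQ, e1]
  simp [measureReal_def]

/-- joint large values -/
theorem main (g : S_JXL) : S_JXT := by
  intro d hd m a hSh U hU
  have key := g d hd m a hSh U ((Bo m).indicator fun _ => (1 : ℝ))
    (measurable_const.indicator (Bo_open m).measurableSet)
    ⟨{x : Fin m → ℝ | ∃ j, x j = 0}, ?_, fun x hx => Bo_cont m x hx⟩
    ⟨1, fun x => ?_⟩ (Bo_bd m U hU)
  · rw [Bo_lim m U hU] at key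
    refine key.congr' ?_
    have hlt : ∀ᶠ T in atTop, d T < 1 / 2 := hd.t0.eventually_lt_const (by norm_num)
    filter_upwards [hlt, eventually_ge_atTop 0] with T a1 a2
    rw [ev a1 a2 (a T) (fun j => ∑ l, QM (d T) (a T) j l * U l)]
  · have h1 : {x : Fin m → ℝ | ∃ j, x j = 0} = ⋃ j, {x : Fin m → ℝ | x j = 0} := by
      ext x
      simp
    rw [h1, measure_iUnion_null_iff]
    intro j
    rw [volume_pi]
    exact Measure.pi_hyperplane _ j 0
  · by_cases hx : x ∈ Bo m
    · rw [Set.indicator_of_mem hx, abs_one]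
    · rw [Set.indicator_of_notMem hx, abs_zero]
      exact zero_le_one

end Pool.Agent.N748.JX.JXT
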