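import Pool.Agent.N748.JX.Stm
import Pool.Agent.N748.MJ.LLT2

/-!
# Project JX, part LLTG (helper277): the local limit lemma in several dimensions
-/

set_option autoImplicit false

namespace Pool.Agent.N748.JX.LLTG

open Filter MeasureTheory Topology Complex
open Pool.Agent.N748.MG.LLT (k0 k0_cont k0_pos k0_ge k0_le k0_int)
open Pool.Agent.N748.MJ.LLT2 (fm_ae fm_tendstoE)

/-! ### one dimension -/

/-- the triangle -/
noncomputable def tri (s : ℝ) : ℝ := max 0 (2 - |s|)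

lemma tri_cont : Continuous tri := by
  unfold tri
  fun_prop

lemma tri_nonneg (s : ℝ) : 0 ≤ tri s := le_max_left _ _

lemma tri_le (s : ℝ) : tri s ≤ 2 := by
  unfold tri
  have := abs_nonneg s
  rw [max_le_iff]
  constructor <;> linarith

lemma tri_zero {s : ℝ} (h : 2 ≤ |s|) : tri s = 0 := by
  unfold tri
  rw [max_eq_left]
  linarith

lemma tri_int (y : ℝ) :
    ∫ s : ℝ, ((tri s : ℝ) : ℂ) * Complex.exp (s * y * I) = 4 * ((Real.sinc y ^ 2 : ℝ) : ℂ) := by
  have hc : Continuous fun s : ℝ => ((tri s : ℝ) : ℂ) * Complex.exp (s * y * I) := by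
    have := tri_cont
    fun_prop
  have h1 : ∫ s : ℝ, ((tri s : ℝ) : ℂ) * Complex.exp (s * y * I) =
      ∫ s in (-2:ℝ)..2, ((tri s : ℝ) : ℂ) * Complex.exp (s * y * I) := by
    rw [intervalIntegral.integral_of_le (by norm_num)]
    refine (setIntegral_eq_integral_of_forall_compl_eq_zero fun s hs => ?_).symm
    have : 2 ≤ |s| := by
      rw [Set.mem_Ioc, not_and_or, not_lt, not_le] at hs
      rcases hs with h | h
      · rw [le_abs]; right; linarith
      · rw [le_abs]; left; linarith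
    rw [tri_zero this]
    simp
  have h2 : (∫ s in (-2:ℝ)..0, ((tri s : ℝ) : ℂ) * Complex.exp (s * y * I)) =
      ∫ s in (-2:ℝ)..0, (2 + (s : ℂ)) * Complex.exp (s * y * I) := by
    refine intervalIntegral.integral_congr fun s hs => ?_
    rw [Set.uIcc_of_le (by norm_num)] at hs
    have : tri s = 2 + s := by
      unfold tri
      rw [abs_of_nonpos hs.2, max_eq_right] <;> linarith [hs.1]
    simp only [this]
    push_cast
    rfl
  have h3 : (∫ s in (0:ℝ)..2, ((tri s : ℝ) : ℂ) * Complex.exp (s * y * I)) =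
      ∫ s in (0:ℝ)..2, (2 - (s : ℂ)) * Complex.exp (s * y * I) := by
    refine intervalIntegral.integral_congr fun s hs => ?_
    rw [Set.uIcc_of_le (by norm_num)] at hs
    have : tri s = 2 - s := by
      unfold tri
      rw [abs_of_nonneg hs.1, max_eq_right]; linarith [hs.2]
    simp only [this]
    push_cast
    rfl
  rw [h1, ← intervalIntegral.integral_add_adjacent_intervals (hc.intervalIntegrable _ 0)
    (hc.intervalIntegrable 0 _), h2, h3]
  rcases eq_or_ne y 0 with rfl | hy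
  · simp only [Complex.ofReal_zero, mul_zero, zero_mul, Complex.exp_zero, mul_one, Real.sinc_zero]
    have e1 : ∫ s in (-2:ℝ)..0, (2 + (s : ℂ)) = 2 := by
      have := intervalIntegral.integral_ofReal (a := -2) (b := 0) (μ := volume) (f := fun s : ℝ => 2 + s)
      have h : ∫ s in (-2:ℝ)..0, (2 + s) = 2 := by
        rw [intervalIntegral.integral_add (by simp) (by simp)]
        simp
        norm_num
      rw [h] at this
      push_cast at this
      exact this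
    have e2 : ∫ s in (0:ℝ)..2, (2 - (s : ℂ)) = 2 := by
      have := intervalIntegral.integral_ofReal (a := 0) (b := 2) (μ := volume) (f := fun s : ℝ => 2 - s)
      have h : ∫ s in (0:ℝ)..2, (2 - s) = 2 := by
        rw [intervalIntegral.integral_sub (by simp) (by simp)]
        simp
        norm_num
      rw [h] at this
      push_cast at this
      exact this
    rw [e1, e2]
    norm_num
  · have hy' : (y : ℂ) * I ≠ 0 := mul_ne_zero (by exact_mod_cast hy) I_ne_zero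
    have hE : ∀ s : ℝ, HasDerivAt (fun s : ℝ => Complex.exp (s * y * I)) (Complex.exp (s * y * I) * (y * I)) s := by
      intro s
      have h5 : HasDerivAt (fun s : ℝ => (s : ℂ) * y * I) (y * I) s := by
        have := ((Complex.ofRealCLM.hasDerivAt (x := s)).mul_const (y : ℂ)).mul_const I
        simpa using this
      exact h5.cexp
    have hid : ∀ s : ℝ, HasDerivAt (fun s : ℝ => (s : ℂ)) 1 s := by
      intro s
      simpa using (hasDerivAt_id s).ofReal_comp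
    have e1 : ∫ s in (-2:ℝ)..0, (2 + (s : ℂ)) * Complex.exp (s * y * I) =
        ((2 + ((0:ℝ) : ℂ)) * Complex.exp (((0:ℝ):ℂ) * y * I) / (y * I) - Complex.exp (((0:ℝ):ℂ) * y * I) / (y * I) ^ 2) -
        ((2 + ((-2:ℝ) : ℂ)) * Complex.exp (((-2:ℝ):ℂ) * y * I) / (y * I) -
          Complex.exp (((-2:ℝ):ℂ) * y * I) / (y * I) ^ 2) := by
      refine intervalIntegral.integral_eq_sub_of_hasDerivAt
        (f := fun s : ℝ => (2 + (s : ℂ)) * Complex.exp (s * y * I) / (y * I) - Complex.exp (s * y * I) / (y * I) ^ 2)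
        (fun s _ => ?_) ?_
      · have h6 := ((((hid s).const_add 2).mul (hE s)).div_const (y * I)).sub ((hE s).div_const ((y * I) ^ 2))
        refine h6.congr_deriv ?_
        generalize Complex.exp (↑s * ↑y * I) = E
        generalize (y:ℂ) * I = w at hy' ⊢
        field_simp
        ring
      · apply Continuous.intervalIntegrable
        fun_prop
    have e2 : ∫ s in (0:ℝ)..2, (2 - (s : ℂ)) * Complex.exp (s * y * I) =
        ((2 - ((2:ℝ) : ℂ)) * Complex.exp (((2:ℝ):ℂ) * y * I) / (y * I) + Complex.exp (((2:ℝ):ℂ) * y * I) / (y * I) ^ 2) -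
        ((2 - ((0:ℝ) : ℂ)) * Complex.exp (((0:ℝ):ℂ) * y * I) / (y * I) +
          Complex.exp (((0:ℝ):ℂ) * y * I) / (y * I) ^ 2) := by
      refine intervalIntegral.integral_eq_sub_of_hasDerivAt
        (f := fun s : ℝ => (2 - (s : ℂ)) * Complex.exp (s * y * I) / (y * I) + Complex.exp (s * y * I) / (y * I) ^ 2)
        (fun s _ => ?_) ?_
      · have h6 := ((((hid s).const_sub 2).mul (hE s)).div_const (y * I)).add ((hE s).div_const ((y * I) ^ 2))
        refine h6.congr_deriv ?_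
        generalize Complex.exp (↑s * ↑y * I) = E
        generalize (y:ℂ) * I = w at hy' ⊢
        field_simp
        ring
      · apply Continuous.intervalIntegrable
        fun_prop
    rw [e1, e2]
    have h7 : Real.sinc y ^ 2 = (2 - 2 * Real.cos (2 * y)) / (4 * y ^ 2) := by
      rw [Real.sinc_of_ne_zero hy, Real.cos_two_mul, Real.cos_sq']
      field_simp
      ring
    have h8 : Complex.exp (((2:ℝ):ℂ) * y * I) + Complex.exp (((-2:ℝ):ℂ) * y * I) = 2 * ((Real.cos (2 * y) : ℝ) : ℂ) := by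
      have : ((Real.cos (2 * y) : ℝ) : ℂ) = Complex.cos (2 * y) := by push_cast; rfl
      rw [this, Complex.cos]
      have e1 : ((2:ℝ):ℂ) * y * I = 2 * y * I := by push_cast; ring
      have e2 : ((-2:ℝ):ℂ) * y * I = -(2 * y) * I := by push_cast; ring
      rw [e1, e2]
      ring
    rw [h7]
    have hyc : (y : ℂ) ≠ 0 := by exact_mod_cast hy
    have h9 : ((y : ℂ) * I) ^ 2 = -(y : ℂ) ^ 2 := by rw [mul_pow, I_sq]; ring
    have h10 : ((((2 - 2 * Real.cos (2 * y)) / (4 * y ^ 2) : ℝ)) : ℂ) = (2 - 2 * ((Real.cos (2 * y) : ℝ) : ℂ)) / (4 * (y : ℂ) ^ 2) := by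
      push_cast
      ring
    rw [h10, ← h8, h9]
    simp only [Complex.ofReal_zero, zero_mul, Complex.exp_zero]
    field_simp
    push_cast
    ring

/-- the Fourier transform of the kernel -/
noncomputable def kh (s : ℝ) : ℂ := (1 / 4) * (1 + Complex.exp (-(s * (Real.pi / 2 : ℝ) * I))) * (tri s : ℝ)

lemma kh_cont : Continuous kh := by
  unfold kh
  have := tri_cont
  fun_prop

lemma kh_le (s : ℝ) : ‖kh s‖ ≤ 1 := by
  unfold kh
  rw [norm_mul, norm_mul, Complex.norm_real, Real.norm_of_nonneg (tri_nonneg s)]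
  have h1 : ‖1 + Complex.exp (-(s * (Real.pi / 2 : ℝ) * I))‖ ≤ 2 := by
    refine (norm_add_le _ _).trans ?_
    have e : -((s : ℂ) * (Real.pi / 2 : ℝ) * I) = ((-(s * (Real.pi / 2)) : ℝ) : ℂ) * I := by push_cast; ring
    rw [e, Complex.norm_exp_ofReal_mul_I, norm_one]
    norm_num
  have h2 : ‖(1 / 4 : ℂ)‖ = 1 / 4 := by simp
  rw [h2]
  have h3 := tri_le s
  have h4 := tri_nonneg s
  have h5 := norm_nonneg (1 + Complex.exp (-(s * (Real.pi / 2 : ℝ) * I)))
  nlinarith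

lemma kh_zero {s : ℝ} (h : 2 ≤ |s|) : kh s = 0 := by
  unfold kh
  rw [tri_zero h]
  simp

lemma kh_supp : HasCompactSupport kh := by
  refine HasCompactSupport.intro (isCompact_Icc (a := (-2:ℝ)) (b := 2)) fun s hs => kh_zero ?_
  rw [Set.mem_Icc, not_and_or, not_le, not_le] at hs
  rcases hs with h | h
  · rw [le_abs]; right; linarith
  · rw [le_abs]; left; linarith

lemma kh_int : Integrable kh := kh_cont.integrable_of_hasCompactSupport kh_supp

lemma tri_integrable (y : ℝ) : Integrable fun s : ℝ => ((tri s : ℝ) : ℂ) * Complex.exp (s * y * I) := by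
  refine Continuous.integrable_of_hasCompactSupport ?_ ?_
  · have := tri_cont
    fun_prop
  · refine HasCompactSupport.intro (isCompact_Icc (a := (-2:ℝ)) (b := 2)) fun s hs => ?_
    rw [Set.mem_Icc, not_and_or, not_le, not_le] at hs
    rw [tri_zero]
    · simp
    · rcases hs with h | h
      · rw [le_abs]; right; linarith
      · rw [le_abs]; left; linarith

lemma k0_eq (x : ℝ) : ((k0 x : ℝ) : ℂ) = ∫ s : ℝ, kh s * Complex.exp (s * x * I) := by
  have h1 := tri_int x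
  have h2 := tri_int (x - Real.pi / 2)
  have h3 : ∀ s : ℝ, kh s * Complex.exp (s * x * I) =
      (1 / 4) * (((tri s : ℝ) : ℂ) * Complex.exp (s * x * I)) +
      (1 / 4) * (((tri s : ℝ) : ℂ) * Complex.exp (s * (x - Real.pi / 2 : ℝ) * I)) := by
    intro s
    have e : Complex.exp (s * (x - Real.pi / 2 : ℝ) * I) =
        Complex.exp (-(s * (Real.pi / 2 : ℝ) * I)) * Complex.exp (s * x * I) := by
      rw [← Complex.exp_add]
      congr 1
      push_cast
      ring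
    rw [e]
    unfold kh
    ring
  simp_rw [h3]
  rw [integral_add ((tri_integrable _).const_mul _) ((tri_integrable _).const_mul _),
    integral_const_mul, integral_const_mul, h1, h2, k0]
  push_cast
  ring

open FourierTransform in
lemma kh_inv (η : ℝ) : ∫ x : ℝ, ((k0 x : ℝ) : ℂ) * Complex.exp (η * x * I) = 2 * Real.pi * kh (-η) := by
  have h1 : ∀ w : ℝ, 𝓕 kh w = ((k0 (-(2 * Real.pi) * w) : ℝ) : ℂ) := by
    intro w
    rw [Real.fourier_eq', k0_eq]
    refine integral_congr_ae (Eventually.of_forall fun s => ?_)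
    simp only [smul_eq_mul]
    rw [mul_comm]
    congr 2
    have : inner ℝ s w = s * w := by simp [mul_comm]
    rw [this]
    push_cast
    ring
  have h2 : Integrable (𝓕 kh) := by
    have h3 : Integrable fun w : ℝ => ((k0 (-(2 * Real.pi) * w) : ℝ) : ℂ) := by
      refine Integrable.ofReal ?_
      exact k0_int.comp_mul_left' (by have := Real.pi_pos; simp)
    refine h3.congr (Eventually.of_forall fun w => ?_)
    exact (h1 w).symm
  have h4 := MeasureTheory.Integrable.fourierInv_fourier_eq kh_int h2 (v := -η) kh_cont.continuousAt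
  rw [Real.fourierInv_eq'] at h4
  have h5 : ∀ w : ℝ, Complex.exp ((2 * Real.pi * inner ℝ w (-η) : ℝ) * I) • 𝓕 kh w =
      (fun x : ℝ => ((k0 x : ℝ) : ℂ) * Complex.exp (η * x * I)) (-(2 * Real.pi) * w) := by
    intro w
    simp only [smul_eq_mul]
    rw [h1, mul_comm]
    congr 2
    have : inner ℝ w (-η) = -(w * η) := by simp [mul_comm]
    rw [this]
    push_cast
    ring
  have h7 := Measure.integral_comp_mul_left (fun x : ℝ => ((k0 x : ℝ) : ℂ) * Complex.exp (η * x * I))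
    (-(2 * Real.pi))
  have h8 : ∫ w : ℝ, Complex.exp ((2 * Real.pi * inner ℝ w (-η) : ℝ) * I) • 𝓕 kh w =
      ∫ w : ℝ, (fun x : ℝ => ((k0 x : ℝ) : ℂ) * Complex.exp (η * x * I)) (-(2 * Real.pi) * w) :=
    integral_congr_ae (Eventually.of_forall h5)
  rw [h8, h7] at h4
  rw [← h4]
  have : |(-(2 * Real.pi))⁻¹| = (2 * Real.pi)⁻¹ := by
    rw [abs_inv, abs_neg, abs_of_pos (by positivity)]
  rw [this, real_smul]
  have h6 : (Real.pi : ℂ) ≠ 0 := by exact_mod_cast Real.pi_ne_zero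
  generalize (∫ y : ℝ, ((k0 y : ℝ) : ℂ) * Complex.exp (η * y * I)) = J
  push_cast
  field_simp

/-! ### several dimensions -/

section multi

variable {m : ℕ}

/-- the kernel -/
noncomputable def KK (x : Fin m → ℝ) : ℝ := ∏ j, k0 (x j)

/-- its Fourier transform -/
noncomputable def KH (ξ : Fin m → ℝ) : ℂ := ∏ j, kh (ξ j)

/-- the character -/
noncomputable def ch (ξ x : Fin m → ℝ) : ℂ := Complex.exp (((∑ j, ξ j * x j : ℝ) : ℂ) * I)

lemma ch_norm (ξ x : Fin m → ℝ) : ‖ch ξ x‖ = 1 := Complex.norm_exp_ofReal_mul_I _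

lemma ch_prod (ξ x : Fin m → ℝ) : ch ξ x = ∏ j, Complex.exp (ξ j * x j * I) := by
  unfold ch
  rw [← Complex.exp_sum]
  congr 1
  push_cast
  rw [Finset.sum_mul]

lemma ch_add (ξ η x : Fin m → ℝ) : ch (ξ + η) x = ch ξ x * ch η x := by
  unfold ch
  rw [← Complex.exp_add, ← add_mul, ← Complex.ofReal_add, ← Finset.sum_add_distrib]
  congr 3
  refine Finset.sum_congr rfl fun j _ => ?_
  rw [Pi.add_apply]
  ring

lemma ch_cont : Continuous fun p : (Fin m → ℝ) × (Fin m → ℝ) => ch p.2 p.1 := by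
  unfold ch
  fun_prop

lemma ch_cont_x (ξ : Fin m → ℝ) : Continuous fun x => ch ξ x := by
  unfold ch
  fun_prop

lemma KK_pos (x : Fin m → ℝ) : 0 < KK x := Finset.prod_pos fun j _ => k0_pos _

lemma KK_cont : Continuous (KK (m := m)) := by
  have := k0_cont
  unfold KK
  fun_prop

lemma k0_le14 (x : ℝ) : k0 x ≤ 14 := by
  refine (k0_le x).trans ?_
  have h1 : (1 + x ^ 2)⁻¹ ≤ 1 := inv_le_one_of_one_le₀ (by nlinarith [sq_nonneg x])
  linarith

lemma KK_le (x : Fin m → ℝ) : KK x ≤ 14 ^ m := by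
  unfold KK
  calc ∏ j, k0 (x j) ≤ ∏ _j : Fin m, (14:ℝ) :=
        Finset.prod_le_prod (fun _ _ => (k0_pos _).le) fun _ _ => k0_le14 _
    _ = 14 ^ m := by simp

lemma KK_ge (x : Fin m → ℝ) : 1 ≤ 6 ^ m * (KK x * ∏ j, (1 + x j ^ 2)) := by
  have h1 : (6:ℝ) ^ m * (KK x * ∏ j, (1 + x j ^ 2)) = ∏ j, (6 * (k0 (x j) * (1 + x j ^ 2))) := by
    rw [Finset.prod_mul_distrib, Finset.prod_mul_distrib]
    simp [KK]
  rw [h1]
  calc (1:ℝ) = ∏ _j : Fin m, (1:ℝ) := by simp
    _ ≤ _ := Finset.prod_le_prod (fun _ _ => zero_le_one) fun j _ => by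
        have := k0_ge (x j)
        linarith

lemma KK_int : Integrable (KK (m := m)) := by
  have := MeasureTheory.Integrable.fintype_prod (ι := Fin m) (f := fun _ : Fin m => k0) (μ := fun _ => (volume : Measure ℝ))
    (fun _ => k0_int)
  exact this

lemma KH_cont : Continuous (KH (m := m)) := by
  have := kh_cont
  unfold KH
  fun_prop

lemma KH_norm (ξ : Fin m → ℝ) : ‖KH ξ‖ ≤ 1 := by
  unfold KH
  rw [norm_prod]
  exact Finset.prod_le_one (fun j _ => norm_nonneg _) fun j _ => kh_le _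

lemma KH_zero {ξ : Fin m → ℝ} (h : ∃ j, 2 ≤ |ξ j|) : KH ξ = 0 := by
  obtain ⟨j, hj⟩ := h
  exact Finset.prod_eq_zero (Finset.mem_univ j) (kh_zero hj)

lemma KH_int : Integrable (KH (m := m)) := by
  have := MeasureTheory.Integrable.fintype_prod (ι := Fin m) (f := fun _ : Fin m => kh) (μ := fun _ => (volume : Measure ℝ))
    (fun _ => kh_int)
  exact this

lemma KK_eq (x : Fin m → ℝ) : ((KK x : ℝ) : ℂ) = ∫ ξ : Fin m → ℝ, KH ξ * ch ξ x := by
  have h1 : ∀ ξ : Fin m → ℝ, KH ξ * ch ξ x = ∏ j, (kh (ξ j) * Complex.exp (ξ j * x j * I)) := by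
    intro ξ
    rw [ch_prod, Finset.prod_mul_distrib, KH]
  simp_rw [h1]
  rw [integral_fintype_prod_volume_eq_prod (fun (j : Fin m) (s : ℝ) => kh s * Complex.exp (s * x j * I))]
  unfold KK
  rw [Complex.ofReal_prod]
  exact Finset.prod_congr rfl fun j _ => k0_eq _

lemma KK_ch (η : Fin m → ℝ) : ∫ x : Fin m → ℝ, ((KK x : ℝ) : ℂ) * ch η x = (2 * Real.pi) ^ m * KH (-η) := by
  have h1 : ∀ x : Fin m → ℝ, ((KK x : ℝ) : ℂ) * ch η x = ∏ j, (((k0 (x j) : ℝ) : ℂ) * Complex.exp (η j * x j * I)) := by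
    intro ξ
    rw [ch_prod, Finset.prod_mul_distrib, KK, Complex.ofReal_prod]
  simp_rw [h1]
  rw [integral_fintype_prod_volume_eq_prod (fun (j : Fin m) (s : ℝ) => ((k0 s : ℝ) : ℂ) * Complex.exp (η j * s * I))]
  simp_rw [kh_inv]
  rw [Finset.prod_mul_distrib]
  simp [KH]

/-- the Fubini identity -/
lemma fub (ν : Measure (Fin m → ℝ)) [IsFiniteMeasure ν] (η : Fin m → ℝ) :
    ∫ x, ((KK x : ℝ) : ℂ) * ch η x ∂ν = ∫ ξ, KH (ξ - η) * (∫ x, ch ξ x ∂ν) := by
  have h1 : ∀ x, ((KK x : ℝ) : ℂ) * ch η x = ∫ ξ, KH ξ * ch (ξ + η) x := by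
    intro x
    rw [KK_eq, ← integral_mul_const]
    refine integral_congr_ae (Eventually.of_forall fun ξ => ?_)
    simp only
    rw [ch_add]
    ring
  simp_rw [h1]
  rw [integral_integral_swap]
  · have h2 := integral_sub_right_eq_self (μ := (volume : Measure (Fin m → ℝ)))
      (fun ξ : Fin m → ℝ => KH ξ * (∫ x, ch (ξ + η) x ∂ν)) η
    simp only [sub_add_cancel] at h2
    rw [h2]
    refine integral_congr_ae (Eventually.of_forall fun ξ => ?_)
    simp only
    rw [integral_const_mul]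
  · have h3 : Integrable (fun p : (Fin m → ℝ) × (Fin m → ℝ) => (1:ℂ) * KH p.2) (ν.prod volume) :=
      Integrable.mul_prod (integrable_const (1:ℂ)) KH_int
    refine h3.mono ?_ (Eventually.of_forall fun p => ?_)
    · apply Continuous.aestronglyMeasurable
      have e1 := KH_cont (m := m)
      have e2 := ch_cont (m := m)
      simp only [Function.uncurry_def]
      refine (e1.comp continuous_snd).mul ?_
      exact e2.comp (by fun_prop : Continuous fun p : (Fin m → ℝ) × (Fin m → ℝ) => (p.1, p.2 + η))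
    · simp only [Function.uncurry_def]
      rw [norm_mul, ch_norm, mul_one, one_mul]

lemma phi_cont (ν : Measure (Fin m → ℝ)) [IsFiniteMeasure ν] : Continuous fun ξ => ∫ x, ch ξ x ∂ν := by
  refine continuous_of_dominated (bound := fun _ => (1:ℝ)) ?_ ?_ (integrable_const _) ?_
  · intro ξ
    exact (ch_cont_x ξ).aestronglyMeasurable
  · intro ξ
    exact Eventually.of_forall fun x => (ch_norm ξ x).le
  · refine Eventually.of_forall fun x => ?_
    have := ch_cont (m := m)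
    exact this.comp (by fun_prop : Continuous fun ξ : Fin m → ℝ => (x, ξ))

/-! ### the Gaussian weights -/

lemma qf_smul (s : ℝ) (Q : Matrix (Fin m) (Fin m) ℝ) (x : Fin m → ℝ) : qf (s • Q) x = s * qf Q x := by
  unfold qf
  rw [Finset.mul_sum]
  refine Finset.sum_congr rfl fun j _ => ?_
  rw [Finset.mul_sum]
  refine Finset.sum_congr rfl fun l _ => ?_
  rw [Matrix.smul_apply, smul_eq_mul]
  ring

lemma gint (hG : S_GDET) (Q : Matrix (Fin m) (Fin m) ℝ) (hs : ∀ j l, Q j l = Q l j) (c : ℝ) (hc : 0 < c)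
    (hq : ∀ x : Fin m → ℝ, c * ∑ j, x j ^ 2 ≤ qf Q x) (s : ℝ) (h0 : 0 < s) :
    Integrable (fun ξ : Fin m → ℝ => Real.exp (-(s * qf Q ξ / 4))) ∧
      Real.sqrt (Real.pi ^ m * Q.det) * ∫ ξ : Fin m → ℝ, Real.exp (-(s * qf Q ξ / 4)) =
        Real.sqrt ((4 * Real.pi ^ 2 / s) ^ m) := by
  obtain ⟨hd, -, -⟩ := hG m Q hs ⟨c, hc, hq⟩
  obtain ⟨-, h1, h2⟩ := hG m (s • Q) (fun j l => by rw [Matrix.smul_apply, Matrix.smul_apply, hs])
    ⟨s * c, mul_pos h0 hc, fun x => by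
      rw [qf_smul, mul_assoc]
      exact mul_le_mul_of_nonneg_left (hq x) h0.le⟩
  simp_rw [qf_smul] at h1 h2
  refine ⟨h1, ?_⟩
  rw [h2, Matrix.det_smul, Fintype.card_fin, ← Real.sqrt_mul (by positivity)]
  congr 1
  have h3 : 0 < s ^ m := pow_pos h0 m
  rw [div_pow, mul_pow, mul_pow, ← pow_mul]
  field_simp
  rw [← pow_mul, mul_comm 2 m, pow_mul]

/-- concentration at zero -/
lemma conc (hG : S_GDET) (Q : ℝ → Matrix (Fin m) (Fin m) ℝ) (c : ℝ → ℝ) (hc : Tendsto c atTop atTop)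
    (hQ : ∀ᶠ T : ℝ in atTop, (∀ j l, Q T j l = Q T l j) ∧ ∀ x : Fin m → ℝ, c T * ∑ j, x j ^ 2 ≤ qf (Q T) x)
    (F : ℝ → (Fin m → ℝ) → ℂ) (L : ℂ) (C : ℝ)
    (hFm : ∀ᶠ T : ℝ in atTop, AEStronglyMeasurable (F T) volume)
    (hFb : ∀ᶠ T : ℝ in atTop, ∀ ξ, ‖F T ξ‖ ≤ C)
    (hF0 : ∀ ε : ℝ, 0 < ε → ∃ ρ : ℝ, 0 < ρ ∧ ∀ᶠ T : ℝ in atTop, ∀ ξ : Fin m → ℝ, (∀ j, |ξ j| ≤ ρ) → ‖F T ξ - L‖ ≤ ε) :
    Tendsto (fun T => (Real.sqrt (Real.pi ^ m * (Q T).det) : ℂ) *
      ∫ ξ : Fin m → ℝ, F T ξ * ((Real.exp (-(qf (Q T) ξ / 4)) : ℝ) : ℂ)) atTop (𝓝 ((2 * Real.pi) ^ m * L)) := by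
  rw [Metric.tendsto_nhds]
  intro ε hε
  have hπ := Real.pi_pos
  set M : ℝ := (2 * Real.pi) ^ m with hM
  have hMpos : 0 < M := by positivity
  set B : ℝ := Real.sqrt ((4 * Real.pi ^ 2 / (1 / 2)) ^ m) with hB
  have hBpos : 0 < B := by positivity
  set e : ℝ := ε / (2 * M) with he
  have hepos : 0 < e := by positivity
  obtain ⟨ρ, hρ, hF1⟩ := hF0 e hepos
  have hC : 0 ≤ max C 0 := le_max_right _ _
  have hlim : Tendsto (fun T => (max C 0 + ‖L‖) * Real.exp (-(c T * ρ ^ 2 / 8)) * B) atTop (𝓝 0) := by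
    have h1 : Tendsto (fun T => -(c T * ρ ^ 2 / 8)) atTop atBot := by
      rw [tendsto_neg_atBot_iff]
      have : Tendsto (fun T => c T * (ρ ^ 2 / 8)) atTop atTop := hc.atTop_mul_const (by positivity)
      refine this.congr fun T => ?_
      ring
    have h2 := (Real.tendsto_exp_atBot.comp h1).const_mul (max C 0 + ‖L‖)
    have h3 := h2.mul_const B
    rw [mul_zero, zero_mul] at h3
    exact h3
  filter_upwards [hQ, hFm, hFb, hF1, hc.eventually_gt_atTop 0,
    hlim.eventually_lt_const (u := ε / 2) (by positivity)] with T hQT hm hb h1 hcT hsmall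
  obtain ⟨hs, hq⟩ := hQT
  obtain ⟨i1, g1⟩ := gint hG (Q T) hs (c T) hcT hq 1 one_pos
  obtain ⟨i2, g2⟩ := gint hG (Q T) hs (c T) hcT hq (1 / 2) (by norm_num)
  rw [← hB] at g2
  simp only [one_mul, div_one] at i1 g1
  have hM2 : Real.sqrt ((4 * Real.pi ^ 2) ^ m) = M := by
    have : (4 * Real.pi ^ 2) ^ m = M ^ 2 := by
      rw [hM, ← pow_mul, mul_comm m 2, pow_mul]
      congr 1
      ring
    rw [this, Real.sqrt_sq hMpos.le]
  rw [hM2] at g1
  set A : ℝ := Real.sqrt (Real.pi ^ m * (Q T).det) with hA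
  have hA0 : 0 ≤ A := Real.sqrt_nonneg _
  have hFi : Integrable (fun ξ : Fin m → ℝ => F T ξ * ((Real.exp (-(qf (Q T) ξ / 4)) : ℝ) : ℂ)) := by
    refine Integrable.mono (i1.const_mul C) (hm.mul (i1.ofReal (𝕜 := ℂ)).aestronglyMeasurable)
      (Eventually.of_forall fun ξ => ?_)
    have hC1 : 0 ≤ C := (norm_nonneg _).trans (hb ξ)
    rw [norm_mul, Complex.norm_real, norm_mul, Real.norm_of_nonneg hC1]
    exact mul_le_mul_of_nonneg_right (hb ξ) (norm_nonneg _)
  have hLi : Integrable (fun ξ : Fin m → ℝ => L * ((Real.exp (-(qf (Q T) ξ / 4)) : ℝ) : ℂ)) :=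
    (i1.ofReal (𝕜 := ℂ)).const_mul L
  have hML : (M : ℂ) * L = (A : ℂ) * ∫ ξ : Fin m → ℝ, L * ((Real.exp (-(qf (Q T) ξ / 4)) : ℝ) : ℂ) := by
    rw [integral_const_mul, integral_complex_ofReal, ← g1]
    push_cast
    ring
  have hM3 : ((2 * Real.pi : ℂ)) ^ m = (M : ℂ) := by
    rw [hM]
    push_cast
    rfl
  rw [dist_eq_norm, hM3, hML, ← mul_sub, ← integral_sub hFi hLi, norm_mul, Complex.norm_real,
    Real.norm_of_nonneg hA0]
  have hpt : ∀ ξ : Fin m → ℝ, ‖F T ξ * ((Real.exp (-(qf (Q T) ξ / 4)) : ℝ) : ℂ) -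
      L * ((Real.exp (-(qf (Q T) ξ / 4)) : ℝ) : ℂ)‖ ≤
      e * Real.exp (-(qf (Q T) ξ / 4)) +
        (max C 0 + ‖L‖) * Real.exp (-(c T * ρ ^ 2 / 8)) * Real.exp (-(1 / 2 * qf (Q T) ξ / 4)) := by
    intro ξ
    rw [← sub_mul, norm_mul, Complex.norm_real, Real.norm_of_nonneg (Real.exp_pos _).le]
    by_cases hξ : ∀ j, |ξ j| ≤ ρ
    · have h2 := mul_le_mul_of_nonneg_right (h1 ξ hξ) (Real.exp_pos (-(qf (Q T) ξ / 4))).le
      have h3 : 0 ≤ (max C 0 + ‖L‖) * Real.exp (-(c T * ρ ^ 2 / 8)) * Real.exp (-(1 / 2 * qf (Q T) ξ / 4)) := by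
        positivity
      linarith
    · push Not at hξ
      obtain ⟨j, hj⟩ := hξ
      have h2 : ρ ^ 2 ≤ ∑ j, ξ j ^ 2 := by
        have h3 : ξ j ^ 2 ≤ ∑ j, ξ j ^ 2 :=
          Finset.single_le_sum (f := fun j => ξ j ^ 2) (fun i _ => sq_nonneg _) (Finset.mem_univ j)
        have h4 : ρ ^ 2 ≤ ξ j ^ 2 := by
          rw [← sq_abs (ξ j)]
          exact pow_le_pow_left₀ hρ.le hj.le 2
        exact h4.trans h3
      have h3 : c T * ρ ^ 2 ≤ qf (Q T) ξ := (mul_le_mul_of_nonneg_left h2 hcT.le).trans (hq ξ)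
      have h4 : ‖F T ξ - L‖ ≤ max C 0 + ‖L‖ :=
        (norm_sub_le _ _).trans (add_le_add ((hb ξ).trans (le_max_left _ _)) le_rfl)
      have h5 : Real.exp (-(qf (Q T) ξ / 4)) ≤
          Real.exp (-(c T * ρ ^ 2 / 8)) * Real.exp (-(1 / 2 * qf (Q T) ξ / 4)) := by
        rw [← Real.exp_add]
        apply Real.exp_le_exp.mpr
        linarith
      have h6 := mul_le_mul h4 h5 (Real.exp_pos _).le (by positivity)
      have h7 : 0 ≤ e * Real.exp (-(qf (Q T) ξ / 4)) := by positivity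
      rw [← mul_assoc] at h6
      linarith
  have h8 : ‖∫ ξ : Fin m → ℝ, (F T ξ * ((Real.exp (-(qf (Q T) ξ / 4)) : ℝ) : ℂ) -
      L * ((Real.exp (-(qf (Q T) ξ / 4)) : ℝ) : ℂ))‖ ≤
      e * (∫ ξ : Fin m → ℝ, Real.exp (-(qf (Q T) ξ / 4))) +
        (max C 0 + ‖L‖) * Real.exp (-(c T * ρ ^ 2 / 8)) *
          ∫ ξ : Fin m → ℝ, Real.exp (-(1 / 2 * qf (Q T) ξ / 4)) := by
    rw [← integral_const_mul, ← integral_const_mul, ← integral_add (i1.const_mul _) (i2.const_mul _)]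
    refine norm_integral_le_of_norm_le ((i1.const_mul _).add (i2.const_mul _)) (Eventually.of_forall hpt)
  have h9 := mul_le_mul_of_nonneg_left h8 hA0
  have h10 : A * (e * (∫ ξ : Fin m → ℝ, Real.exp (-(qf (Q T) ξ / 4))) +
        (max C 0 + ‖L‖) * Real.exp (-(c T * ρ ^ 2 / 8)) *
          ∫ ξ : Fin m → ℝ, Real.exp (-(1 / 2 * qf (Q T) ξ / 4))) =
      e * (A * ∫ ξ : Fin m → ℝ, Real.exp (-(qf (Q T) ξ / 4))) +
        (max C 0 + ‖L‖) * Real.exp (-(c T * ρ ^ 2 / 8)) *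
          (A * ∫ ξ : Fin m → ℝ, Real.exp (-(1 / 2 * qf (Q T) ξ / 4))) := by ring
  rw [h10, g1, g2] at h9
  have h11 : e * M = ε / 2 := by
    rw [he]
    field_simp
  linarith

/-- the convergence of the transforms -/
lemma key (hG : S_GDET) (ν : ℝ → Measure (Fin m → ℝ)) (Q : ℝ → Matrix (Fin m) (Fin m) ℝ) (c : ℝ → ℝ)
    (g : ℝ → (Fin m → ℝ) → ℂ) (hν : ∀ᶠ T : ℝ in atTop, IsFiniteMeasure (ν T)) (hc : Tendsto c atTop atTop)
    (hQ : ∀ᶠ T : ℝ in atTop, (∀ j l, Q T j l = Q T l j) ∧ ∀ x : Fin m → ℝ, c T * ∑ j, x j ^ 2 ≤ qf (Q T) x)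
    (hgb : ∀ R : ℝ, 0 < R → ∃ C : ℝ, ∀ᶠ T : ℝ in atTop, ∀ ξ : Fin m → ℝ, (∀ j, |ξ j| ≤ R) → ‖g T ξ‖ ≤ C)
    (hg1 : ∀ ε : ℝ, 0 < ε → ∃ ρ : ℝ, 0 < ρ ∧ ∀ᶠ T : ℝ in atTop, ∀ ξ : Fin m → ℝ, (∀ j, |ξ j| ≤ ρ) → ‖g T ξ - 1‖ ≤ ε)
    (H : ∀ R ε : ℝ, 0 < R → 0 < ε → ∀ᶠ T : ℝ in atTop, ∀ ξ : Fin m → ℝ, (∀ j, |ξ j| ≤ R) →
      ‖(∫ x, ch ξ x ∂(ν T)) - g T ξ * ((Real.exp (-(qf (Q T) ξ / 4)) : ℝ) : ℂ)‖ ≤
        ε * Real.exp (-(qf (Q T) ξ / 4))) (η : Fin m → ℝ) :
    Tendsto (fun T => (Real.sqrt (Real.pi ^ m * (Q T).det) : ℂ) * ∫ x, ((KK x : ℝ) : ℂ) * ch η x ∂(ν T)) atTop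
      (𝓝 (∫ x : Fin m → ℝ, ((KK x : ℝ) : ℂ) * ch η x)) := by
  rw [KK_ch]
  -- the quotient
  have hdiv : ∀ (T : ℝ) (ξ : Fin m → ℝ) (ε : ℝ),
      ‖(∫ x, ch ξ x ∂(ν T)) - g T ξ * ((Real.exp (-(qf (Q T) ξ / 4)) : ℝ) : ℂ)‖ ≤
        ε * Real.exp (-(qf (Q T) ξ / 4)) →
      ‖(∫ x, ch ξ x ∂(ν T)) * ((Real.exp (qf (Q T) ξ / 4) : ℝ) : ℂ) - g T ξ‖ ≤ ε := by
    intro T ξ ε h1
    have e1 : ((Real.exp (-(qf (Q T) ξ / 4)) : ℝ) : ℂ) * ((Real.exp (qf (Q T) ξ / 4) : ℝ) : ℂ) = 1 := by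
      rw [← Complex.ofReal_mul, ← Real.exp_add]
      simp
    have e2 : (∫ x, ch ξ x ∂(ν T)) * ((Real.exp (qf (Q T) ξ / 4) : ℝ) : ℂ) - g T ξ =
        ((∫ x, ch ξ x ∂(ν T)) - g T ξ * ((Real.exp (-(qf (Q T) ξ / 4)) : ℝ) : ℂ)) *
          ((Real.exp (qf (Q T) ξ / 4) : ℝ) : ℂ) := by
      linear_combination (g T ξ) * e1
    rw [e2, norm_mul, Complex.norm_real, Real.norm_of_nonneg (Real.exp_pos _).le]
    calc _ ≤ ε * Real.exp (-(qf (Q T) ξ / 4)) * Real.exp (qf (Q T) ξ / 4) :=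
          mul_le_mul_of_nonneg_right h1 (Real.exp_pos _).le
      _ = ε := by
          rw [mul_assoc, ← Real.exp_add]
          simp
  set R : ℝ := 2 + ∑ j, |η j| with hR
  have hsum : ∀ j, |η j| ≤ ∑ j, |η j| := fun j =>
    Finset.single_le_sum (f := fun j => |η j|) (fun i _ => abs_nonneg _) (Finset.mem_univ j)
  have hRpos : 0 < R := by
    have : 0 ≤ ∑ j, |η j| := Finset.sum_nonneg fun j _ => abs_nonneg _
    linarith
  obtain ⟨C, hC⟩ := hgb R hRpos
  have hF := conc hG Q c hc hQ (fun T ξ => KH (ξ - η) * ((∫ x, ch ξ x ∂(ν T)) * ((Real.exp (qf (Q T) ξ / 4) : ℝ) : ℂ)))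
    (KH (-η)) (max C 0 + 1) ?_ ?_ ?_
  · refine hF.congr' ?_
    filter_upwards [hν] with T hT
    rw [fub]
    congr 1
    refine integral_congr_ae (Eventually.of_forall fun ξ => ?_)
    simp only
    have e1 : ((Real.exp (qf (Q T) ξ / 4) : ℝ) : ℂ) * ((Real.exp (-(qf (Q T) ξ / 4)) : ℝ) : ℂ) = 1 := by
      rw [← Complex.ofReal_mul, ← Real.exp_add]
      simp
    linear_combination (KH (ξ - η) * (∫ x, ch ξ x ∂(ν T))) * e1
  · filter_upwards [hν] with T hT
    apply Continuous.aestronglyMeasurable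
    have e1 := phi_cont (ν T)
    have e2 := (KH_cont (m := m)).comp (by fun_prop : Continuous fun ξ : Fin m → ℝ => ξ - η)
    refine e2.mul (e1.mul ?_)
    unfold qf
    fun_prop
  · filter_upwards [hC, H R 1 hRpos one_pos] with T h1 h2 ξ
    by_cases hξ : ∀ j, |ξ j| ≤ R
    · have h3 := hdiv T ξ 1 (h2 ξ hξ)
      have h4 := h1 ξ hξ
      have h5 : ‖(∫ x, ch ξ x ∂(ν T)) * ((Real.exp (qf (Q T) ξ / 4) : ℝ) : ℂ)‖ ≤ max C 0 + 1 := by
        have h6 := norm_add_le ((∫ x, ch ξ x ∂(ν T)) * ((Real.exp (qf (Q T) ξ / 4) : ℝ) : ℂ) - g T ξ) (g T ξ)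
        rw [sub_add_cancel] at h6
        have := le_max_left C 0
        linarith
      rw [norm_mul]
      calc _ ≤ 1 * (max C 0 + 1) := mul_le_mul (KH_norm _) h5 (norm_nonneg _) zero_le_one
        _ = _ := one_mul _
    · push Not at hξ
      obtain ⟨j, hj⟩ := hξ
      rw [KH_zero ⟨j, ?_⟩, zero_mul, norm_zero]
      · have := le_max_right C 0
        linarith
      · rw [Pi.sub_apply]
        have h3 := abs_sub_abs_le_abs_sub (ξ j) (η j)
        have h4 := hsum j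
        linarith
  · intro ε hε
    have hk : ∃ δ : ℝ, 0 < δ ∧ ∀ ξ : Fin m → ℝ, (∀ j, |ξ j| ≤ δ) → ‖KH (ξ - η) - KH (-η)‖ ≤ ε / 3 := by
      have h1 : ContinuousAt (fun ξ : Fin m → ℝ => KH (ξ - η)) 0 :=
        ((KH_cont (m := m)).comp (by fun_prop : Continuous fun ξ : Fin m → ℝ => ξ - η)).continuousAt
      rw [Metric.continuousAt_iff] at h1
      obtain ⟨δ, hδ, h2⟩ := h1 (ε / 3) (by positivity)
      refine ⟨δ / 2, by positivity, fun ξ hξ => ?_⟩
      have h3 : dist ξ 0 < δ := by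
        rw [dist_zero_right]
        have : ‖ξ‖ ≤ δ / 2 := (pi_norm_le_iff_of_nonneg (by positivity)).mpr hξ
        linarith
      have h4 := h2 h3
      rw [zero_sub, dist_eq_norm] at h4
      exact h4.le
    obtain ⟨δ, hδ, hk⟩ := hk
    obtain ⟨ρ, hρ, hg⟩ := hg1 (ε / 3) (by positivity)
    refine ⟨min δ ρ, lt_min hδ hρ, ?_⟩
    filter_upwards [hg, H (min δ ρ) (ε / 3) (lt_min hδ hρ) (by positivity)] with T h1 h2 ξ hξ
    have h3 := hdiv T ξ (ε / 3) (h2 ξ hξ)
    have h4 := h1 ξ fun j => (hξ j).trans (min_le_right _ _)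
    have h5 := hk ξ fun j => (hξ j).trans (min_le_left _ _)
    set w := (∫ x, ch ξ x ∂(ν T)) * ((Real.exp (qf (Q T) ξ / 4) : ℝ) : ℂ) with hw
    have h6 : KH (ξ - η) * w - KH (-η) = KH (ξ - η) * ((w - g T ξ) + (g T ξ - 1)) + (KH (ξ - η) - KH (-η)) := by
      ring
    rw [h6]
    refine (norm_add_le _ _).trans ?_
    rw [norm_mul]
    have h7 : ‖(w - g T ξ) + (g T ξ - 1)‖ ≤ ε / 3 + ε / 3 := (norm_add_le _ _).trans (add_le_add h3 h4)
    have h8 : ‖KH (ξ - η)‖ * ‖(w - g T ξ) + (g T ξ - 1)‖ ≤ 1 * (ε / 3 + ε / 3) :=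
      mul_le_mul (KH_norm _) h7 (norm_nonneg _) zero_le_one
    linarith

/-! ### the limit -/

lemma wd_int {F : Type} [NormedAddCommGroup F] [NormedSpace ℝ F] (κ : Measure (Fin m → ℝ)) {D : (Fin m → ℝ) → ℝ}
    (hD : Measurable D) (hD0 : ∀ z, 0 ≤ D z) (f : (Fin m → ℝ) → F) :
    ∫ z, f z ∂(κ.withDensity fun z => ENNReal.ofReal (D z)) = ∫ z, D z • f z ∂κ := by
  rw [integral_withDensity_eq_integral_toReal_smul]
  · refine integral_congr_ae (Eventually.of_forall fun z => ?_)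
    simp only
    rw [ENNReal.toReal_ofReal (hD0 z)]
  · fun_prop
  · exact Eventually.of_forall fun z => ENNReal.ofReal_lt_top

/-- the transport to the euclidean space -/
noncomputable def eu (x : Fin m → ℝ) : EuclideanSpace ℝ (Fin m) := WithLp.toLp 2 x

lemma eu_meas : Measurable (eu (m := m)) := WithLp.measurable_toLp 2 (Fin m → ℝ)

lemma of_eu (x : Fin m → ℝ) : (WithLp.ofLp (eu x) : Fin m → ℝ) = x := rfl

lemma eu_cf (κ : Measure (Fin m → ℝ)) (t : EuclideanSpace ℝ (Fin m)) :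
    charFun (κ.map eu) t = ∫ x, ch (WithLp.ofLp t) x ∂κ := by
  rw [charFun_apply, integral_map eu_meas.aemeasurable (by fun_prop)]
  refine integral_congr_ae (Eventually.of_forall fun x => ?_)
  have e : (inner ℝ (eu x) t : ℝ) = ∑ j, (WithLp.ofLp t : Fin m → ℝ) j * x j := by
    rw [PiLp.inner_apply]
    refine Finset.sum_congr rfl fun j _ => ?_
    simp [eu]
  simp only [ch]
  rw [e]

lemma eu_ne (κ : FiniteMeasure (Fin m → ℝ)) (h : κ ≠ 0) : κ.map eu ≠ 0 := by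
  intro h1
  apply h
  have h2 : ((κ.map eu : FiniteMeasure (EuclideanSpace ℝ (Fin m))) : Measure (EuclideanSpace ℝ (Fin m))) Set.univ = 0 := by
    rw [h1]
    simp
  rw [FiniteMeasure.toMeasure_map, Measure.map_apply eu_meas MeasurableSet.univ, Set.preimage_univ] at h2
  apply Subtype.ext
  exact Measure.measure_univ_eq_zero.mp h2

/-- the sequential version -/
lemma seqv (ν : ℕ → Measure (Fin m → ℝ)) (hf : ∀ k, IsFiniteMeasure (ν k)) (A : ℕ → ℝ) (hA : ∀ k, 0 ≤ A k)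
    (hk : ∀ η : Fin m → ℝ, Tendsto (fun k => (A k : ℂ) * ∫ x, ((KK x : ℝ) : ℂ) * ch η x ∂(ν k)) atTop
      (𝓝 (∫ x : Fin m → ℝ, ((KK x : ℝ) : ℂ) * ch η x)))
    (h : (Fin m → ℝ) → ℝ) (hh : Measurable h) (S : Set (Fin m → ℝ)) (hS : volume S = 0)
    (hhc : ∀ z, z ∉ S → ContinuousAt h z) (C : ℝ) (hC : ∀ x, |h x| * ∏ j, (1 + x j ^ 2) ≤ C) :
    Tendsto (fun k => A k * ∫ x, h x ∂(ν k)) atTop (𝓝 (∫ x, h x)) := by
  have hKc := KK_cont (m := m)
  have hKm : Measurable (KK (m := m)) := hKc.measurable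
  have hAm : ∀ a : ℝ, Measurable fun x : Fin m → ℝ => a * KK x := fun a => hKm.const_mul a
  have hAp : ∀ k (x : Fin m → ℝ), 0 ≤ A k * KK x := fun k x => mul_nonneg (hA k) (KK_pos _).le
  have hfin : ∀ k, IsFiniteMeasure ((ν k).withDensity fun x => ENNReal.ofReal (A k * KK x)) := by
    intro k
    have := hf k
    have h1 : Integrable (fun x : Fin m → ℝ => A k * KK x) (ν k) := by
      refine Integrable.const_mul ?_ _
      refine Integrable.of_bound hKm.aestronglyMeasurable (14 ^ m) (Eventually.of_forall fun x => ?_)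
      rw [Real.norm_of_nonneg (KK_pos _).le]
      exact KK_le x
    exact isFiniteMeasure_withDensity_ofReal h1.2
  let μ : ℕ → FiniteMeasure (Fin m → ℝ) := fun k => ⟨_, hfin k⟩
  let μ' : FiniteMeasure (Fin m → ℝ) := ⟨volume.withDensity fun x => ENNReal.ofReal (KK x),
    isFiniteMeasure_withDensity_ofReal KK_int.2⟩
  have eμ : ∀ k, (μ k : Measure (Fin m → ℝ)) = (ν k).withDensity fun x => ENNReal.ofReal (A k * KK x) := fun k => rfl
  have eμ' : (μ' : Measure (Fin m → ℝ)) = volume.withDensity fun x => ENNReal.ofReal (KK x) := rfl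
  have hac : (μ' : Measure (Fin m → ℝ)) ≪ volume := by
    rw [eμ']
    exact withDensity_absolutelyContinuous _ _
  have ht0 : ∀ t : Fin m → ℝ, ∫ x, ch t x ∂(μ' : Measure (Fin m → ℝ)) = ∫ x : Fin m → ℝ, ((KK x : ℝ) : ℂ) * ch t x := by
    intro t
    rw [eμ', wd_int _ hKm fun x => (KK_pos x).le]
    simp only [real_smul]
  have htk : ∀ (k : ℕ) (t : Fin m → ℝ), ∫ x, ch t x ∂(μ k : Measure (Fin m → ℝ)) =
      (A k : ℂ) * ∫ x, ((KK x : ℝ) : ℂ) * ch t x ∂(ν k) := by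
    intro k t
    rw [eμ, wd_int _ (hAm _) (hAp k), ← integral_const_mul]
    refine integral_congr_ae (Eventually.of_forall fun x => ?_)
    simp only [real_smul]
    push_cast
    ring
  have hμ'0 : μ' ≠ 0 := by
    intro h1
    have h2 : ∫ _x, (1:ℝ) ∂(μ' : Measure (Fin m → ℝ)) = 0 := by rw [h1]; simp
    rw [eμ', wd_int _ hKm fun x => (KK_pos x).le] at h2
    simp only [smul_eq_mul, mul_one] at h2
    have h3 : 0 < ∫ x : Fin m → ℝ, KK x := by
      rw [integral_pos_iff_support_of_nonneg (fun x => (KK_pos x).le) KK_int]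
      have : Function.support (KK (m := m)) = Set.univ := by
        ext x
        simp [(KK_pos x).ne']
      rw [this]
      exact Measure.measure_univ_pos.mpr (NeZero.ne _)
    linarith
  have hw : Tendsto (fun k => (μ k).map eu) atTop (𝓝 (μ'.map eu)) := by
    refine fm_tendstoE _ _ (eu_ne μ' hμ'0) fun t => ?_
    rw [FiniteMeasure.toMeasure_map, eu_cf, ht0]
    have h1 : ∀ k, charFun ((μ k).map eu : Measure (EuclideanSpace ℝ (Fin m))) t =
        (A k : ℂ) * ∫ x, ((KK x : ℝ) : ℂ) * ch (WithLp.ofLp t) x ∂(ν k) := by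
      intro k
      rw [FiniteMeasure.toMeasure_map, eu_cf, htk]
    simp_rw [h1]
    exact hk _
  have hHm : Measurable fun x : Fin m → ℝ => h x / KK x := hh.div hKm
  have hofc : Continuous fun y : EuclideanSpace ℝ (Fin m) => (WithLp.ofLp y : Fin m → ℝ) := PiLp.continuous_ofLp 2 _
  have hFm : Measurable fun y : EuclideanSpace ℝ (Fin m) => h (WithLp.ofLp y) / KK (WithLp.ofLp y) :=
    hHm.comp hofc.measurable
  have hHb : ∀ y : EuclideanSpace ℝ (Fin m), |h (WithLp.ofLp y) / KK (WithLp.ofLp y)| ≤ 6 ^ m * C := by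
    intro y
    set x : Fin m → ℝ := WithLp.ofLp y
    rw [abs_div, abs_of_pos (KK_pos _), div_le_iff₀ (KK_pos _)]
    have h1 := KK_ge x
    have h2 := hC x
    have h3 : 0 < ∏ j, (1 + x j ^ 2) := Finset.prod_pos fun j _ => by positivity
    have h4 : 0 ≤ C := le_trans (by positivity) h2
    have h5 : |h x| * ∏ j, (1 + x j ^ 2) ≤ (6 ^ m * C * KK x) * ∏ j, (1 + x j ^ 2) := by
      have h6 := mul_le_mul_of_nonneg_left h1 h4
      calc _ ≤ C := h2
        _ = C * 1 := (mul_one _).symm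
        _ ≤ _ := h6
        _ = _ := by ring
    exact le_of_mul_le_mul_right h5 h3
  have hHc : ∀ᵐ y ∂(μ'.map eu : Measure (EuclideanSpace ℝ (Fin m))),
      ContinuousAt (fun y : EuclideanSpace ℝ (Fin m) => h (WithLp.ofLp y) / KK (WithLp.ofLp y)) y := by
    rw [FiniteMeasure.toMeasure_map, ae_map_iff eu_meas.aemeasurable (measurableSet_of_continuousAt _)]
    have h1 : ∀ᵐ x : Fin m → ℝ ∂volume, x ∉ S := measure_eq_zero_iff_ae_notMem.mp hS
    refine hac.ae_le ?_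
    filter_upwards [h1] with x hx
    have h2 : ContinuousAt (fun x : Fin m → ℝ => h x / KK x) (WithLp.ofLp (eu x)) := by
      rw [of_eu]
      exact (hhc x hx).div hKc.continuousAt (KK_pos x).ne'
    exact ContinuousAt.comp (f := fun y : EuclideanSpace ℝ (Fin m) => (WithLp.ofLp y : Fin m → ℝ)) h2 hofc.continuousAt
  have h6 := fm_ae _ _ hw (eu_ne μ' hμ'0) _ hFm _ hHb hHc
  have h7 : ∀ κ : FiniteMeasure (Fin m → ℝ),
      ∫ y, h (WithLp.ofLp y) / KK (WithLp.ofLp y) ∂(κ.map eu : Measure (EuclideanSpace ℝ (Fin m))) =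
      ∫ x, h x / KK x ∂(κ : Measure (Fin m → ℝ)) := by
    intro κ
    rw [FiniteMeasure.toMeasure_map, integral_map eu_meas.aemeasurable hFm.aestronglyMeasurable]
    rfl
  rw [h7] at h6
  simp_rw [h7] at h6
  have h8 : ∀ k, ∫ x, h x / KK x ∂(μ k : Measure (Fin m → ℝ)) = A k * ∫ x, h x ∂(ν k) := by
    intro k
    rw [eμ, wd_int _ (hAm _) (hAp k), ← integral_const_mul]
    refine integral_congr_ae (Eventually.of_forall fun x => ?_)
    have := (KK_pos x).ne'
    simp only [smul_eq_mul]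
    field_simp
  have h9 : ∫ x, h x / KK x ∂(μ' : Measure (Fin m → ℝ)) = ∫ x, h x := by
    rw [eμ', wd_int _ hKm fun x => (KK_pos x).le]
    refine integral_congr_ae (Eventually.of_forall fun x => ?_)
    have := (KK_pos x).ne'
    simp only [smul_eq_mul]
    field_simp
  rw [h9] at h6
  exact h6.congr h8

end multi

theorem main (hG : S_GDET) : S_LLTG := by
  intro m ν Q c g hν hc hQ _ hgb hg1 H h hh hS hC
  obtain ⟨S, hS, hhc⟩ := hS
  obtain ⟨C, hC⟩ := hC
  refine tendsto_of_seq_tendsto fun u hu => ?_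
  have hk := fun η : Fin m → ℝ => (key hG ν Q c g hν hc hQ hgb hg1 H η).comp hu
  obtain ⟨N, hN⟩ := eventually_atTop.mp (hu.eventually hν)
  rw [← tendsto_add_atTop_iff_nat N]
  refine seqv (fun k => ν (u (k + N))) (fun k => hN (k + N) (Nat.le_add_left _ _))
    (fun k => Real.sqrt (Real.pi ^ m * (Q (u (k + N))).det))
    (fun k => Real.sqrt_nonneg _) (fun η => ?_) h hh S hS hhc C hC
  exact (tendsto_add_atTop_iff_nat N).mpr (hk η)

end Pool.Agent.N748.JX.LLTG
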