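import Pool.Agent.N748.JX.Stm2
import Pool.Agent.N748.MJ.SM

set_option autoImplicit false

/-! (TV1) shifted moments with individual levels above the critical ones (helper91, for project JX of helper748) -/

namespace Pool.Agent.N748.JX.TV1

open Finset Filter MeasureTheory Topology Complex
open Pool.Agent.N748.MG Pool.Agent.N748.MJ Pool.Agent.N748.MJ.SM Pool.Agent.N748.JX

theorem QM_symm {m : ℕ} (δ : ℝ) (h : Fin m → ℝ) (j l : Fin m) : QM δ h j l = QM δ h l j := by
  unfold QM
  have h1 : (((1 + 2 * δ : ℝ) : ℂ) + ((h j - h l : ℝ) : ℂ) * I) =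
      (starRingEnd ℂ) (((1 + 2 * δ : ℝ) : ℂ) + ((h l - h j : ℝ) : ℂ) * I) := by
    rw [map_add, map_mul, Complex.conj_ofReal, Complex.conj_ofReal, Complex.conj_I]
    push_cast
    ring
  rw [h1, riemannZeta_conj, RCLike.norm_conj]

theorem QM_eq (hZ : S_LZB) {m : ℕ} {δ : ℝ} (h0 : 0 < δ) (h1 : δ ≤ 1 / 16) (h : Fin m → ℝ) (j l : Fin m) :
    QM δ h j l = (LZ (1 + 2 * δ) (h j - h l)).re := by
  unfold QM
  rw [← (hZ δ h0 h1 (h j - h l)).2, Complex.norm_exp, Real.log_exp]

theorem qf_eq (hZ : S_LZB) {m : ℕ} {δ : ℝ} (h0 : 0 < δ) (h1 : δ ≤ 1 / 16) (h k : Fin m → ℝ) :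
    qf (QM δ h) k = Lr k h δ := by
  unfold qf Lr
  refine Finset.sum_congr rfl fun j _ => Finset.sum_congr rfl fun l _ => ?_
  rw [QM_eq hZ h0 h1]

/-- the quadratic form with one variable increased -/
theorem qf_kp {m : ℕ} (Q : Matrix (Fin m) (Fin m) ℝ) (hQ : ∀ j l, Q j l = Q l j) (k : Fin m → ℝ) (η : ℝ)
    (i : Fin m) : qf Q (kp k η i) = qf Q k + 2 * η * (∑ l, Q i l * k l) + η ^ 2 * Q i i := by
  have e1 : ∀ j l : Fin m, kp k η i j * kp k η i l * Q j l =
      k j * k l * Q j l + (if l = i then η * (k j * Q i j) else 0) +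
        ((if j = i then η * (Q i l * k l) else 0) + if j = i then (if l = i then η ^ 2 * Q i i else 0) else 0) := by
    intro j l
    unfold kp
    by_cases hj : j = i
    · by_cases hl : l = i
      · subst hj
        subst hl
        simp only [if_true]
        ring
      · subst hj
        simp only [if_true, if_neg hl]
        ring
    · by_cases hl : l = i
      · subst hl
        simp only [if_true, if_neg hj]
        rw [hQ j l]
        ring
      · simp only [if_neg hj, if_neg hl]
        ring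
  have e2 : ∑ j, ∑ l, (if l = i then η * (k j * Q i j) else 0) = ∑ l, η * (Q i l * k l) := by
    refine Finset.sum_congr rfl fun j _ => ?_
    rw [Finset.sum_ite_eq' Finset.univ i, if_pos (Finset.mem_univ i)]
    ring
  have e3 : ∑ j, ∑ l, (if j = i then η * (Q i l * k l) else 0) = ∑ l, η * (Q i l * k l) := by
    rw [Finset.sum_comm]
    refine Finset.sum_congr rfl fun l _ => ?_
    rw [Finset.sum_ite_eq' Finset.univ i, if_pos (Finset.mem_univ i)]
  have e4 : ∑ j, ∑ l, (if j = i then (if l = i then η ^ 2 * Q i i else 0) else 0) = η ^ 2 * Q i i := by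
    rw [Finset.sum_comm]
    have : ∀ l : Fin m, ∑ j, (if j = i then (if l = i then η ^ 2 * Q i i else 0) else 0) =
        if l = i then η ^ 2 * Q i i else 0 := by
      intro l
      rw [Finset.sum_ite_eq' Finset.univ i, if_pos (Finset.mem_univ i)]
    simp only [this]
    rw [Finset.sum_ite_eq' Finset.univ i, if_pos (Finset.mem_univ i)]
  unfold qf
  simp only [e1, Finset.sum_add_distrib]
  rw [e2, e3, e4, ← Finset.mul_sum]
  ring

theorem main (g1 : S_JM) (g3 : S_POSV) (g5 : S_LZB) : S_TV1 := by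
  intro d hd m k e B hk he h lv hh hlv
  have hL := g5
  have hP := g3
  have hJ := g1
  set K : ℝ := ∑ j, k j with hK
  have hK0 : 0 ≤ K := Finset.sum_nonneg fun j _ => hk j
  set V : ℝ := |B| with hV
  have hV0 : 0 ≤ V := abs_nonneg _
  set η : ℝ := min e 1 with hη
  have hη0 : 0 < η := lt_min he one_pos
  have hηe : η ≤ e := min_le_left _ _
  have hη1 : η ≤ 1 := min_le_right _ _
  set R : ℝ := K + 2 with hR
  have hR0 : 0 < R := by positivity
  set D : ℝ := 2 * (V * K) + K ^ 2 + 1 with hD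
  have hD0 : 0 < D := by positivity
  obtain ⟨c, C, hc, hC, hcC⟩ := hP m R hR0.le
  have hkK : ∀ j, k j ≤ K := fun j =>
    Finset.single_le_sum (f := k) (fun i _ => hk i) (Finset.mem_univ j)
  rw [Metric.tendsto_nhds]
  intro ε hε
  set ε0 : ℝ := min (c * ε / 4) 1 with hε0
  have hε0p : 0 < ε0 := lt_min (by positivity) one_pos
  have hε1 : ε0 ≤ c * ε / 4 := min_le_left _ _
  have hε2 : ε0 ≤ 1 := min_le_right _ _
  have g1 := (hJ m R D hR0 hD0 ε0 hε0p).app hd
  have g2 := (Ev.small (C := m * (C + 1)) (c := η * e) (e := c * ε / 4)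
    (by positivity) (by positivity)).app hd
  have g3 := (Ev.small (C := 1) (c := 1) (e := c * ε / 4) one_pos (by positivity)).app hd
  have g4 := (Ev.of_le (d := 1 / 16) (by norm_num)).app hd
  filter_upwards [g1, g2, g3, g4, hd.pos, hh, eventually_gt_atTop 0, hlv] with T g1 g2 g3 g4 g5 g6 hT g8
  obtain ⟨N, n1, n2, n3, n4, n5⟩ := g1 (h T) g6
  set δ : ℝ := d T with hδ
  set H : Fin m → ℝ := h T with hH
  set lw : Fin m → ℝ := lv T with hlw
  have hδ1 : δ ≤ 1 := by linarith
  obtain ⟨hCu, hcl⟩ := hcC H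
  set L : ℝ := Real.log (1 / δ) with hLd
  have hL1 : 1 ≤ L := log_inv_ge g5 g4
  have hLre : ∀ u, |(LZ (1 + 2 * δ) u).re| ≤ L := fun u =>
    (Complex.abs_re_le_norm _).trans (hL δ g5 g4 u).1
  have hexpL : ∀ x : ℝ, Real.exp (x * L) = δ ^ (-x) := by
    intro x
    rw [hLd, one_div, Real.log_inv, Real.rpow_def_of_pos g5]
    congr 1
    ring
  -- real forms
  have hform : ∀ k' : Fin m → ℝ, (∀ j, |k' j| ≤ R) → ∃ a, c ≤ a ∧ a ≤ C ∧
      aV (cc k') (cc k') H = a ∧
      |Real.exp (-(Lr k' H δ)) * (∫ t in N, G k' H δ t) - T * a| ≤ ε0 * T := by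
    intro k' hk'
    obtain ⟨a, ha1, ha2⟩ := hcl k' hk'
    have hn : ∀ j, ‖cc k' j‖ ≤ R := by
      intro j
      unfold cc
      rw [Complex.norm_real, Real.norm_eq_abs]
      exact hk' j
    have ha3 : a ≤ C := by
      have h1 := hCu (cc k') (cc k') hn hn
      have h2 : aV (cc k') (cc k') H = a := ha2
      rw [h2, Complex.norm_real, Real.norm_of_nonneg (hc.le.trans ha1)] at h1
      exact h1
    refine ⟨a, ha1, ha3, ha2, ?_⟩
    refine real_form hT (hc.le.trans ha1) ha2 ?_
    exact n5 (cc k') (fun _ => 0) hn (fun j => by simpa using hR0.le)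
  obtain ⟨a, ha1, ha3, ha2, haf⟩ := hform k (fun j => by
    rw [abs_of_nonneg (hk j)]
    have := hkK j
    rw [hR]
    linarith)
  have ha0 : 0 < a := lt_of_lt_of_le hc ha1
  -- the set
  set E : Set ℝ := {t : ℝ | t ∈ Set.Icc 0 T ∧ ∀ j, mz δ (t + H j) ≤ Real.exp (lw j)} with hE
  have hmzc : ∀ j, Continuous fun t : ℝ => mz δ (t + H j) := fun j =>
    (TMA.cont g4).comp (by fun_prop)
  have hEm : MeasurableSet E := by
    have : E = Set.Icc 0 T ∩ ⋂ j, {t : ℝ | mz δ (t + H j) ≤ Real.exp (lw j)} := by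
      ext t
      simp [hE]
    rw [this]
    exact measurableSet_Icc.inter (MeasurableSet.iInter fun j =>
      measurableSet_le (hmzc j).measurable measurable_const)
  have hET : E ⊆ Set.Icc 0 T := fun t ht => ht.1
  have hGc : ∀ k' : Fin m → ℝ, (∀ j, 0 ≤ k' j) → IntegrableOn (fun t => G k' H δ t) N :=
    fun k' hk' => ((G_cont g4 hk').integrableOn_Icc).mono_set n2
  have hkp0 : ∀ i j, 0 ≤ kp k η i j := by
    intro i j
    unfold kp
    have := hk j
    split_ifs <;> linarith
  have hkpR : ∀ i j, |kp k η i j| ≤ R := by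
    intro i j
    rw [abs_of_nonneg (hkp0 i j)]
    have h1 : kp k η i j ≤ k j + η := by
      unfold kp
      split_ifs <;> linarith
    have h2 := hkK j
    rw [hR]
    linarith
  -- comparison
  have hcmp := TMA.cmp (g := fun t => G k H δ t)
    (G := fun t => ∑ i, Real.exp (-(2 * η * lw i)) * G (kp k η i) H δ t) (N := N)
    (E := E) (T := T) (a := 1) (b := Real.exp (2 * (V * K) * L))
    (v := δ ^ D * T) n1 hEm hET
    (fun t => G_nn k H δ t)
    (fun t => Finset.sum_nonneg fun i _ => mul_nonneg (Real.exp_pos _).le (G_nn _ H δ t))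
    zero_le_one (Real.exp_pos _).le (by positivity)
    ((G_cont g4 hk).measurable) (hGc k hk)
    (integrable_finsetSum _ fun i _ => (hGc _ (hkp0 i)).const_mul _)
    (by
      intro t ht
      calc G k H δ t ≤ ∏ j, Real.exp (V * L) ^ (2 * k j) := by
            unfold G
            refine Finset.prod_le_prod (fun j _ => Real.rpow_nonneg (norm_nonneg _) _) fun j _ => ?_
            refine Real.rpow_le_rpow (norm_nonneg _) ((ht.2 j).trans (Real.exp_le_exp.2 ?_))
              (by have := hk j; linarith)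
            refine (g8 j).2.trans ?_
            exact mul_le_mul_of_nonneg_right (le_abs_self _) (by linarith)
        _ = Real.exp (2 * (V * K) * L) := by
            rw [← Real.rpow_sum_of_pos (Real.exp_pos _), ← Finset.mul_sum, ← hK, ← Real.exp_mul]
            congr 1
            ring)
    (by
      intro t ht
      have h1 : ∃ i, Real.exp (lw i) < mz δ (t + H i) := by
        by_contra hcon
        push Not at hcon
        exact ht.2 ⟨n2 ht.1, hcon⟩
      obtain ⟨i, hi⟩ := h1
      have hi0 : 0 < mz δ (t + H i) := (Real.exp_pos _).trans hi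
      have h2 : G k H δ t ≤ Real.exp (-(2 * η * lw i)) * G (kp k η i) H δ t := by
        rw [G_kp hi0]
        have h3 : 1 ≤ Real.exp (-(2 * η * lw i)) * mz δ (t + H i) ^ (2 * η) := by
          have h4 : Real.exp (lw i) ^ (2 * η) ≤ mz δ (t + H i) ^ (2 * η) :=
            Real.rpow_le_rpow (Real.exp_pos _).le hi.le (by linarith)
          have h5 : Real.exp (-(2 * η * lw i)) * Real.exp (lw i) ^ (2 * η) = 1 := by
            rw [← Real.exp_mul, ← Real.exp_add]
            have : -(2 * η * lw i) + lw i * (2 * η) = 0 := by ring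
            rw [this, Real.exp_zero]
          rw [← h5]
          exact mul_le_mul_of_nonneg_left h4 (Real.exp_pos _).le
        have h6 := G_nn k H δ t
        nlinarith
      rw [one_mul]
      refine h2.trans ?_
      exact Finset.single_le_sum (f := fun i => Real.exp (-(2 * η * lw i)) * G (kp k η i) H δ t)
        (fun i _ => mul_nonneg (Real.exp_pos _).le (G_nn _ H δ t)) (Finset.mem_univ i))
    n3
  -- the upper bound for the larger moments
  have hbig : ∀ i, Real.exp (-(Lr k H δ)) * (Real.exp (-(2 * η * lw i)) * ∫ t in N, G (kp k η i) H δ t) ≤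
      δ ^ (η * e) * ((C + 1) * T) := by
    intro i
    obtain ⟨ai, hai1, hai3, _, haif⟩ := hform (kp k η i) (hkpR i)
    have h1 : Real.exp (-(Lr (kp k η i) H δ)) * (∫ t in N, G (kp k η i) H δ t) ≤ (C + 1) * T := by
      have := (abs_le.1 haif).2
      nlinarith
    have h2 : Lr (kp k η i) H δ - Lr k H δ - 2 * η * lw i ≤ -(η * e) * L := by
      have h3 := qf_kp (QM δ H) (QM_symm δ H) k η i
      rw [qf_eq hL g5 g4, qf_eq hL g5 g4] at h3
      have h4 : QM δ H i i ≤ L := by
        rw [QM_eq hL g5 g4]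
        exact (le_abs_self _).trans (hLre _)
      have h5 := (g8 i).1
      have h6 : η ^ 2 * QM δ H i i ≤ η * e * L := by
        have q1 : η ^ 2 * QM δ H i i ≤ η ^ 2 * L := mul_le_mul_of_nonneg_left h4 (sq_nonneg _)
        have q2 : η ^ 2 * L ≤ η * e * L := by
          refine mul_le_mul_of_nonneg_right ?_ (by linarith)
          rw [sq]
          exact mul_le_mul_of_nonneg_left hηe hη0.le
        exact q1.trans q2
      have h7 : 2 * η * ((∑ l, QM δ H i l * k l) + e * L) ≤ 2 * η * lw i :=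
        mul_le_mul_of_nonneg_left h5 (by positivity)
      rw [h3]
      nlinarith
    have h4 : Real.exp (-(Lr k H δ)) * Real.exp (-(2 * η * lw i)) =
        Real.exp (Lr (kp k η i) H δ - Lr k H δ - 2 * η * lw i) * Real.exp (-(Lr (kp k η i) H δ)) := by
      rw [← Real.exp_add, ← Real.exp_add]
      congr 1
      ring
    have h5 : Real.exp (Lr (kp k η i) H δ - Lr k H δ - 2 * η * lw i) ≤ δ ^ (η * e) := by
      have := hexpL (-(η * e))
      rw [neg_neg] at this
      rw [← this]
      exact Real.exp_le_exp.2 h2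
    have h6 : 0 ≤ Real.exp (-(Lr (kp k η i) H δ)) * (∫ t in N, G (kp k η i) H δ t) :=
      mul_nonneg (Real.exp_pos _).le (integral_nonneg fun t => G_nn _ H δ t)
    rw [← mul_assoc, h4, mul_assoc]
    exact mul_le_mul h5 h1 h6 (Real.rpow_pos_of_pos g5 _).le
  have hsumI : ∫ t in N, ∑ i, Real.exp (-(2 * η * lw i)) * G (kp k η i) H δ t =
      ∑ i, Real.exp (-(2 * η * lw i)) * ∫ t in N, G (kp k η i) H δ t := by
    rw [integral_finsetSum _ fun i _ => (hGc _ (hkp0 i)).const_mul _]
    refine Finset.sum_congr rfl fun i _ => ?_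
    exact integral_const_mul _ _
  have p1 : Real.exp (-(Lr k H δ)) * (1 *
      ∫ t in N, ∑ i, Real.exp (-(2 * η * lw i)) * G (kp k η i) H δ t) ≤ c * ε / 4 * T := by
    rw [hsumI, one_mul, Finset.mul_sum]
    calc ∑ i, Real.exp (-(Lr k H δ)) * (Real.exp (-(2 * η * lw i)) * ∫ t in N, G (kp k η i) H δ t)
        ≤ ∑ _i : Fin m, δ ^ (η * e) * ((C + 1) * T) :=
          Finset.sum_le_sum fun i _ => hbig i
      _ = (m * (C + 1) * δ ^ (η * e)) * T := by
          rw [Finset.sum_const, Finset.card_univ, Fintype.card_fin, nsmul_eq_mul]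
          ring
      _ ≤ c * ε / 4 * T := mul_le_mul_of_nonneg_right g2 hT.le
  have p2 : Real.exp (-(Lr k H δ)) * (Real.exp (2 * (V * K) * L) * (δ ^ D * T)) ≤
      c * ε / 4 * T := by
    have q1 : Real.exp (-(Lr k H δ)) ≤ δ ^ (-(K ^ 2)) := by
      rw [← hexpL]
      apply Real.exp_le_exp.2
      have := (abs_le.1 (Lr_abs (k := k) (h := H) hk hLre)).1
      rw [← hK] at this
      linarith
    rw [hexpL]
    calc Real.exp (-(Lr k H δ)) * (δ ^ (-(2 * (V * K))) * (δ ^ D * T))
        ≤ δ ^ (-(K ^ 2)) * (δ ^ (-(2 * (V * K))) * (δ ^ D * T)) := by gcongr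
      _ = δ ^ (1 : ℝ) * T := by
          rw [← mul_assoc, ← mul_assoc, ← Real.rpow_add g5, ← Real.rpow_add g5]
          congr 2
          rw [hD]
          ring
      _ ≤ c * ε / 4 * T := by
          rw [one_mul] at g3
          exact mul_le_mul_of_nonneg_right g3 hT.le
  have p3 : |Real.exp (-(Lr k H δ)) * (∫ t in E, G k H δ t) - T * a| ≤ 3 * (c * ε / 4) * T := by
    have q1 : |Real.exp (-(Lr k H δ)) * ((∫ t in E, G k H δ t) - ∫ t in N, G k H δ t)| ≤
        c * ε / 4 * T + c * ε / 4 * T := by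
      rw [abs_mul, abs_of_pos (Real.exp_pos _)]
      refine (mul_le_mul_of_nonneg_left hcmp (Real.exp_pos _).le).trans ?_
      rw [mul_add]
      exact add_le_add p1 p2
    have q2 : Real.exp (-(Lr k H δ)) * (∫ t in E, G k H δ t) - T * a =
        Real.exp (-(Lr k H δ)) * ((∫ t in E, G k H δ t) - ∫ t in N, G k H δ t) +
        (Real.exp (-(Lr k H δ)) * (∫ t in N, G k H δ t) - T * a) := by ring
    rw [q2]
    refine (abs_add_le _ _).trans ?_
    have q3 : ε0 * T ≤ c * ε / 4 * T := mul_le_mul_of_nonneg_right hε1 hT.le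
    linarith
  have hare : (aV (fun j => (k j : ℂ)) (fun j => (k j : ℂ)) H).re = a := by
    have h1 : aV (fun j => (k j : ℂ)) (fun j => (k j : ℂ)) H = a := ha2
    rw [h1, Complex.ofReal_re]
  have hfin : Real.exp (-(qf (QM δ H) k)) / (aV (fun j => (k j : ℂ)) (fun j => (k j : ℂ)) H).re *
      TMm k H lw δ T - 1 =
      1 / (T * a) * (Real.exp (-(Lr k H δ)) * (∫ t in E, G k H δ t) - T * a) := by
    rw [hare, qf_eq hL g5 g4]
    have h1 : TMm k H lw δ T = 1 / T * ∫ t in E, G k H δ t := rfl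
    rw [h1]
    field_simp
  rw [Real.dist_eq, hfin, abs_mul, abs_of_pos (by positivity : 0 < 1 / (T * a))]
  calc 1 / (T * a) * |Real.exp (-(Lr k H δ)) * (∫ t in E, G k H δ t) - T * a|
      ≤ 1 / (T * a) * (3 * (c * ε / 4) * T) := mul_le_mul_of_nonneg_left p3 (by positivity)
    _ = c / a * (3 * ε / 4) := by field_simp
    _ ≤ 1 * (3 * ε / 4) := by
        refine mul_le_mul_of_nonneg_right ?_ (by positivity)
        rw [div_le_one ha0]
        exact ha1
    _ < ε := by linarith

end Pool.Agent.N748.JX.TV1
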