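import Pool.Agent.N748.JX.Stm2
import Pool.Agent.N748.JX.JXL
import Pool.Agent.N748.JX.LLTG
import Pool.Agent.N748.MJ.LD2
import Pool.Agent.N748.MJ.SM
import Pool.Agent.N748.MG.TMB

set_option autoImplicit false

/-!
# Levels in the critical window (helper565, for project JX of helper748)
-/

namespace Pool.Agent.N748.JX.TV2

open Finset Filter MeasureTheory Topology Complex
open Pool.Agent.N748.MG Pool.Agent.N748.MJ Pool.Agent.N748.JX
open ProbabilityTheory (gaussianReal)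

/-! ### weak convergence to the standard Gaussian measure -/

/-- the standard Gaussian measure -/
noncomputable def gm (m : ℕ) : Measure (Fin m → ℝ) := Measure.pi fun _ => gaussianReal 0 1

instance (m : ℕ) : IsProbabilityMeasure (gm m) := by
  unfold gm
  infer_instance

theorem gm_ch {m : ℕ} (ξ : Fin m → ℝ) :
    ∫ y, LLTG.ch ξ y ∂(gm m) = ((Real.exp (-(∑ j, ξ j ^ 2 / 2)) : ℝ) : ℂ) := by
  have h1 : ∀ y : Fin m → ℝ, LLTG.ch ξ y = ∏ j, Complex.exp (ξ j * y j * I) :=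
    fun y => LLTG.ch_prod ξ y
  simp_rw [h1]
  unfold gm
  rw [integral_fintype_prod_eq_prod (fun (j : Fin m) (s : ℝ) => Complex.exp (ξ j * s * I))]
  have h2 : ∀ j, ∫ s : ℝ, Complex.exp (ξ j * s * I) ∂(gaussianReal 0 1) =
      ((Real.exp (-(ξ j ^ 2 / 2)) : ℝ) : ℂ) := by
    intro j
    rw [← charFun_apply_real, ProbabilityTheory.charFun_gaussianReal]
    push_cast
    congr 1
    ring
  simp_rw [h2]
  rw [← Complex.ofReal_prod, ← Real.exp_sum, Finset.sum_neg_distrib]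

/-- the indicator of the orthant -/
noncomputable def FF {m : ℕ} (x : Fin m → ℝ) : (Fin m → ℝ) → ℝ :=
  (Set.pi Set.univ fun j => Set.Iic (x j)).indicator fun _ => 1

theorem FF_pos {m : ℕ} {x y : Fin m → ℝ} (h : ∀ j, y j ≤ x j) : FF x y = 1 := by
  have h2 : y ∈ Set.pi Set.univ fun j => Set.Iic (x j) := fun j _ => h j
  unfold FF
  rw [Set.indicator_of_mem h2]

theorem FF_neg {m : ℕ} {x y : Fin m → ℝ} (h : ¬ ∀ j, y j ≤ x j) : FF x y = 0 := by
  have h2 : y ∉ Set.pi Set.univ fun j => Set.Iic (x j) := fun h2 => h fun j => h2 j (Set.mem_univ j)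
  unfold FF
  rw [Set.indicator_of_notMem h2]

theorem FF_meas {m : ℕ} (x : Fin m → ℝ) : Measurable (FF x) :=
  measurable_const.indicator (MeasurableSet.univ_pi fun _ => measurableSet_Iic)

theorem FF_abs {m : ℕ} (x y : Fin m → ℝ) : |FF x y| ≤ 1 := by
  by_cases h : ∀ j, y j ≤ x j
  · rw [FF_pos h, abs_one]
  · rw [FF_neg h, abs_zero]
    norm_num

theorem FF_cont {m : ℕ} {x y : Fin m → ℝ} (h : ∀ j, y j ≠ x j) : ContinuousAt (FF x) y := by
  by_cases hy : ∀ j, y j ≤ x j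
  · refine (continuousAt_const (y := (1 : ℝ))).congr ?_
    have h1 : ∀ᶠ z : Fin m → ℝ in 𝓝 y, ∀ j, z j < x j := by
      rw [eventually_all]
      intro j
      exact (continuous_apply j).continuousAt.eventually_lt_const (lt_of_le_of_ne (hy j) (h j))
    filter_upwards [h1] with z hz
    exact (FF_pos fun j => (hz j).le).symm
  · have hy2 := hy
    push Not at hy2
    obtain ⟨j, hj⟩ := hy2
    refine (continuousAt_const (y := (0 : ℝ))).congr ?_
    have h1 : ∀ᶠ z : Fin m → ℝ in 𝓝 y, x j < z j :=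
      (continuous_apply j).continuousAt.eventually_const_lt hj
    filter_upwards [h1] with z hz
    exact (FF_neg fun h2 => absurd (h2 j) (not_le.2 hz)).symm

theorem gm_ae {m : ℕ} (x : Fin m → ℝ) : ∀ᵐ y ∂(gm m), ∀ j, y j ≠ x j := by
  rw [ae_all_iff]
  intro j
  have h1 : NullSingletonClass (gaussianReal 0 1) :=
    ProbabilityTheory.nullSingletonClass_gaussianReal one_ne_zero
  rw [ae_iff]
  simp only [not_not]
  exact Measure.pi_hyperplane (μ := fun _ : Fin m => gaussianReal 0 1) j (x j)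

theorem gm_FF {m : ℕ} (x : Fin m → ℝ) :
    ∫ y, FF x y ∂(gm m) = ∏ j, (gaussianReal 0 1 (Set.Iic (x j))).toReal := by
  have h1 : ∫ y, FF x y ∂(gm m) = ((gm m) (Set.pi Set.univ fun j => Set.Iic (x j))).toReal :=
    integral_indicator_one (μ := gm m) (MeasurableSet.univ_pi fun _ => measurableSet_Iic)
  rw [h1]
  unfold gm
  rw [Measure.pi_pi, ENNReal.toReal_prod]

theorem weak {m : ℕ} (ν : ℝ → Measure (Fin m → ℝ)) (hν : ∀ᶠ T : ℝ in atTop, IsFiniteMeasure (ν T))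
    (s : ℝ → ℝ)
    (hcf : ∀ ξ : Fin m → ℝ, Tendsto (fun T : ℝ => ∫ y, LLTG.ch (fun j => ξ j / s T) y ∂(ν T)) atTop
      (𝓝 ((Real.exp (-(∑ j, ξ j ^ 2 / 2)) : ℝ) : ℂ))) (x : Fin m → ℝ) :
    Tendsto (fun T : ℝ => ∫ y, FF x (fun j => y j / s T) ∂(ν T)) atTop
      (𝓝 (∏ j, (gaussianReal 0 1 (Set.Iic (x j))).toReal)) := by
  refine tendsto_of_seq_tendsto fun u hu => ?_
  obtain ⟨M, hM⟩ := eventually_atTop.mp (hu.eventually hν)
  rw [← tendsto_add_atTop_iff_nat M]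
  have hsc : ∀ T : ℝ, Measurable (fun y : Fin m → ℝ => fun j => y j / s T) := fun T => by fun_prop
  let μ : ℕ → FiniteMeasure (Fin m → ℝ) := fun n => ⟨(ν (u (n + M))).map
    (fun y : Fin m → ℝ => fun j => y j / s (u (n + M))),
    @Measure.isFiniteMeasure_map _ _ _ _ _ (hM (n + M) (Nat.le_add_left _ _)) _⟩
  let μ' : FiniteMeasure (Fin m → ℝ) := ⟨gm m, inferInstance⟩
  have hμ'0 : μ' ≠ 0 := by
    intro h0
    have h1 : (gm m : Measure (Fin m → ℝ)) = 0 := by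
      have : (μ' : Measure (Fin m → ℝ)) = 0 := by rw [h0]; rfl
      exact this
    exact IsProbabilityMeasure.ne_zero _ h1
  have hμi : ∀ {E : Type} [NormedAddCommGroup E] [NormedSpace ℝ E] (g : (Fin m → ℝ) → E) (n : ℕ),
      StronglyMeasurable g → ∫ y, g y ∂(μ n : Measure (Fin m → ℝ)) =
      ∫ y, g (fun j => y j / s (u (n + M))) ∂(ν (u (n + M))) := by
    intro E _ _ g n hg
    show ∫ y, g y ∂((ν (u (n + M))).map (fun y : Fin m → ℝ => fun j => y j / s (u (n + M)))) = _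
    rw [integral_map (hsc _).aemeasurable hg.aestronglyMeasurable]
  have hw : Tendsto (fun n => (μ n).map LLTG.eu) atTop (𝓝 (μ'.map LLTG.eu)) := by
    refine LLT2.fm_tendstoE _ _ (LLTG.eu_ne μ' hμ'0) fun t => ?_
    have h1 : ∀ n, charFun ((μ n).map LLTG.eu : Measure (EuclideanSpace ℝ (Fin m))) t =
        ∫ y, LLTG.ch (fun j => (WithLp.ofLp t : Fin m → ℝ) j / s (u (n + M))) y ∂(ν (u (n + M))) := by
      intro n
      rw [FiniteMeasure.toMeasure_map, LLTG.eu_cf, hμi _ n (LLTG.ch_cont_x _).stronglyMeasurable]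
      refine integral_congr_ae (Eventually.of_forall fun y => ?_)
      simp only [LLTG.ch]
      congr 3
      refine Finset.sum_congr rfl fun j _ => ?_
      ring
    rw [FiniteMeasure.toMeasure_map, LLTG.eu_cf]
    simp_rw [h1]
    have h2 : ∫ y, LLTG.ch (WithLp.ofLp t) y ∂(μ' : Measure (Fin m → ℝ)) =
        ((Real.exp (-(∑ j, (WithLp.ofLp t : Fin m → ℝ) j ^ 2 / 2)) : ℝ) : ℂ) := gm_ch _
    rw [h2]
    have h3 := (hcf (WithLp.ofLp t)).comp hu
    exact (tendsto_add_atTop_iff_nat (f := fun n => ∫ y, LLTG.ch (fun j => (WithLp.ofLp t : Fin m → ℝ) j /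
      s (u n)) y ∂(ν (u n))) M).mpr h3
  have hofc : Continuous fun y : EuclideanSpace ℝ (Fin m) => (WithLp.ofLp y : Fin m → ℝ) :=
    PiLp.continuous_ofLp 2 _
  have hFm : Measurable fun y : EuclideanSpace ℝ (Fin m) => FF x (WithLp.ofLp y) :=
    (FF_meas x).comp hofc.measurable
  have hHc : ∀ᵐ y ∂(μ'.map LLTG.eu : Measure (EuclideanSpace ℝ (Fin m))),
      ContinuousAt (fun y : EuclideanSpace ℝ (Fin m) => FF x (WithLp.ofLp y)) y := by
    rw [FiniteMeasure.toMeasure_map,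
      ae_map_iff LLTG.eu_meas.aemeasurable (measurableSet_of_continuousAt _)]
    have h1 : ∀ᵐ y ∂(μ' : Measure (Fin m → ℝ)), ∀ j, y j ≠ x j := gm_ae x
    filter_upwards [h1] with y hy
    have h2 : ContinuousAt (FF x) (WithLp.ofLp (LLTG.eu y)) := by
      rw [LLTG.of_eu]
      exact FF_cont hy
    exact ContinuousAt.comp (f := fun y : EuclideanSpace ℝ (Fin m) => (WithLp.ofLp y : Fin m → ℝ)) h2
      hofc.continuousAt
  have h6 := LLT2.fm_ae _ _ hw (LLTG.eu_ne μ' hμ'0) _ hFm 1 (fun y => FF_abs _ _) hHc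
  have h7 : ∀ κ : FiniteMeasure (Fin m → ℝ),
      ∫ y, FF x (WithLp.ofLp y) ∂(κ.map LLTG.eu : Measure (EuclideanSpace ℝ (Fin m))) =
      ∫ y, FF x y ∂(κ : Measure (Fin m → ℝ)) := by
    intro κ
    rw [FiniteMeasure.toMeasure_map, integral_map LLTG.eu_meas.aemeasurable hFm.aestronglyMeasurable]
    rfl
  rw [h7] at h6
  simp_rw [h7] at h6
  have h8 : ∫ y, FF x y ∂(μ' : Measure (Fin m → ℝ)) =
      ∏ j, (gaussianReal 0 1 (Set.Iic (x j))).toReal := gm_FF x
  rw [h8] at h6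
  refine h6.congr fun n => ?_
  exact hμi (FF x) n (FF_meas x).stronglyMeasurable


/-! ### the quadratic form -/

open Pool.Agent.N748.JX.JXL (bx wv nu X Gd)

theorem LL {d : ℝ → ℝ} (hd : Ad d) :
    Tendsto (fun T : ℝ => Real.log (1 / d T) / Real.log (1 / (2 * d T))) atTop (𝓝 1) := by
  have hΛ := TMB.lam_tendsto hd
  have h1 : Tendsto (fun T : ℝ => 1 + Real.log 2 / Real.log (1 / (2 * d T))) atTop (𝓝 (1 + 0)) :=
    (hΛ.const_div_atTop _).const_add 1
  rw [add_zero] at h1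
  refine h1.congr' ?_
  filter_upwards [hd.pos, hΛ.eventually_gt_atTop 0] with T hT h2
  have h3 : Real.log (1 / d T) = Real.log (1 / (2 * d T)) + Real.log 2 := by
    rw [LD.log_eq, one_div, Real.log_inv, Real.log_mul (by norm_num) hT.ne']
    ring
  rw [h3, add_div, div_self h2.ne']

theorem Q_diag (g5 : S_LZB) {d : ℝ → ℝ} (hd : Ad d) {m : ℕ} (a : ℝ → Fin m → ℝ) (j : Fin m) :
    Tendsto (fun T : ℝ => QM (d T) (a T) j j / Real.log (1 / (2 * d T))) atTop (𝓝 1) := by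
  obtain ⟨l, hl1, hl2⟩ := MJ.LD2.LZ_lim g5 hd
  have hΛ := TMB.lam_tendsto hd
  have h1 : Tendsto (fun T : ℝ => (l T - Real.log (1 / (2 * d T))) / Real.log (1 / (2 * d T)) + 1) atTop
      (𝓝 (0 + 1)) := (hl2.div_atTop hΛ).add_const 1
  rw [zero_add] at h1
  refine h1.congr' ?_
  filter_upwards [TMB.small hd, hΛ.eventually_gt_atTop 0] with T hT h2
  rw [JXL.QM_eq g5 hT.1 hT.2.1, sub_self, hl1 T hT.1, Complex.ofReal_re]
  field_simp
  ring

theorem Q_off {d : ℝ → ℝ} (hd : Ad d) {m : ℕ} {a : ℝ → Fin m → ℝ} {j l : Fin m}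
    (h : Tendsto (fun T : ℝ => QM (d T) (a T) j l / Real.log (1 / d T)) atTop (𝓝 0)) :
    Tendsto (fun T : ℝ => QM (d T) (a T) j l / Real.log (1 / (2 * d T))) atTop (𝓝 0) := by
  have h1 := h.mul (LL hd)
  rw [zero_mul] at h1
  refine h1.congr' ?_
  filter_upwards [(JXL.Ltop hd).eventually_gt_atTop 0] with T hT
  field_simp

theorem qf_lim (g5 : S_LZB) {d : ℝ → ℝ} (hd : Ad d) {m : ℕ} {a : ℝ → Fin m → ℝ}
    (hoff : ∀ j l, j ≠ l → Tendsto (fun T : ℝ => QM (d T) (a T) j l / Real.log (1 / d T)) atTop (𝓝 0))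
    (ξ : Fin m → ℝ) :
    Tendsto (fun T : ℝ => qf (QM (d T) (a T))
      (fun j => ξ j / Real.sqrt (Real.log (1 / (2 * d T)) / 2)) / 4) atTop (𝓝 (∑ j, ξ j ^ 2 / 2)) := by
  have hΛ := TMB.lam_tendsto hd
  have h1 : ∀ j l : Fin m, Tendsto (fun T : ℝ => ξ j * ξ l / 2 *
      (QM (d T) (a T) j l / Real.log (1 / (2 * d T)))) atTop (𝓝 (if j = l then ξ j ^ 2 / 2 else 0)) := by
    intro j l
    by_cases hjl : j = l
    · subst hjl
      have h2 := (Q_diag g5 hd a j).const_mul (ξ j * ξ j / 2)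
      rw [if_pos rfl]
      have e : ξ j * ξ j / 2 * 1 = ξ j ^ 2 / 2 := by ring
      rw [e] at h2
      exact h2
    · have h2 := (Q_off hd (hoff j l hjl)).const_mul (ξ j * ξ l / 2)
      rw [if_neg hjl]
      rwa [mul_zero] at h2
  have h3 : Tendsto (fun T : ℝ => ∑ j, ∑ l, ξ j * ξ l / 2 *
      (QM (d T) (a T) j l / Real.log (1 / (2 * d T)))) atTop
      (𝓝 (∑ j, ∑ l, if j = l then ξ j ^ 2 / 2 else 0)) :=
    tendsto_finsetSum _ fun j _ => tendsto_finsetSum _ fun l _ => h1 j l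
  have e : (∑ j, ∑ l : Fin m, if j = l then ξ j ^ 2 / 2 else 0) = ∑ j, ξ j ^ 2 / 2 := by
    refine Finset.sum_congr rfl fun j _ => ?_
    simp
  rw [e] at h3
  refine h3.congr' ?_
  filter_upwards [hΛ.eventually_gt_atTop 0] with T hT
  unfold qf
  rw [Finset.sum_div]
  refine Finset.sum_congr rfl fun j _ => ?_
  rw [Finset.sum_div]
  refine Finset.sum_congr rfl fun l _ => ?_
  have h4 : Real.sqrt (Real.log (1 / (2 * d T)) / 2) * Real.sqrt (Real.log (1 / (2 * d T)) / 2) =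
      Real.log (1 / (2 * d T)) / 2 := Real.mul_self_sqrt (by positivity)
  show ξ j * ξ l / 2 * (QM (d T) (a T) j l / Real.log (1 / (2 * d T))) =
    ξ j / Real.sqrt (Real.log (1 / (2 * d T)) / 2) * (ξ l / Real.sqrt (Real.log (1 / (2 * d T)) / 2)) *
      QM (d T) (a T) j l / 4
  have h5 : ξ j / Real.sqrt (Real.log (1 / (2 * d T)) / 2) * (ξ l / Real.sqrt (Real.log (1 / (2 * d T)) / 2)) =
      ξ j * ξ l / (Real.log (1 / (2 * d T)) / 2) := by
    rw [div_mul_div_comm, h4]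
  rw [h5]
  field_simp
  norm_num
  ring

/-! ### the central limit theorem -/

theorem four_lim (hB : S_BND) (hG : S_GVB) (g3 : S_POSV) (g5 : S_LZB) {d : ℝ → ℝ} (hd : Ad d)
    {m : ℕ} {k x : Fin m → ℝ} {a lv : ℝ → Fin m → ℝ}
    (hoff : ∀ j l, j ≠ l → Tendsto (fun T : ℝ => QM (d T) (a T) j l / Real.log (1 / d T)) atTop (𝓝 0))
    (hlv : ∀ j, Tendsto (fun T : ℝ => (lv T j - ∑ l, QM (d T) (a T) j l * k l) /
      Real.sqrt (Real.log (1 / (2 * d T)) / 2)) atTop (𝓝 (x j)))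
    {D A c0 : ℝ} (hA : ∀ j, |k j| ≤ A) (hc0 : 0 < c0) {r : ℝ → ℝ}
    (hrc : ∀ T, c0 ≤ r T ∧ aV (fun j => (k j : ℂ)) (fun j => (k j : ℂ)) (a T) = (r T : ℝ))
    {N : ℝ → Set ℝ} (hN : ∀ n, ∀ᶠ T : ℝ in atTop, Gd d a D n T (N T)) (ξ : Fin m → ℝ) :
    Tendsto (fun T : ℝ => ∫ y, LLTG.ch (fun j => ξ j / Real.sqrt (Real.log (1 / (2 * d T)) / 2)) y
      ∂(nu (1 / T * Real.exp (-(qf (QM (d T) (a T)) k)) / r T) (d T) (a T) k
        (fun j => lv T j - Real.sqrt (Real.log (1 / (2 * d T)) / 2) * x j) (N T))) atTop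
      (𝓝 ((Real.exp (-(∑ j, ξ j ^ 2 / 2)) : ℝ) : ℂ)) := by
  have hr0 : ∀ T, 0 < r T := fun T => lt_of_lt_of_le hc0 (hrc T).1
  obtain ⟨s, hs⟩ : ∃ s : ℝ → ℝ, ∀ T, s T = Real.sqrt (Real.log (1 / (2 * d T)) / 2) := ⟨_, fun T => rfl⟩
  have hst : Tendsto s atTop atTop := by
    have h1 := TMB.sq_tendsto hd
    exact h1.congr fun T => (hs T).symm
  obtain ⟨η, hη⟩ : ∃ η : ℝ → Fin m → ℝ, ∀ T, η T = fun j => ξ j / s T := ⟨_, fun T => rfl⟩
  obtain ⟨Q, hQ⟩ : ∃ Q : ℝ → Matrix (Fin m) (Fin m) ℝ, ∀ T, Q T = QM (d T) (a T) := ⟨_, fun T => rfl⟩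
  obtain ⟨W, hW⟩ : ∃ W : ℝ → ℂ, ∀ T, W T = cexp (-(LM (bx k (η T)) (bx k (η T)) (a T) (d T))) *
      (∫ t in N T, ∏ j, ZZ (riemannZeta (pw (d T) (t + a T j))) (bx k (η T) j) 0) := ⟨_, fun T => rfl⟩
  obtain ⟨α, hα⟩ : ∃ α : ℝ → ℂ, ∀ T, α T = aV (bx k (η T)) (bx k (η T)) (a T) := ⟨_, fun T => rfl⟩
  obtain ⟨B, hBd, hB1⟩ : ∃ B : ℝ, 0 < B ∧ ∀ j, |ξ j| ≤ B := by
    refine ⟨∑ j, |ξ j| + 1, ?_, fun j => ?_⟩
    · have : 0 ≤ ∑ j, |ξ j| := Finset.sum_nonneg fun j _ => abs_nonneg _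
      linarith
    · have h1 : |ξ j| ≤ ∑ j, |ξ j| :=
        Finset.single_le_sum (f := fun j => |ξ j|) (fun j _ => abs_nonneg _) (Finset.mem_univ j)
      linarith
  have hρ : Tendsto (fun T => B / s T) atTop (𝓝 0) := hst.const_div_atTop B
  have hηρ : ∀ T, 0 < s T → ∀ j, |η T j| ≤ B / s T := by
    intro T hT j
    rw [hη]
    simp only
    rw [abs_div, abs_of_pos hT]
    exact div_le_div_of_nonneg_right (hB1 j) hT.le
  -- the arithmetic factor
  obtain ⟨CL, hCL, hlip⟩ := JXL.lip hB hG g3 k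
  have hα1 : Tendsto (fun T => α T / r T) atTop (𝓝 1) := by
    rw [tendsto_iff_norm_sub_tendsto_zero]
    have h1 : Tendsto (fun T => CL / c0 * (B / s T)) atTop (𝓝 0) := by
      have := hρ.const_mul (CL / c0)
      rwa [mul_zero] at this
    refine squeeze_zero_norm' ?_ h1
    filter_upwards [hρ.eventually_le_const (show (0 : ℝ) < 1 / 2 by norm_num),
      hst.eventually_gt_atTop 0] with T h2 h3
    have h4 := hlip (a T) (B / s T) (by positivity) h2 (η T) (hηρ T h3)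
    have hr' : ((r T : ℝ) : ℂ) ≠ 0 := by exact_mod_cast (hr0 T).ne'
    have e : α T / r T - 1 = (α T - aV (fun j => (k j : ℂ)) (fun j => (k j : ℂ)) (a T)) / r T := by
      rw [(hrc T).2, sub_div, div_self hr']
    rw [norm_norm, e, norm_div, Complex.norm_real, Real.norm_of_nonneg (hr0 T).le, hα]
    calc ‖aV (bx k (η T)) (bx k (η T)) (a T) - aV (fun j => (k j : ℂ)) (fun j => (k j : ℂ)) (a T)‖ / r T
        ≤ CL * (B / s T) / c0 := div_le_div₀ (by positivity) h4 hc0 (hrc T).1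
      _ = CL / c0 * (B / s T) := by ring
  -- the error
  have hW0 : Tendsto (fun T : ℝ => (W T - T * α T) / (T * r T)) atTop (𝓝 0) := by
    rw [tendsto_zero_iff_norm_tendsto_zero, Metric.tendsto_nhds]
    intro ε hε
    obtain ⟨n, hn⟩ := exists_nat_gt (max (A + 1 / 2) (1 / (ε / 2 * c0)))
    filter_upwards [hN n, TMB.small hd, hρ.eventually_le_const one_pos, hst.eventually_gt_atTop 0]
      with T hT hT2 hT3 hT4
    obtain ⟨h0, h1, hT1⟩ := hT2
    have hT0 : 0 < T := by linarith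
    have h4 := hT.est (bx k (η T)) (fun j => by
      have := JXL.bx_norm (R := 1) hA (fun j => (hηρ T hT4 j).trans hT3) j
      linarith [le_max_left (A + 1 / 2) (1 / (ε / 2 * c0))])
    rw [← hW T, ← hα T] at h4
    have h5 : 1 / ((n : ℝ) + 1) ≤ ε / 2 * c0 := by
      have h6 := le_max_right (A + 1 / 2) (1 / (ε / 2 * c0))
      have h7 : 1 / (ε / 2 * c0) < (n : ℝ) + 1 := by linarith
      rw [div_lt_iff₀ (by positivity)] at h7
      rw [div_le_iff₀ (by positivity)]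
      linarith
    have e2 : ‖((T : ℂ) * (r T : ℂ))‖ = T * r T := by
      rw [norm_mul, Complex.norm_real, Complex.norm_real,
        Real.norm_of_nonneg hT0.le, Real.norm_of_nonneg (hr0 T).le]
    rw [Real.dist_eq, sub_zero, abs_norm, norm_div, e2, div_lt_iff₀ (mul_pos hT0 (hr0 T))]
    calc ‖W T - T * α T‖ ≤ 1 / ((n : ℝ) + 1) * T := h4
      _ ≤ ε / 2 * c0 * T := mul_le_mul_of_nonneg_right h5 hT0.le
      _ ≤ ε / 2 * r T * T := by
          have := (hrc T).1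
          gcongr
      _ < ε * (T * r T) := by
          have : 0 < ε * (T * r T) := mul_pos hε (mul_pos hT0 (hr0 T))
          nlinarith
  have hW1 : Tendsto (fun T : ℝ => W T / (T * r T)) atTop (𝓝 1) := by
    have h1 := hW0.add hα1
    rw [zero_add] at h1
    refine h1.congr' ?_
    filter_upwards [eventually_gt_atTop 0] with T hT
    have hr' : ((r T : ℝ) : ℂ) ≠ 0 := by exact_mod_cast (hr0 T).ne'
    have hT' : (T : ℂ) ≠ 0 := by exact_mod_cast hT.ne'
    field_simp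
    ring
  -- the quadratic form
  have hq : Tendsto (fun T : ℝ => ((Real.exp (-(qf (Q T) (η T) / 4)) : ℝ) : ℂ)) atTop
      (𝓝 ((Real.exp (-(∑ j, ξ j ^ 2 / 2)) : ℝ) : ℂ)) := by
    have h1 := qf_lim g5 hd hoff ξ
    have h2 : Tendsto (fun T : ℝ => qf (Q T) (η T) / 4) atTop (𝓝 (∑ j, ξ j ^ 2 / 2)) := by
      refine h1.congr fun T => ?_
      rw [hQ, hη, hs]
    exact (Complex.continuous_ofReal.tendsto _).comp ((Real.continuous_exp.tendsto _).comp h2.neg)
  -- the shift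
  have hθ : Tendsto (fun T : ℝ => cexp (-(((∑ j, ξ j * ((lv T j - wv (Q T) k j) / s T - x j) : ℝ) : ℂ) * I)))
      atTop (𝓝 1) := by
    have h1 : Tendsto (fun T : ℝ => ∑ j, ξ j * ((lv T j - wv (Q T) k j) / s T - x j)) atTop
        (𝓝 (∑ j : Fin m, ξ j * (x j - x j))) := by
      refine tendsto_finsetSum _ fun j _ => Tendsto.const_mul _ (Tendsto.sub_const ?_ _)
      refine (hlv j).congr fun T => ?_
      rw [hs, hQ]
      rfl
    have h2 : (∑ j : Fin m, ξ j * (x j - x j)) = 0 := by simp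
    rw [h2] at h1
    have h3 : Continuous fun θ : ℝ => cexp (-((θ : ℂ) * I)) := by fun_prop
    have h4 := (h3.tendsto 0).comp h1
    simp only [Complex.ofReal_zero, zero_mul, neg_zero, Complex.exp_zero] at h4
    exact h4
  have hall := (hW1.mul hq).mul hθ
  rw [one_mul, mul_one] at hall
  refine hall.congr' ?_
  filter_upwards [hN 0, TMB.small hd, hst.eventually_gt_atTop 0] with T hT hT2 hs0
  obtain ⟨h0, h1, hT1⟩ := hT2
  have hT0 : 0 < T := by linarith
  have hK0 : 0 ≤ 1 / T * Real.exp (-(qf (QM (d T) (a T)) k)) / r T := by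
    have := hr0 T
    positivity
  obtain ⟨w, hw⟩ : ∃ w : Fin m → ℝ, w = fun j => lv T j - s T * x j := ⟨_, rfl⟩
  have e0 : (fun j => lv T j - Real.sqrt (Real.log (1 / (2 * d T)) / 2) * x j) = w := by
    rw [hw, hs]
  have e1 : (fun j => ξ j / Real.sqrt (Real.log (1 / (2 * d T)) / 2)) = η T := by
    rw [hη, hs]
  rw [e0, e1]
  have h5 := JXL.four h0 h1 hK0 (a T) k w (η T) hT.meas hT.nz
  have h6 : ∫ y, LLTG.ch (η T) y ∂(nu (1 / T * Real.exp (-(qf (QM (d T) (a T)) k)) / r T) (d T) (a T) k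
      w (N T)) = ∫ y, cexp (((∑ j, η T j * y j : ℝ) : ℂ) * I) ∂(nu (1 / T * Real.exp (-(qf (QM (d T) (a T)) k))
        / r T) (d T) (a T) k w (N T)) := rfl
  rw [h6, h5, ← hQ T]
  obtain ⟨J, hJd⟩ : ∃ J : ℂ, J = ∫ t in N T, ∏ j, ZZ (riemannZeta (pw (d T) (t + a T j))) (bx k (η T) j) 0 :=
    ⟨_, rfl⟩
  rw [← hJd]
  have hWT := hW T
  rw [← hJd] at hWT
  obtain ⟨θ, hθd⟩ : ∃ θ : ℝ, θ = ∑ j, η T j * wv (Q T) k j := ⟨_, rfl⟩
  have hLM : LM (bx k (η T)) (bx k (η T)) (a T) (d T) =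
      ((qf (Q T) k - qf (Q T) (η T) / 4 : ℝ) : ℂ) + ((θ : ℝ) : ℂ) * I := by
    rw [JXL.LM_eq g5 h0 h1, hθd, hQ]
    exact JXL.quad (QM (d T) (a T)) (fun j l => JXL.QM_symm g5 h0 h1 (a T) j l) k (η T)
  have hJW : J = cexp (((qf (Q T) k - qf (Q T) (η T) / 4 : ℝ) : ℂ) + ((θ : ℝ) : ℂ) * I) * W T := by
    rw [hWT, hLM, ← mul_assoc, ← Complex.exp_add, add_neg_cancel, Complex.exp_zero, one_mul]
  have e2 : (∑ j, ξ j * ((lv T j - wv (Q T) k j) / s T - x j)) = (∑ j, η T j * w j) - θ := by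
    rw [hθd, ← Finset.sum_sub_distrib]
    refine Finset.sum_congr rfl fun j _ => ?_
    rw [hη, hw]
    simp only
    field_simp
    ring
  rw [e2, hJW]
  have hr' : ((r T : ℝ) : ℂ) ≠ 0 := by exact_mod_cast (hr0 T).ne'
  have hT' : (T : ℂ) ≠ 0 := by exact_mod_cast hT0.ne'
  obtain ⟨ω, hω⟩ : ∃ ω : ℝ, ω = ∑ j, η T j * w j := ⟨_, rfl⟩
  rw [← hω]
  have e3 : ((Real.exp (-(qf (Q T) (η T) / 4)) : ℝ) : ℂ) * cexp (-(((ω - θ : ℝ) : ℂ) * I)) =
      cexp (-((qf (Q T) k : ℝ) : ℂ)) * cexp (-(((ω : ℝ) : ℂ) * I)) *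
        cexp (((qf (Q T) k - qf (Q T) (η T) / 4 : ℝ) : ℂ) + ((θ : ℝ) : ℂ) * I) := by
    push_cast
    rw [← Complex.exp_add, ← Complex.exp_add, ← Complex.exp_add]
    congr 1
    ring
  rw [mul_assoc, e3]
  push_cast
  field_simp


/-! ### the truncated moments -/

/-- the event -/
def PP {m : ℕ} (δ : ℝ) (h lv : Fin m → ℝ) : Set ℝ := {t : ℝ | ∀ j, mz δ (t + h j) ≤ Real.exp (lv j)}

theorem PP_meas {m : ℕ} {δ : ℝ} (h1 : δ ≤ 1 / 16) (h lv : Fin m → ℝ) : MeasurableSet (PP δ h lv) := by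
  have e : PP δ h lv = ⋂ j, {t : ℝ | mz δ (t + h j) ≤ Real.exp (lv j)} := by
    ext t
    simp [PP]
  rw [e]
  refine MeasurableSet.iInter fun j => measurableSet_le ?_ measurable_const
  have hc : Continuous fun t : ℝ => mz δ (t + h j) := (TMA.cont h1).comp (by fun_prop)
  exact hc.measurable

theorem G_le {m : ℕ} {δ M L : ℝ} {k h lv : Fin m → ℝ} (hk : ∀ j, 0 ≤ k j) (hlv : ∀ j, lv j ≤ M * L)
    {t : ℝ} (ht : t ∈ PP δ h lv) : MJ.SM.G k h δ t ≤ Real.exp (2 * (∑ j, k j) * M * L) := by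
  unfold MJ.SM.G
  have e : Real.exp (2 * (∑ j, k j) * M * L) = ∏ j, Real.exp (2 * k j * (M * L)) := by
    rw [← Real.exp_sum]
    congr 1
    rw [← Finset.sum_mul, ← Finset.mul_sum]
    ring
  rw [e]
  refine Finset.prod_le_prod (fun j _ => Real.rpow_nonneg (norm_nonneg _) _) fun j _ => ?_
  have h1 : mz δ (t + h j) ^ (2 * k j) ≤ Real.exp (lv j) ^ (2 * k j) :=
    Real.rpow_le_rpow (norm_nonneg _) (ht j) (by have := hk j; linarith)
  refine h1.trans ?_
  rw [← Real.exp_mul]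
  apply Real.exp_le_exp.2
  have h2 := mul_le_mul_of_nonneg_left (hlv j) (by have := hk j; linarith : 0 ≤ 2 * k j)
  linarith

theorem main (g1 : S_JM) (g3 : S_POSV) (_g4 : S_CONV) (g5 : S_LZB) : S_TV2 := by
  intro d hd m k x hk a lv ha hoff hlv
  have hB : S_BND := BND.main
  have hG : S_GVB := GVB.main BND.main
  -- the bound of the exponents
  obtain ⟨A, hAd⟩ : ∃ A : ℝ, A = ∑ j, k j := ⟨_, rfl⟩
  have hA0 : 0 ≤ A := by
    rw [hAd]
    exact Finset.sum_nonneg fun j _ => hk j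
  have hA : ∀ j, |k j| ≤ A := by
    intro j
    rw [abs_of_nonneg (hk j), hAd]
    exact Finset.single_le_sum (f := k) (fun j _ => hk j) (Finset.mem_univ j)
  obtain ⟨M, hM0, hM1⟩ : ∃ M : ℝ, 0 ≤ M ∧ ∀ j, A + |x j| + 1 ≤ M := by
    have h0 : 0 ≤ ∑ j, |x j| := Finset.sum_nonneg fun j _ => abs_nonneg _
    refine ⟨A + (∑ j, |x j|) + 1, by positivity, fun j => ?_⟩
    have h1 : |x j| ≤ ∑ j, |x j| :=
      Finset.single_le_sum (f := fun j => |x j|) (fun j _ => abs_nonneg _) (Finset.mem_univ j)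
    linarith
  -- the constant
  obtain ⟨c0, C0, hc0, hC0, hPh⟩ := g3 m A hA0
  obtain ⟨r, hr⟩ : ∃ r : ℝ → ℝ, ∀ T, r T = (aV (fun j => (k j : ℂ)) (fun j => (k j : ℂ)) (a T)).re :=
    ⟨_, fun T => rfl⟩
  have hrc : ∀ T, c0 ≤ r T ∧ aV (fun j => (k j : ℂ)) (fun j => (k j : ℂ)) (a T) = (r T : ℝ) := by
    intro T
    obtain ⟨y, hy, hy2⟩ := (hPh (a T)).2 k hA
    rw [hr, hy2, Complex.ofReal_re]
    exact ⟨hy, rfl⟩
  have hr0 : ∀ T, 0 < r T := fun T => lt_of_lt_of_le hc0 (hrc T).1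
  obtain ⟨D, hDd⟩ : ∃ D : ℝ, D = A ^ 2 + 2 * A * M + 1 := ⟨_, rfl⟩
  have hD : 0 < D := by
    rw [hDd]
    positivity
  obtain ⟨N, hN⟩ := JXL.exists_sets g1 hd ha hD
  have hsm := TMB.small hd
  obtain ⟨s, hs⟩ : ∃ s : ℝ → ℝ, ∀ T, s T = Real.sqrt (Real.log (1 / (2 * d T)) / 2) := ⟨_, fun T => rfl⟩
  have hst : Tendsto s atTop atTop := (TMB.sq_tendsto hd).congr fun T => (hs T).symm
  obtain ⟨K, hK⟩ : ∃ K : ℝ → ℝ, ∀ T, K T = 1 / T * Real.exp (-(qf (QM (d T) (a T)) k)) / r T :=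
    ⟨_, fun T => rfl⟩
  obtain ⟨w, hw⟩ : ∃ w : ℝ → Fin m → ℝ, ∀ T, w T = fun j => lv T j - s T * x j := ⟨_, fun T => rfl⟩
  have key := weak (fun T => nu (K T) (d T) (a T) k (w T) (N T)) (by
    obtain ⟨n, hn⟩ := exists_nat_gt (max A (1 / c0))
    filter_upwards [hN n, hsm] with T hT hT2
    refine JXL.fin hT (hr0 T) (by linarith [hT2.2.2]) (fun j => ?_) (hrc T).2 ?_
    · have := hA j
      linarith [le_max_left A (1 / c0)]
    · have h2 : 1 / c0 < (n : ℝ) + 1 := by linarith [le_max_right A (1 / c0)]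
      rw [div_lt_iff₀ hc0] at h2
      refine lt_of_lt_of_le ?_ (hrc T).1
      rw [div_lt_iff₀ (by positivity)]
      linarith) s (fun ξ => by
    have h1 := four_lim hB hG g3 g5 hd hoff hlv hA hc0 hrc hN ξ
    refine h1.congr fun T => ?_
    rw [hK, hw, hs]) x
  -- the levels
  have hlvM : ∀ᶠ T : ℝ in atTop, ∀ j, lv T j ≤ M * Real.log (1 / d T) := by
    rw [eventually_all]
    intro j
    have h1 : ∀ᶠ T : ℝ in atTop, (lv T j - ∑ l, QM (d T) (a T) j l * k l) /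
        Real.sqrt (Real.log (1 / (2 * d T)) / 2) < |x j| + 1 :=
      (hlv j).eventually_lt_const (by linarith [le_abs_self (x j)])
    filter_upwards [h1, hsm, hst.eventually_gt_atTop 0, (TMB.lam_tendsto hd).eventually_gt_atTop 0]
      with T h2 h3 h4 h5
    rw [← hs T, div_lt_iff₀ h4] at h2
    have hL1 : 1 ≤ Real.log (1 / d T) := log_inv_ge h3.1 h3.2.1
    have h6 : Real.log (1 / (2 * d T)) ≤ Real.log (1 / d T) := by
      apply Real.log_le_log (by have := h3.1; positivity)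
      apply one_div_le_one_div_of_le h3.1
      linarith [h3.1]
    have h7 : s T ≤ Real.log (1 / d T) := by
      rw [hs, Real.sqrt_le_left (by linarith)]
      nlinarith
    have h8 : ∑ l, QM (d T) (a T) j l * k l ≤ A * Real.log (1 / d T) := by
      rw [hAd, Finset.sum_mul]
      refine Finset.sum_le_sum fun l _ => ?_
      rw [mul_comm]
      exact mul_le_mul_of_nonneg_left ((le_abs_self _).trans (JXL.QM_abs g5 h3.1 h3.2.1 (a T) j l)) (hk l)
    have h9 : (|x j| + 1) * s T ≤ (|x j| + 1) * Real.log (1 / d T) :=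
      mul_le_mul_of_nonneg_left h7 (by positivity)
    have h10 := mul_le_mul_of_nonneg_right (hM1 j) (by linarith : 0 ≤ Real.log (1 / d T))
    linarith
  -- the rest
  obtain ⟨B, hBd⟩ : ∃ B : ℝ → ℝ, ∀ T, B T = Real.exp (-(qf (QM (d T) (a T)) k)) / r T := ⟨_, fun T => rfl⟩
  obtain ⟨E, hE⟩ : ∃ E : ℝ → ℝ, ∀ T, E T = B T * ((1 / T) *
      ∫ t in (Set.Icc 0 T \ N T) ∩ PP (d T) (a T) (lv T), MJ.SM.G k (a T) (d T) t) := ⟨_, fun T => rfl⟩
  have hE0 : Tendsto E atTop (𝓝 0) := by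
    have hb : ∀ᶠ T : ℝ in atTop, ‖E T‖ ≤ 1 / c0 * d T := by
      filter_upwards [hN 0, hsm, hlvM] with T hT hT2 hlT
      obtain ⟨h0, h1, hT1⟩ := hT2
      have hT0 : 0 < T := by linarith
      have hexpL : ∀ y : ℝ, Real.exp (y * Real.log (1 / d T)) = d T ^ (-y) := by
        intro y
        rw [one_div, Real.log_inv, Real.rpow_def_of_pos h0]
        congr 1
        ring
      have hvol : volume ((Set.Icc 0 T \ N T) ∩ PP (d T) (a T) (lv T)) ≤ ENNReal.ofReal (d T ^ D * T) :=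
        (measure_mono Set.inter_subset_left).trans hT.vol
      have h2 : ‖∫ t in (Set.Icc 0 T \ N T) ∩ PP (d T) (a T) (lv T), MJ.SM.G k (a T) (d T) t‖ ≤
          d T ^ (-(2 * A * M)) * (d T ^ D * T) := by
        have hfin : volume ((Set.Icc 0 T \ N T) ∩ PP (d T) (a T) (lv T)) < ⊤ :=
          lt_of_le_of_lt hvol ENNReal.ofReal_lt_top
        refine (norm_setIntegral_le_of_norm_le_const (C := d T ^ (-(2 * A * M))) hfin fun t ht => ?_).trans ?_
        · rw [Real.norm_of_nonneg (MJ.SM.G_nn _ _ _ _), ← hexpL, hAd]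
          exact G_le hk hlT ht.2
        · refine mul_le_mul_of_nonneg_left ?_ (Real.rpow_pos_of_pos h0 _).le
          have h3 := ENNReal.toReal_mono ENNReal.ofReal_ne_top hvol
          rw [ENNReal.toReal_ofReal (by positivity)] at h3
          exact h3
      have h3 : Real.exp (-(qf (QM (d T) (a T)) k)) ≤ d T ^ (-(A ^ 2)) := by
        rw [← hexpL]
        apply Real.exp_le_exp.2
        have h4 := JXL.qf_abs (fun j l => JXL.QM_abs g5 h0 h1 (a T) j l) k
        have h5 : ∑ j, |k j| = A := by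
          rw [hAd]
          exact Finset.sum_congr rfl fun j _ => abs_of_nonneg (hk j)
        rw [h5] at h4
        linarith [(abs_le.1 h4).1]
      have h4 : B T ≤ d T ^ (-(A ^ 2)) / c0 := by
        rw [hBd]
        exact div_le_div₀ (Real.rpow_pos_of_pos h0 _).le h3 hc0 (hrc T).1
      have hB0 : 0 ≤ B T := by
        rw [hBd]
        have := hr0 T
        positivity
      have h5 : d T ^ (-(A ^ 2)) * d T ^ (-(2 * A * M)) * d T ^ D = d T := by
        rw [← Real.rpow_add h0, ← Real.rpow_add h0, hDd]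
        have : -(A ^ 2) + -(2 * A * M) + (A ^ 2 + 2 * A * M + 1) = 1 := by ring
        rw [this, Real.rpow_one]
      rw [hE, norm_mul, norm_mul, Real.norm_of_nonneg hB0,
        Real.norm_of_nonneg (by positivity : (0 : ℝ) ≤ 1 / T)]
      calc B T * (1 / T * ‖∫ t in (Set.Icc 0 T \ N T) ∩ PP (d T) (a T) (lv T), MJ.SM.G k (a T) (d T) t‖)
          ≤ (d T ^ (-(A ^ 2)) / c0) * (1 / T * (d T ^ (-(2 * A * M)) * (d T ^ D * T))) := by
            gcongr
        _ = 1 / c0 * (d T ^ (-(A ^ 2)) * d T ^ (-(2 * A * M)) * d T ^ D) := by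
            field_simp
        _ = _ := by rw [h5]
    have h0 : Tendsto (fun T : ℝ => 1 / c0 * d T) atTop (𝓝 0) := by
      have h1 := hd.t0.const_mul (1 / c0)
      rwa [mul_zero] at h1
    exact squeeze_zero_norm' hb h0
  have hlim := key.add hE0
  rw [add_zero] at hlim
  refine hlim.congr' ?_
  filter_upwards [hN 0, hsm, hst.eventually_gt_atTop 0] with T hT hT2 hs0
  obtain ⟨h0, h1, hT1⟩ := hT2
  have hT0 : 0 < T := by linarith
  have hK0 : 0 ≤ K T := by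
    rw [hK]
    have := hr0 T
    positivity
  have hPm : MeasurableSet (PP (d T) (a T) (lv T)) := PP_meas h1 _ _
  have hGi : ∀ S : Set ℝ, S ⊆ Set.Icc 0 T → IntegrableOn (fun t => MJ.SM.G k (a T) (d T) t) S volume :=
    fun S hS => ((MJ.SM.G_cont h1 hk).integrableOn_Icc).mono_set hS
  have hset : {t : ℝ | t ∈ Set.Icc 0 T ∧ ∀ j, mz (d T) (t + a T j) ≤ Real.exp (lv T j)} =
      (N T ∩ PP (d T) (a T) (lv T)) ∪ ((Set.Icc 0 T \ N T) ∩ PP (d T) (a T) (lv T)) := by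
    rw [← Set.union_inter_distrib_right, Set.union_sdiff_cancel hT.sub]
    rfl
  have hsplit : ∫ t in {t : ℝ | t ∈ Set.Icc 0 T ∧ ∀ j, mz (d T) (t + a T j) ≤ Real.exp (lv T j)},
      ∏ j, mz (d T) (t + a T j) ^ (2 * k j) =
      (∫ t in N T ∩ PP (d T) (a T) (lv T), MJ.SM.G k (a T) (d T) t) +
      ∫ t in (Set.Icc 0 T \ N T) ∩ PP (d T) (a T) (lv T), MJ.SM.G k (a T) (d T) t := by
    have hdis : Disjoint (N T ∩ PP (d T) (a T) (lv T)) ((Set.Icc 0 T \ N T) ∩ PP (d T) (a T) (lv T)) :=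
      (Set.disjoint_sdiff_right (s := N T) (t := Set.Icc 0 T)).mono Set.inter_subset_left Set.inter_subset_left
    rw [hset]
    exact setIntegral_union (f := fun t => MJ.SM.G k (a T) (d T) t) hdis
      ((measurableSet_Icc.diff hT.meas).inter hPm)
      (hGi _ (Set.inter_subset_left.trans hT.sub))
      (hGi _ (Set.inter_subset_left.trans Set.sdiff_subset))
  have hFs : StronglyMeasurable (fun y : Fin m → ℝ => FF x (fun j => y j / s T)) := by
    have h2 : Measurable (fun y : Fin m → ℝ => fun j => y j / s T) := by fun_prop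
    exact ((FF_meas x).comp h2).stronglyMeasurable
  have hint := JXL.int_nu h0 h1 hK0 (a T) k (w T) (N T) hFs
  have hmain : ∫ t in N T, JXL.rho (K T) (d T) (a T) k t • FF x (fun j => X (d T) (a T) (w T) t j / s T) =
      K T * ∫ t in N T ∩ PP (d T) (a T) (lv T), MJ.SM.G k (a T) (d T) t := by
    rw [← integral_const_mul, ← setIntegral_indicator hPm]
    refine setIntegral_congr_fun hT.meas fun t ht => ?_
    have hz : ∀ j, 0 < mz (d T) (t + a T j) := fun j => norm_pos_iff.2 (hT.nz t ht j)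
    have hiff : (∀ j, X (d T) (a T) (w T) t j / s T ≤ x j) ↔ t ∈ PP (d T) (a T) (lv T) := by
      refine forall_congr' fun j => ?_
      rw [← Real.log_le_iff_le_exp (hz j), div_le_iff₀ hs0]
      unfold JXL.X
      rw [hw]
      constructor <;> intro h <;> linarith
    have hrho : JXL.rho (K T) (d T) (a T) k t = K T * MJ.SM.G k (a T) (d T) t := rfl
    simp only [smul_eq_mul]
    rw [hrho]
    by_cases hP : t ∈ PP (d T) (a T) (lv T)
    · rw [FF_pos (hiff.2 hP), Set.indicator_of_mem hP, mul_one]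
    · rw [FF_neg (fun h => hP (hiff.1 h)), Set.indicator_of_notMem hP, mul_zero]
  have h8 : ∫ y, FF x (fun j => y j / s T) ∂(nu (K T) (d T) (a T) k (w T) (N T)) =
      K T * ∫ t in N T ∩ PP (d T) (a T) (lv T), MJ.SM.G k (a T) (d T) t := by
    rw [hint]
    exact hmain
  show (∫ y, FF x (fun j => y j / s T) ∂(nu (K T) (d T) (a T) k (w T) (N T))) + E T = _
  unfold TMm
  rw [h8, hE, hsplit, hK, hBd, ← hr T]
  ring

end Pool.Agent.N748.JX.TV2
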