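import Pool.Agent.N748.JX.Stm

set_option autoImplicit false

/-!
# Shifted moments near the critical line with individual levels: statements (over Mathlib only)
-/

namespace Pool.Agent.N748.JX

open Finset Filter MeasureTheory Topology Complex
open Pool.Agent.N748.MG Pool.Agent.N748.MJ

/-- the mean of `∏ |zeta|^(2 k_j)` over the heights at which the factors are at most `exp (lv j)` -/
noncomputable def TMm {m : ℕ} (k a lv : Fin m → ℝ) (δ T : ℝ) : ℝ :=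
  (1 / T) * ∫ t in {t : ℝ | t ∈ Set.Icc 0 T ∧ ∀ j, mz δ (t + a j) ≤ Real.exp (lv j)}, ∏ j, mz δ (t + a j) ^ (2 * k j)

/-- (TV1) levels above the critical ones -/
def S_TV1 : Prop := ∀ d : ℝ → ℝ, Ad d → ∀ (m : ℕ) (k : Fin m → ℝ) (ε C : ℝ), (∀ j, 0 ≤ k j) → 0 < ε →
  ∀ a lv : ℝ → Fin m → ℝ, (∀ᶠ T : ℝ in atTop, ∀ j, |a T j| ≤ T ^ ((1:ℝ) / 2)) →
  (∀ᶠ T : ℝ in atTop, ∀ j, (∑ l, QM (d T) (a T) j l * k l) + ε * Real.log (1 / d T) ≤ lv T j ∧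
    lv T j ≤ C * Real.log (1 / d T)) →
  Tendsto (fun T : ℝ => Real.exp (-(qf (QM (d T) (a T)) k)) / (aV (fun j => (k j : ℂ)) (fun j => (k j : ℂ)) (a T)).re *
    TMm k (a T) (lv T) (d T) T) atTop (𝓝 1)

/-- (TV2) levels in the critical window, asymptotically uncorrelated shifts -/
def S_TV2 : Prop := ∀ d : ℝ → ℝ, Ad d → ∀ (m : ℕ) (k x : Fin m → ℝ), (∀ j, 0 ≤ k j) →
  ∀ a lv : ℝ → Fin m → ℝ, (∀ᶠ T : ℝ in atTop, ∀ j, |a T j| ≤ T ^ ((1:ℝ) / 2)) →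
  (∀ j l, j ≠ l → Tendsto (fun T : ℝ => QM (d T) (a T) j l / Real.log (1 / d T)) atTop (𝓝 0)) →
  (∀ j, Tendsto (fun T : ℝ => (lv T j - ∑ l, QM (d T) (a T) j l * k l) / Real.sqrt (Real.log (1 / (2 * d T)) / 2)) atTop
    (𝓝 (x j))) →
  Tendsto (fun T : ℝ => Real.exp (-(qf (QM (d T) (a T)) k)) / (aV (fun j => (k j : ℂ)) (fun j => (k j : ℂ)) (a T)).re *
    TMm k (a T) (lv T) (d T) T) atTop (𝓝 (∏ j, (ProbabilityTheory.gaussianReal 0 1 (Set.Iic (x j))).toReal))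

/-- (TV3) levels below the critical ones -/
def S_TV3 : Prop := ∀ d : ℝ → ℝ, Ad d → ∀ (m : ℕ) (a : ℝ → Fin m → ℝ), Sh d a → ∀ k U : Fin m → ℝ, (∀ j, 0 ≤ k j) →
  (∀ j, U j < k j) →
  Tendsto (fun T : ℝ => Real.sqrt (Real.pi ^ m * (QM (d T) (a T)).det) *
    Real.exp (qf (QM (d T) (a T)) U - 2 * ∑ j, k j * ∑ l, QM (d T) (a T) j l * U l) /
    (aV (fun j => (U j : ℂ)) (fun j => (U j : ℂ)) (a T)).re *
    TMm k (a T) (fun j => ∑ l, QM (d T) (a T) j l * U l) (d T) T) atTop (𝓝 (∏ j, 1 / (2 * (k j - U j))))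

end Pool.Agent.N748.JX
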