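import Pool.Agent.N748.JX.Stm
import Pool.Agent.N748.JX.Stm2
import Pool.Agent.N748.MG.TMC

set_option autoImplicit false

/-!
# Shifted moments with levels below the critical ones (helper581 for project JX of helper748)

Adapted from `JX/JXT.lean` by helper933.
-/

namespace Pool.Agent.N748.JX.TV3

open Finset Filter MeasureTheory Topology Complex
open Pool.Agent.N748.MG Pool.Agent.N748.MJ

/-- the closed negative orthant -/
def Bc (m : ℕ) : Set (Fin m → ℝ) := {x | ∀ j, x j ≤ 0}

theorem Bc_closed (m : ℕ) : IsClosed (Bc m) := by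
  have : Bc m = ⋂ j, {x : Fin m → ℝ | x j ≤ 0} := by
    ext x
    simp [Bc]
  rw [this]
  exact isClosed_iInter fun j => isClosed_le (continuous_apply j) continuous_const

/-- the weight -/
noncomputable def W {m : ℕ} (k : Fin m → ℝ) (x : Fin m → ℝ) : ℝ := ∏ j, Real.exp (2 * k j * x j)

theorem W_cont {m : ℕ} (k : Fin m → ℝ) : Continuous (W k) := by
  unfold W
  fun_prop

theorem Bc_lim (m : ℕ) (k U : Fin m → ℝ) (hU : ∀ j, U j < k j) :
    ∫ x : Fin m → ℝ, Real.exp (-(2 * ∑ j, U j * x j)) * (Bc m).indicator (W k) x =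
      ∏ j, 1 / (2 * (k j - U j)) := by
  have h1 : ∀ x : Fin m → ℝ, Real.exp (-(2 * ∑ j, U j * x j)) *
      (Bc m).indicator (W k) x =
      ∏ j, (Set.Iic (0 : ℝ)).indicator (fun y => Real.exp ((2 * (k j - U j)) * y)) (x j) := by
    intro x
    by_cases hx : x ∈ Bc m
    · rw [Set.indicator_of_mem hx]
      have h2 : ∀ j, (Set.Iic (0 : ℝ)).indicator (fun y => Real.exp ((2 * (k j - U j)) * y)) (x j) =
          Real.exp ((2 * (k j - U j)) * x j) := fun j => Set.indicator_of_mem (Set.mem_Iic.2 (hx j)) _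
      simp only [h2]
      unfold W
      rw [← Real.exp_sum, ← Real.exp_sum, ← Real.exp_add, Finset.mul_sum,
        ← Finset.sum_neg_distrib, ← Finset.sum_add_distrib]
      congr 1
      exact Finset.sum_congr rfl fun j _ => by ring
    · rw [Set.indicator_of_notMem hx, mul_zero]
      have h2 : ∃ j, ¬ x j ≤ 0 := by
        by_contra hcon
        push Not at hcon
        exact hx hcon
      obtain ⟨j, hj⟩ := h2
      exact (Finset.prod_eq_zero (Finset.mem_univ j) (Set.indicator_of_notMem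
        (fun h => hj (Set.mem_Iic.1 h)) _)).symm
  simp_rw [h1]
  rw [integral_fintype_prod_volume_eq_prod
    (fun j y => (Set.Iic (0 : ℝ)).indicator (fun y => Real.exp ((2 * (k j - U j)) * y)) y)]
  refine Finset.prod_congr rfl fun j _ => ?_
  rw [integral_indicator measurableSet_Iic, integral_exp_mul_Iic (by linarith [hU j])]
  simp only [mul_zero, Real.exp_zero]

theorem Bc_cont (m : ℕ) (k : Fin m → ℝ) (x : Fin m → ℝ) (hx : x ∉ {x : Fin m → ℝ | ∃ j, x j = 0}) :
    ContinuousAt ((Bc m).indicator (W k)) x := by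
  by_cases hB : x ∈ Bc m
  · have h3 : ∀ j, x j < 0 := fun j => lt_of_le_of_ne (hB j) fun h => hx ⟨j, h⟩
    have h4 : ∀ᶠ y : Fin m → ℝ in 𝓝 x, ∀ j, y j < 0 := by
      rw [Filter.eventually_all]
      intro j
      exact (continuous_apply j).continuousAt.eventually_lt continuousAt_const (h3 j)
    have h1 : (Bc m).indicator (W k) =ᶠ[𝓝 x] W k := by
      filter_upwards [h4] with y hy
      exact Set.indicator_of_mem (show y ∈ Bc m from fun j => (hy j).le) _
    exact (W_cont k).continuousAt.congr h1.symm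
  · have h2 : ∃ j, ¬ x j ≤ 0 := by
      by_contra hcon
      push Not at hcon
      exact hB hcon
    obtain ⟨j, hj⟩ := h2
    have h4 : ∀ᶠ y : Fin m → ℝ in 𝓝 x, 0 < y j :=
      continuousAt_const.eventually_lt (continuous_apply j).continuousAt (not_le.1 hj)
    have h1 : (Bc m).indicator (W k) =ᶠ[𝓝 x] fun _ => (0 : ℝ) := by
      filter_upwards [h4] with y hy
      exact Set.indicator_of_notMem (fun h : y ∈ Bc m => absurd (h j) (not_le.2 hy)) _
    exact continuousAt_const.congr h1.symm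

theorem W_pos {m : ℕ} (k x : Fin m → ℝ) : 0 < W k x :=
  Finset.prod_pos fun _ _ => Real.exp_pos _

theorem W_le {m : ℕ} {k x : Fin m → ℝ} (hk : ∀ j, 0 ≤ k j) (hx : x ∈ Bc m) : W k x ≤ 1 := by
  refine Finset.prod_le_one (fun _ _ => (Real.exp_pos _).le) fun j _ => ?_
  apply Real.exp_le_one_iff.2
  have h1 : 0 ≤ 2 * k j := by have := hk j; linarith
  exact mul_nonpos_of_nonneg_of_nonpos h1 (hx j)

theorem Bc_bd (m : ℕ) (k U : Fin m → ℝ) (hU : ∀ j, U j < k j) : ∃ C : ℝ, ∀ x : Fin m → ℝ,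
    |(Bc m).indicator (W k) x| * ∏ j, (1 + x j ^ 2) ≤
      C * Real.exp (2 * ∑ j, U j * x j) := by
  have h1 : ∀ j, ∃ C : ℝ, 0 ≤ C ∧ ∀ x, 0 ≤ x → 1 + x ^ 2 ≤ C * Real.exp (2 * (k j - U j) * x) :=
    fun j => TMC.exp_bd (a := 2 * (k j - U j)) (by linarith [hU j])
  choose C hC0 hC using h1
  refine ⟨∏ j, C j, fun x => ?_⟩
  have hCp : 0 ≤ ∏ j, C j := Finset.prod_nonneg fun j _ => hC0 j
  by_cases hx : x ∈ Bc m
  · rw [Set.indicator_of_mem hx, abs_of_pos (W_pos k x), Finset.mul_sum, Real.exp_sum]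
    unfold W
    rw [← Finset.prod_mul_distrib, ← Finset.prod_mul_distrib]
    refine Finset.prod_le_prod (fun j _ => by positivity) fun j _ => ?_
    have h3 := hC j (-(x j)) (by have := hx j; linarith)
    have h4 : 1 + x j ^ 2 = 1 + (-(x j)) ^ 2 := by ring
    calc Real.exp (2 * k j * x j) * (1 + x j ^ 2)
        ≤ Real.exp (2 * k j * x j) * (C j * Real.exp (2 * (k j - U j) * -(x j))) := by
          rw [h4]
          exact mul_le_mul_of_nonneg_left h3 (Real.exp_pos _).le
      _ = C j * (Real.exp (2 * k j * x j) * Real.exp (2 * (k j - U j) * -(x j))) := by ring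
      _ = C j * Real.exp (2 * (U j * x j)) := by
          rw [← Real.exp_add]
          congr 2
          ring
  · rw [Set.indicator_of_notMem hx, abs_zero, zero_mul]
    positivity

theorem ev {m : ℕ} {δ T : ℝ} (h1 : δ < 1 / 2) (hT : 0 ≤ T) (k a q : Fin m → ℝ) :
    ∫ t in (0:ℝ)..T, (Bc m).indicator (W k)
      (fun j => Real.log (mz δ (t + a j)) - q j) =
    Real.exp (-(2 * ∑ j, k j * q j)) *
      ∫ t in {t : ℝ | t ∈ Set.Icc 0 T ∧ ∀ j, mz δ (t + a j) ≤ Real.exp (q j)},
        ∏ j, mz δ (t + a j) ^ (2 * k j) := by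
  have hQ : MeasurableSet {t : ℝ | ∀ j, mz δ (t + a j) ≤ Real.exp (q j)} := by
    have : {t : ℝ | ∀ j, mz δ (t + a j) ≤ Real.exp (q j)} =
        ⋂ j, {t : ℝ | mz δ (t + a j) ≤ Real.exp (q j)} := by
      ext t
      simp
    rw [this]
    exact MeasurableSet.iInter fun j => measurableSet_le
      ((TMC.mz_meas h1).comp (measurable_id.add_const (a j))) measurable_const
  have e1 : {t : ℝ | t ∈ Set.Icc 0 T ∧ ∀ j, mz δ (t + a j) ≤ Real.exp (q j)} =
      Set.Icc 0 T ∩ {t : ℝ | ∀ j, mz δ (t + a j) ≤ Real.exp (q j)} := rfl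
  have hne : ∀ᵐ t : ℝ, ∀ j, mz δ (t + a j) ≠ 0 := by
    rw [ae_all_iff]
    intro j
    exact (measurePreserving_add_right volume (a j)).quasiMeasurePreserving.ae (TMC.ae_ne h1)
  rw [e1, ← setIntegral_indicator hQ, intervalIntegral.integral_of_le hT,
    ← integral_Icc_eq_integral_Ioc, ← integral_const_mul]
  refine integral_congr_ae (ae_restrict_of_ae ?_)
  filter_upwards [hne] with t ht
  have hpos : ∀ j, 0 < mz δ (t + a j) := fun j =>
    lt_of_le_of_ne (norm_nonneg _) (Ne.symm (ht j))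
  have h2 : ∀ j, (Real.log (mz δ (t + a j)) - q j ≤ 0 ↔ mz δ (t + a j) ≤ Real.exp (q j)) := by
    intro j
    rw [sub_nonpos, Real.log_le_iff_le_exp (hpos j)]
  by_cases hx : ∀ j, mz δ (t + a j) ≤ Real.exp (q j)
  · rw [Set.indicator_of_mem (show t ∈ {t : ℝ | ∀ j, mz δ (t + a j) ≤ Real.exp (q j)} from hx),
      Set.indicator_of_mem (show (fun j => Real.log (mz δ (t + a j)) - q j) ∈ Bc m from
        fun j => (h2 j).2 (hx j))]
    unfold W
    rw [Finset.mul_sum, ← Finset.sum_neg_distrib, Real.exp_sum, ← Finset.prod_mul_distrib]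
    refine Finset.prod_congr rfl fun j _ => ?_
    rw [Real.rpow_def_of_pos (hpos j), ← Real.exp_add]
    congr 1
    ring
  · rw [Set.indicator_of_notMem
      (show t ∉ {t : ℝ | ∀ j, mz δ (t + a j) ≤ Real.exp (q j)} from hx),
      Set.indicator_of_notMem (show (fun j => Real.log (mz δ (t + a j)) - q j) ∉ Bc m from
        fun h => hx fun j => (h2 j).1 (h j)), mul_zero]

/-- levels below the critical ones -/
theorem main (g : S_JXL) : S_TV3 := by
  intro d hd m a hSh k U hk hU
  have key := g d hd m a hSh U ((Bc m).indicator (W k))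
    ((W_cont k).measurable.indicator (Bc_closed m).measurableSet)
    ⟨{x : Fin m → ℝ | ∃ j, x j = 0}, ?_, fun x hx => Bc_cont m k x hx⟩
    ⟨1, fun x => ?_⟩ (Bc_bd m k U hU)
  · rw [Bc_lim m k U hU] at key
    refine key.congr' ?_
    have hlt : ∀ᶠ T in atTop, d T < 1 / 2 := hd.t0.eventually_lt_const (by norm_num)
    filter_upwards [hlt, eventually_ge_atTop 0] with T a1 a2
    rw [ev a1 a2 k (a T) (fun j => ∑ l, QM (d T) (a T) j l * U l)]
    unfold TMm
    rw [sub_eq_add_neg (qf (QM (d T) (a T)) U), Real.exp_add]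
    ring
  · have h1 : {x : Fin m → ℝ | ∃ j, x j = 0} = ⋃ j, {x : Fin m → ℝ | x j = 0} := by
      ext x
      simp
    rw [h1, measure_iUnion_null_iff]
    intro j
    rw [volume_pi]
    exact Measure.pi_hyperplane _ j 0
  · by_cases hx : x ∈ Bc m
    · rw [Set.indicator_of_mem hx, abs_of_pos (W_pos k x)]
      exact W_le hk hx
    · rw [Set.indicator_of_notMem hx, abs_zero]
      exact zero_le_one

end Pool.Agent.N748.JX.TV3
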