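import Pool.Agent.N748.MJ.Fin
import Pool.Agent.N748.JX.GDET
import Pool.Agent.N748.JX.LLTG
import Pool.Agent.N748.JX.JXL
import Pool.Agent.N748.JX.JXT
import Pool.Agent.N748.JX.JXF
import Pool.Agent.N748.JX.TV1
import Pool.Agent.N748.JX.TV2
import Pool.Agent.N748.JX.TV3

set_option autoImplicit false

/-! Exact joint large deviations: the theorems. -/

namespace Pool.Agent.N748.JX

open Pool.Agent.N748.MG Pool.Agent.N748.MJ

theorem jxlF : S_JXL := JXL.main jmF (LLTG.main GDET.main) posF conF LZB.main

theorem jxtF : S_JXT := JXT.main jxlF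

theorem jxfF : S_JXF := JXF.main jxlF LZB.main

theorem tv1F : S_TV1 := TV1.main jmF posF LZB.main

theorem tv2F : S_TV2 := TV2.main jmF posF conF LZB.main

theorem tv3F : S_TV3 := TV3.main jxlF

end Pool.Agent.N748.JX
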